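import Pool.Agent.H631R3.Wk2

/-! Weak identities for functions in a torus mode with `∂̄` in `L²`. -/

open scoped ContDiff Topology ENNReal NNReal ComplexConjugate
open MeasureTheory Set Filter

noncomputable section

namespace Pool.Agent.H631DN

open Pool.Agent.H631R3

lemma integ {u : ℂ × ℂ → ℂ} (hu : MemLp u 2 μT) {c : ℂ × ℂ → ℝ} (hc : Continuous c) :
    Integrable (fun z => u z * (c z : ℂ)) μT := by
  obtain ⟨C, _, hC⟩ := exists_bound_T hc
  have h1 : Integrable u μT := hu.integrable (by norm_num)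
  refine h1.mul_bdd (c := C) (Complex.continuous_ofReal.comp hc).aestronglyMeasurable ?_
  filter_upwards [ae_restrict_mem measurableSet_Hartogs] with z hz
  rw [Complex.norm_real]
  exact hC z hz

/-- pairing of a complex function with a real function -/
def pr (u : ℂ × ℂ → ℂ) (c : ℂ × ℂ → ℝ) : ℂ := ∫ z in Hartogs, u z * (c z : ℂ)

lemma pr_add {u : ℂ × ℂ → ℂ} (hu : MemLp u 2 μT) {c c' : ℂ × ℂ → ℝ} (hc : Continuous c)
    (hc' : Continuous c') : pr u (fun z => c z + c' z) = pr u c + pr u c' := by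
  unfold pr
  rw [← integral_add (integ hu hc) (integ hu hc')]
  congr 1
  funext z
  push_cast
  ring

lemma pr_smul {u : ℂ × ℂ → ℂ} (r : ℝ) (c : ℂ × ℂ → ℝ) :
    pr u (fun z => r * c z) = r * pr u c := by
  unfold pr
  rw [← integral_const_mul]
  congr 1
  funext z
  push_cast
  ring

lemma pr_neg {u : ℂ × ℂ → ℂ} (c : ℂ × ℂ → ℝ) : pr u (fun z => - c z) = - pr u c := by
  have := pr_smul (u := u) (-1) c
  simpa using this

/-- weak `∂̄` in one coordinate -/
def WDb (e : ℂ →L[ℝ] ℂ × ℂ) (u f : ℂ × ℂ → ℂ) : Prop :=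
  ∀ φ, IsTest Hartogs φ → pr f φ = -(pr u (fun z => fderiv ℝ φ z (e 1))
    + Complex.I * pr u (fun z => fderiv ℝ φ z (e Complex.I))) / 2

/-- weak mode identity in one coordinate -/
def WMode (e : ℂ →L[ℝ] ℂ × ℂ) (p : (ℂ × ℂ) →L[ℝ] ℂ) (m : ℤ) (u : ℂ × ℂ → ℂ) : Prop :=
  ∀ φ, IsTest Hartogs φ → pr u (fun z => fderiv ℝ φ z (e (Complex.I * p z)))
    = -(Complex.I * m) * pr u φ

lemma e_split (e : ℂ →L[ℝ] ℂ × ℂ) (w : ℂ) : e w = w.re • e 1 + w.im • e Complex.I := by
  rw [← map_smul, ← map_smul, ← map_add]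
  congr 1
  apply Complex.ext <;> simp

lemma fderiv_split {φ : ℂ × ℂ → ℝ} (e : ℂ →L[ℝ] ℂ × ℂ) (w : ℂ) (z : ℂ × ℂ) :
    fderiv ℝ φ z (e w) = w.re * fderiv ℝ φ z (e 1) + w.im * fderiv ℝ φ z (e Complex.I) := by
  rw [e_split e w, map_add, map_smul, map_smul, smul_eq_mul, smul_eq_mul]

lemma fderiv_mul' {g φ : ℂ × ℂ → ℝ} {z : ℂ × ℂ} (hg : DifferentiableAt ℝ g z)
    (hφ : DifferentiableAt ℝ φ z) (v : ℂ × ℂ) :
    fderiv ℝ (fun x => g x * φ x) z v = g z * fderiv ℝ φ z v + φ z * fderiv ℝ g z v := by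
  rw [fderiv_fun_mul hg hφ]
  simp

section one

variable {e : ℂ →L[ℝ] ℂ × ℂ} {p : (ℂ × ℂ) →L[ℝ] ℂ} (hpe : ∀ a, p (e a) = a) {m : ℤ}
  {u f : ℂ × ℂ → ℂ} (hu : MemLp u 2 μT) (hf : MemLp f 2 μT) (hD : WDb e u f) (hM : WMode e p m u)

include hpe hu hf hD hM

lemma radial {φ : ℂ × ℂ → ℝ} (hφ : IsTest Hartogs φ) :
    pr u (fun z => fderiv ℝ φ z (e (p z)))
      = -2 * pr (fun z => conj (p z) * f z) φ - (2 + m) * pr u φ := by
  set x : ℂ × ℂ → ℝ := fun z => (p z).re with hx
  set y : ℂ × ℂ → ℝ := fun z => (p z).im with hy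
  have hxc : ContDiff ℝ ∞ x := (Complex.reCLM.comp p).contDiff
  have hyc : ContDiff ℝ ∞ y := (Complex.imCLM.comp p).contDiff
  have hxd : ∀ z v, fderiv ℝ x z v = (p v).re := fun z v => by
    have : fderiv ℝ x z = Complex.reCLM.comp p := (Complex.reCLM.comp p).fderiv
    rw [this]; rfl
  have hyd : ∀ z v, fderiv ℝ y z v = (p v).im := fun z v => by
    have : fderiv ℝ y z = Complex.imCLM.comp p := (Complex.imCLM.comp p).fderiv
    rw [this]; rfl
  have hφd : ∀ z, DifferentiableAt ℝ φ z := fun z => hφ.1.differentiable (by simp) z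
  have hxd' : ∀ z, DifferentiableAt ℝ x z := fun z => hxc.differentiable (by simp) z
  have hyd' : ∀ z, DifferentiableAt ℝ y z := fun z => hyc.differentiable (by simp) z
  set d1 : ℂ × ℂ → ℝ := fun z => fderiv ℝ φ z (e 1) with hd1
  set dI : ℂ × ℂ → ℝ := fun z => fderiv ℝ φ z (e Complex.I) with hdI
  have c1 : Continuous d1 := (hφ.fderiv_apply _).1.continuous
  have cI : Continuous dI := (hφ.fderiv_apply _).1.continuous
  have cφ : Continuous φ := hφ.1.continuous
  have cx : Continuous x := hxc.continuous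
  have cy : Continuous y := hyc.continuous
  have h1 := hD (fun z => x z * φ z) (hφ.mul_left hxc)
  have h2 := hD (fun z => y z * φ z) (hφ.mul_left hyc)
  have e1 : (fun z => fderiv ℝ (fun z => x z * φ z) z (e 1)) = fun z => x z * d1 z + φ z := by
    funext z
    rw [fderiv_mul' (hxd' z) (hφd z), hxd, hpe]; simp [hd1]
  have e2 : (fun z => fderiv ℝ (fun z => x z * φ z) z (e Complex.I)) = fun z => x z * dI z := by
    funext z
    rw [fderiv_mul' (hxd' z) (hφd z), hxd, hpe]; simp [hdI]
  have e3 : (fun z => fderiv ℝ (fun z => y z * φ z) z (e 1)) = fun z => y z * d1 z := by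
    funext z
    rw [fderiv_mul' (hyd' z) (hφd z), hyd, hpe]; simp [hd1]
  have e4 : (fun z => fderiv ℝ (fun z => y z * φ z) z (e Complex.I)) = fun z => y z * dI z + φ z := by
    funext z
    rw [fderiv_mul' (hyd' z) (hφd z), hyd, hpe]; simp [hdI]
  have cx1 : Continuous fun z => x z * d1 z := cx.mul c1
  have cxI : Continuous fun z => x z * dI z := cx.mul cI
  have cy1 : Continuous fun z => y z * d1 z := cy.mul c1
  have cyI : Continuous fun z => y z * dI z := cy.mul cI
  have cy1n : Continuous fun z => -(y z * d1 z) := cy1.neg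
  rw [e1, e2, pr_add hu cx1 cφ] at h1
  rw [e3, e4, pr_add hu cyI cφ] at h2
  have h3 := hM φ hφ
  have e5 : (fun z => fderiv ℝ φ z (e (Complex.I * p z))) = fun z => -(y z * d1 z) + x z * dI z := by
    funext z
    rw [fderiv_split]
    simp [hx, hy, hd1, hdI]
  rw [e5, pr_add hu cy1n cxI, pr_neg] at h3
  have e6 : (fun z => fderiv ℝ φ z (e (p z))) = fun z => x z * d1 z + y z * dI z := by
    funext z
    rw [fderiv_split]
  rw [e6, pr_add hu cx1 cyI]
  have e7 : pr (fun z => conj (p z) * f z) φ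
      = pr f (fun z => x z * φ z) - Complex.I * pr f (fun z => y z * φ z) := by
    have cxφ : Continuous fun z => x z * φ z := cx.mul cφ
    have cyφ : Continuous fun z => y z * φ z := cy.mul cφ
    unfold pr
    rw [← integral_const_mul, ← integral_sub (integ hf cxφ) ((integ hf cyφ).const_mul _)]
    congr 1
    funext z
    have : conj (p z) = (x z : ℂ) - Complex.I * (y z : ℂ) := by
      apply Complex.ext <;> simp [hx, hy]
    beta_reduce
    rw [this]
    push_cast
    ring
  rw [e7, h1, h2]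
  have hI : Complex.I * Complex.I = -1 := Complex.I_mul_I
  linear_combination (-1 : ℂ) * (Complex.I * h3) + ((m : ℂ) * pr u φ + pr u (fun z => y z * dI z)
    + pr u φ) * hI

/-- the gradient of `|p|² |o|² u` in the directions `e a` -/
lemma grad_lam {o : (ℂ × ℂ) →L[ℝ] ℂ} (hoe : ∀ a, o (e a) = 0) (a : ℂ) {φ : ℂ × ℂ → ℝ}
    (hφ : IsTest Hartogs φ) :
    pr (fun z => ((‖p z‖ ^ 2 * ‖o z‖ ^ 2 : ℝ) : ℂ) * u z) (fun z => fderiv ℝ φ z (e a))
      = - pr (fun z => ((‖o z‖ ^ 2 * (a * conj (p z)).re : ℝ) : ℂ) * (2 * (conj (p z) * f z))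
          + ((2 + m) * ((‖o z‖ ^ 2 * (a * conj (p z)).re : ℝ) : ℂ)
          + Complex.I * m * ((‖o z‖ ^ 2 * (a * conj (p z)).im : ℝ) : ℂ)) * u z) φ := by
  set P : ℂ × ℂ → ℝ := fun z => ‖o z‖ ^ 2 * (a * conj (p z)).re with hP
  set Q : ℂ × ℂ → ℝ := fun z => ‖o z‖ ^ 2 * (a * conj (p z)).im with hQ
  have hN : ContDiff ℝ ∞ (fun z : ℂ × ℂ => ‖o z‖ ^ 2) := (contDiff_norm_sq ℝ).comp o.contDiff
  have hcp : ContDiff ℝ ∞ (fun z : ℂ × ℂ => a * conj (p z)) :=
    contDiff_const.mul (Complex.conjCLE.contDiff.comp p.contDiff)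
  have hPc : ContDiff ℝ ∞ P := hN.mul (Complex.reCLM.contDiff.comp hcp)
  have hQc : ContDiff ℝ ∞ Q := hN.mul (Complex.imCLM.contDiff.comp hcp)
  have hPd : ∀ z, DifferentiableAt ℝ P z := fun z => hPc.differentiable (by simp) z
  have hQd : ∀ z, DifferentiableAt ℝ Q z := fun z => hQc.differentiable (by simp) z
  have hφd : ∀ z, DifferentiableAt ℝ φ z := fun z => hφ.1.differentiable (by simp) z
  have hXP : ∀ z, fderiv ℝ P z (e (p z)) = P z := by
    intro z
    have h1 : HasDerivAt (fun t : ℝ => z + t • e (p z)) (e (p z)) 0 := by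
      simpa using ((hasDerivAt_id (0 : ℝ)).smul_const (e (p z))).const_add z
    have h2 : HasDerivAt (fun t : ℝ => P (z + t • e (p z))) (fderiv ℝ P z (e (p z))) 0 := by
      have h3 : HasFDerivAt P (fderiv ℝ P z) (z + (0 : ℝ) • e (p z)) := by
        rw [zero_smul, add_zero]; exact (hPd z).hasFDerivAt
      exact h3.comp_hasDerivAt (0 : ℝ) h1
    have h4 : (fun t : ℝ => P (z + t • e (p z))) = fun t => (1 + t) * P z := by
      funext t
      simp only [hP, map_add, map_smul, hoe, hpe, smul_zero, add_zero, Complex.real_smul,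
        map_mul, Complex.conj_ofReal]
      have : a * (conj (p z) + t * conj (p z)) = ((1 + t : ℝ) : ℂ) * (a * conj (p z)) := by
        push_cast; ring
      rw [this, Complex.re_ofReal_mul]
      ring
    rw [h4] at h2
    have h5 : HasDerivAt (fun t : ℝ => (1 + t) * P z) (P z) 0 := by
      simpa using ((hasDerivAt_id (0 : ℝ)).const_add 1).mul_const (P z)
    exact h2.unique h5
  have hYQ : ∀ z, fderiv ℝ Q z (e (Complex.I * p z)) = - P z := by
    intro z
    have h1 : HasDerivAt (fun t : ℝ => z + t • e (Complex.I * p z)) (e (Complex.I * p z)) 0 := by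
      simpa using ((hasDerivAt_id (0 : ℝ)).smul_const (e (Complex.I * p z))).const_add z
    have h2 : HasDerivAt (fun t : ℝ => Q (z + t • e (Complex.I * p z)))
        (fderiv ℝ Q z (e (Complex.I * p z))) 0 := by
      have h3 : HasFDerivAt Q (fderiv ℝ Q z) (z + (0 : ℝ) • e (Complex.I * p z)) := by
        rw [zero_smul, add_zero]; exact (hQd z).hasFDerivAt
      exact h3.comp_hasDerivAt (0 : ℝ) h1
    have h4 : (fun t : ℝ => Q (z + t • e (Complex.I * p z))) = fun t => Q z + t * (- P z) := by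
      funext t
      simp only [hP, hQ, map_add, map_smul, hoe, hpe, smul_zero, add_zero, Complex.real_smul,
        map_mul, Complex.conj_ofReal, Complex.conj_I]
      have : a * (conj (p z) + t * (-Complex.I * conj (p z)))
          = a * conj (p z) + (t : ℂ) * (-(Complex.I * (a * conj (p z)))) := by ring
      rw [this, Complex.add_im, Complex.im_ofReal_mul, Complex.neg_im, Complex.I_mul_im]
      ring
    rw [h4] at h2
    have h5 : HasDerivAt (fun t : ℝ => Q z + t * (- P z)) (- P z) 0 := by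
      simpa using ((hasDerivAt_id (0 : ℝ)).mul_const (- P z)).const_add (Q z)
    exact h2.unique h5
  have cφ : Continuous φ := hφ.1.continuous
  have cP : Continuous P := hPc.continuous
  have cQ : Continuous Q := hQc.continuous
  have h1 := radial hpe hu hf hD hM (hφ.mul_left hPc)
  have h2 := hM _ (hφ.mul_left hQc)
  have key : ∀ z, ‖p z‖ ^ 2 * ‖o z‖ ^ 2 * fderiv ℝ φ z (e a)
      = fderiv ℝ (fun z => P z * φ z) z (e (p z))
        + fderiv ℝ (fun z => Q z * φ z) z (e (Complex.I * p z)) := by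
    intro z
    rw [fderiv_mul' (hPd z) (hφd z), fderiv_mul' (hQd z) (hφd z), hXP, hYQ]
    have h3 : ‖p z‖ ^ 2 * fderiv ℝ φ z (e a) = (a * conj (p z)).re * fderiv ℝ φ z (e (p z))
        + (a * conj (p z)).im * fderiv ℝ φ z (e (Complex.I * p z)) := by
      have h4 : e ((‖p z‖ ^ 2 : ℝ) • a) = (a * conj (p z)).re • e (p z)
          + (a * conj (p z)).im • e (Complex.I * p z) := by
        rw [show (a * conj (p z)).re • e (p z) = e ((a * conj (p z)).re • p z) from
            (map_smul e _ _).symm,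
          show (a * conj (p z)).im • e (Complex.I * p z) = e ((a * conj (p z)).im • (Complex.I * p z))
            from (map_smul e _ _).symm, ← map_add e]
        congr 1
        rw [Complex.real_smul, Complex.real_smul, Complex.real_smul]
        have h5 : ((‖p z‖ ^ 2 : ℝ) : ℂ) = conj (p z) * p z := by
          rw [← Complex.normSq_eq_norm_sq, Complex.normSq_eq_conj_mul_self]
        have h6 : a * conj (p z) = ((a * conj (p z)).re : ℂ) + ((a * conj (p z)).im : ℂ) * Complex.I :=
          (Complex.re_add_im _).symm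
        rw [h5]
        calc conj (p z) * p z * a = (a * conj (p z)) * p z := by ring
          _ = (((a * conj (p z)).re : ℂ) + ((a * conj (p z)).im : ℂ) * Complex.I) * p z := by
              rw [← h6]
          _ = _ := by ring
      rw [map_smul] at h4
      have h7 := congrArg (fderiv ℝ φ z) h4
      rw [map_smul, map_add, map_smul, map_smul] at h7
      exact h7
    simp only [hP, hQ]
    linear_combination ‖o z‖ ^ 2 * h3
  have cX : Continuous fun z => fderiv ℝ (fun z => P z * φ z) z (e (p z)) :=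
    ((hPc.mul hφ.1).continuous_fderiv (by simp)).clm_apply (by fun_prop)
  have cY : Continuous fun z => fderiv ℝ (fun z => Q z * φ z) z (e (Complex.I * p z)) :=
    ((hQc.mul hφ.1).continuous_fderiv (by simp)).clm_apply (by fun_prop)
  have h8 : pr (fun z => ((‖p z‖ ^ 2 * ‖o z‖ ^ 2 : ℝ) : ℂ) * u z) (fun z => fderiv ℝ φ z (e a))
      = pr u (fun z => fderiv ℝ (fun z => P z * φ z) z (e (p z))
        + fderiv ℝ (fun z => Q z * φ z) z (e (Complex.I * p z))) := by
    unfold pr
    congr 1
    funext z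
    beta_reduce
    rw [← key]
    push_cast
    ring
  rw [h8, pr_add hu cX cY, h1, h2]
  have hcf : MemLp (fun z => conj (p z) * f z) 2 μT := by
    have hc1 : Continuous fun z => conj (p z) := Complex.continuous_conj.comp p.continuous
    obtain ⟨C, _, hC⟩ := exists_bound_T (a := fun z => ‖conj (p z)‖) hc1.norm
    refine MemLp.of_le_mul (c := C) hf ((hc1.aestronglyMeasurable).mul hf.1) ?_
    filter_upwards [ae_restrict_mem measurableSet_Hartogs] with z hz
    rw [norm_mul]
    gcongr
    have := hC z hz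
    rwa [abs_of_nonneg (norm_nonneg _)] at this
  have h9 : pr (fun z => ((P z : ℝ) : ℂ) * (2 * (conj (p z) * f z))
          + ((2 + m) * ((P z : ℝ) : ℂ) + Complex.I * m * ((Q z : ℝ) : ℂ)) * u z) φ
      = 2 * pr (fun z => conj (p z) * f z) (fun z => P z * φ z)
        + (2 + m) * pr u (fun z => P z * φ z) + Complex.I * m * pr u (fun z => Q z * φ z) := by
    unfold pr
    rw [← integral_const_mul, ← integral_const_mul, ← integral_const_mul, ← integral_add,
      ← integral_add]
    · congr 1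
      funext z
      push_cast
      ring
    · exact (((integ hcf (cP.mul cφ)).const_mul _).add ((integ hu (cP.mul cφ)).const_mul _))
    · exact (integ hu (cQ.mul cφ)).const_mul _
    · exact (integ hcf (cP.mul cφ)).const_mul _
    · exact (integ hu (cP.mul cφ)).const_mul _
  rw [h9]
  ring

end one

end Pool.Agent.H631DN
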