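import Pool.Agent.H631DN.A1

/-! Tightness of functions in a torus mode with `∂̄` in `L²`: norms, changes of variables. -/

open scoped ContDiff Topology ENNReal NNReal ComplexConjugate
open MeasureTheory Set Filter

noncomputable section

namespace Pool.Agent.H631DN

open Pool.Agent.H631R3

/-- the norm in `L²(T)` -/
def nn {E : Type*} [NormedAddCommGroup E] (g : ℂ × ℂ → E) : ℝ :=
  Real.sqrt (∫⁻ z in Hartogs, ‖g z‖ₑ ^ 2).toReal

lemma nn_nonneg {E : Type*} [NormedAddCommGroup E] (g : ℂ × ℂ → E) : 0 ≤ nn g := Real.sqrt_nonneg _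

lemma lint_ne_top {E : Type*} [NormedAddCommGroup E] {g : ℂ × ℂ → E} (hg : MemLp g 2 μT) :
    ∫⁻ z in Hartogs, ‖g z‖ₑ ^ 2 ≠ ⊤ := by
  have := hg.2
  rw [eLpNorm_lt_top_iff_lintegral_rpow_enorm_lt_top (by norm_num) (by norm_num)] at this
  simp only [ENNReal.toReal_ofNat, ENNReal.rpow_ofNat] at this
  exact this.ne

lemma nn_sq {E : Type*} [NormedAddCommGroup E] {g : ℂ × ℂ → E} (hg : MemLp g 2 μT) :
    ENNReal.ofReal (nn g) ^ 2 = ∫⁻ z in Hartogs, ‖g z‖ₑ ^ 2 := by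
  unfold nn
  rw [← ENNReal.ofReal_pow (Real.sqrt_nonneg _), Real.sq_sqrt ENNReal.toReal_nonneg,
    ENNReal.ofReal_toReal (lint_ne_top hg)]

lemma le_of_enorm_sq_le {E : Type*} [NormedAddCommGroup E] {x : E} {B : ℝ} (hB : 0 ≤ B)
    (h : ‖x‖ₑ ^ 2 ≤ ENNReal.ofReal B ^ 2) : ‖x‖ ≤ B := by
  rw [← ofReal_norm, ← ENNReal.ofReal_pow (norm_nonneg _), ← ENNReal.ofReal_pow hB,
    ENNReal.ofReal_le_ofReal_iff (by positivity)] at h
  exact le_of_sq_le_sq h hB

lemma nn_le {E : Type*} [NormedAddCommGroup E] {g : ℂ × ℂ → E} {B : ℝ} (hB : 0 ≤ B)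
    (h : ∫⁻ z in Hartogs, ‖g z‖ₑ ^ 2 ≤ ENNReal.ofReal B ^ 2) : nn g ≤ B := by
  unfold nn
  rw [Real.sqrt_le_left hB]
  rw [← ENNReal.ofReal_pow hB] at h
  exact ENNReal.toReal_le_of_le_ofReal (by positivity) h

lemma pr_bound {g : ℂ × ℂ → ℂ} (hg : MemLp g 2 μT) {φ : ℂ × ℂ → ℝ} (hφ : MemLp φ 2 μT) :
    ‖pr g φ‖ ≤ nn g * nn φ := by
  apply le_of_enorm_sq_le (mul_nonneg (nn_nonneg _) (nn_nonneg _))
  rw [ENNReal.ofReal_mul (nn_nonneg _), mul_pow, nn_sq hg, nn_sq hφ]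
  calc ‖pr g φ‖ₑ ^ 2 ≤ (∫⁻ x in Hartogs, ‖g x‖ₑ * ‖φ x‖ₑ) ^ 2 := by
        gcongr
        refine (enorm_integral_le_lintegral_enorm _).trans (le_of_eq ?_)
        refine lintegral_congr fun x => ?_
        rw [enorm_mul]
        congr 1
        rw [← ofReal_norm, ← ofReal_norm, Complex.norm_real]
    _ ≤ _ := cs_lintegral _ hg.1.aemeasurable.enorm hφ.1.aemeasurable.enorm

lemma test_memLp {φ : ℂ × ℂ → ℝ} (hφ : IsTest Hartogs φ) : MemLp φ 2 μT :=
  memLp_of_continuous hφ.1.continuous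

/-- dilations -/
def Dl (b s : ℝ) : (ℂ × ℂ) →L[ℝ] (ℂ × ℂ) := M ((Real.exp (-s) : ℝ) : ℂ) 0 ((Real.exp (-(b * s)) : ℝ) : ℂ)

lemma Dl_apply (b s : ℝ) (z : ℂ × ℂ) :
    Dl b s z = (Real.exp (-s) * z.1, Real.exp (-(b * s)) * z.2) := by
  simp [Dl, M_apply]

lemma Dl_Dl (b s t : ℝ) (z : ℂ × ℂ) : Dl b s (Dl b t z) = Dl b (s + t) z := by
  rw [Dl_apply, Dl_apply, Dl_apply]
  ext1
  · simp only
    rw [neg_add, Real.exp_add]; push_cast; ring
  · simp only
    rw [mul_add, neg_add, Real.exp_add]; push_cast; ring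

lemma Dl_zero (b : ℝ) (z : ℂ × ℂ) : Dl b 0 z = z := by
  rw [Dl_apply]; simp

lemma Dl_mem {b s : ℝ} (hb : b = 0 ∨ b = 1) (hs : 0 ≤ s) {z : ℂ × ℂ} (hz : z ∈ Hartogs) :
    Dl b s z ∈ Hartogs := by
  rw [Dl_apply]
  have h1 : ‖z.1‖ < ‖z.2‖ := hz.1
  have h2 : ‖z.2‖ < 1 := hz.2
  have e1 : Real.exp (-s) ≤ 1 := Real.exp_le_one_iff.2 (by linarith)
  have e0 : 0 < Real.exp (-s) := Real.exp_pos _
  constructor
  · change ‖(Real.exp (-s) : ℂ) * z.1‖ < ‖(Real.exp (-(b * s)) : ℂ) * z.2‖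
    rw [norm_mul, norm_mul, Complex.norm_real, Complex.norm_real, Real.norm_of_nonneg (Real.exp_pos _).le,
      Real.norm_of_nonneg (Real.exp_pos _).le]
    rcases hb with rfl | rfl
    · rw [zero_mul, neg_zero, Real.exp_zero, one_mul]
      nlinarith [norm_nonneg z.1]
    · rw [one_mul]
      exact mul_lt_mul_of_pos_left h1 e0
  · change ‖(Real.exp (-(b * s)) : ℂ) * z.2‖ < 1
    rw [norm_mul, Complex.norm_real, Real.norm_of_nonneg (Real.exp_pos _).le]
    have e2 : Real.exp (-(b * s)) ≤ 1 := by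
      apply Real.exp_le_one_iff.2
      rcases hb with rfl | rfl <;> linarith
    nlinarith [norm_nonneg z.2, Real.exp_pos (-(b * s))]

lemma lintegral_Dl (b s : ℝ) {G : ℂ × ℂ → ℝ≥0∞} (hG : Measurable G) :
    ∫⁻ z, G (Dl b s z) = ENNReal.ofReal (Real.exp ((2 + 2 * b) * s)) * ∫⁻ z, G z := by
  unfold Dl
  rw [lintegral_M hG (by exact_mod_cast (Real.exp_pos _).ne') (by exact_mod_cast (Real.exp_pos _).ne'),
    ← mul_assoc, ← ENNReal.ofReal_mul (by positivity)]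
  congr 2
  rw [Complex.norm_real, Complex.norm_real, Real.norm_of_nonneg (Real.exp_pos _).le,
    Real.norm_of_nonneg (Real.exp_pos _).le, ← Real.exp_nat_mul, ← Real.exp_nat_mul, ← Real.exp_neg,
    ← Real.exp_neg, ← Real.exp_add]
  congr 1
  push_cast
  ring

lemma map_Dl (b s : ℝ) : Measure.map (Dl b s) volume
    = ENNReal.ofReal (Real.exp ((2 + 2 * b) * s)) • (volume : Measure (ℂ × ℂ)) := by
  ext A hA
  rw [Measure.map_apply (Dl b s).continuous.measurable hA, Measure.smul_apply, smul_eq_mul,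
    ← lintegral_indicator_one hA, ← lintegral_indicator_one ((Dl b s).continuous.measurable hA)]
  rw [← lintegral_Dl b s (measurable_one.indicator hA)]
  rfl

lemma integral_Dl (b s : ℝ) {F : ℂ × ℂ → ℂ} (hF : AEStronglyMeasurable F volume) :
    ∫ z, F (Dl b s z) = (Real.exp ((2 + 2 * b) * s) : ℂ) * ∫ z, F z := by
  have h1 : AEStronglyMeasurable F (Measure.map (Dl b s) volume) := by
    rw [map_Dl]
    exact hF.smul_measure _
  rw [← integral_map (Dl b s).continuous.measurable.aemeasurable h1, map_Dl, integral_smul_measure,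
    ENNReal.toReal_ofReal (Real.exp_pos _).le, Complex.real_smul]

/-- transported test functions -/
def psi (b : ℝ) (χ : ℂ × ℂ → ℝ) (s : ℝ) (z : ℂ × ℂ) : ℝ := χ (Dl b (-s) z)

lemma psi_test {b s : ℝ} (hb : b = 0 ∨ b = 1) (hs : 0 ≤ s) {χ : ℂ × ℂ → ℝ} (hχ : IsTest Hartogs χ) :
    IsTest Hartogs (psi b χ s) := by
  have hsub : Function.support (psi b χ s) ⊆ Dl b s '' tsupport χ := by
    intro z hz
    refine ⟨Dl b (-s) z, subset_tsupport _ hz, ?_⟩
    rw [Dl_Dl, add_neg_cancel, Dl_zero]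
  have hc : IsCompact (Dl b s '' tsupport χ) := hχ.2.1.isCompact.image (Dl b s).continuous
  refine ⟨hχ.1.comp (Dl b (-s)).contDiff, HasCompactSupport.of_support_subset_isCompact hc hsub, ?_⟩
  refine (closure_minimal hsub hc.isClosed).trans ?_
  rintro _ ⟨y, hy, rfl⟩
  exact Dl_mem hb hs (hχ.2.2 hy)

lemma psi_ne {b s : ℝ} {χ : ℂ × ℂ → ℝ} (hχ : IsTest Hartogs χ) {z : ℂ × ℂ} (hz : psi b χ s z ≠ 0) :
    ∃ y ∈ Hartogs, z = Dl b s y := by
  refine ⟨Dl b (-s) z, hχ.2.2 (subset_tsupport _ hz), ?_⟩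
  rw [Dl_Dl, add_neg_cancel, Dl_zero]

lemma test_lint {φ : ℂ × ℂ → ℝ} (hφ : IsTest Hartogs φ) :
    ∫⁻ z in Hartogs, ‖φ z‖ₑ ^ 2 = ∫⁻ z, ‖φ z‖ₑ ^ 2 := by
  rw [← lintegral_indicator measurableSet_Hartogs]
  congr 1
  funext z
  by_cases hz : z ∈ Hartogs
  · rw [indicator_of_mem hz]
  · rw [indicator_of_notMem hz]
    have : φ z = 0 := by
      by_contra h
      exact hz (hφ.2.2 (subset_tsupport _ h))
    rw [this]; simp

lemma nn_psi {b s : ℝ} (hb : b = 0 ∨ b = 1) (hs : 0 ≤ s) {χ : ℂ × ℂ → ℝ} (hχ : IsTest Hartogs χ) :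
    nn (psi b χ s) = Real.exp (-((1 + b) * s)) * nn χ := by
  unfold nn
  rw [test_lint (psi_test hb hs hχ), test_lint hχ]
  unfold psi
  rw [lintegral_Dl b (-s) (G := fun z => ‖χ z‖ₑ ^ 2) (hχ.1.continuous.enorm.measurable.pow_const 2),
    ENNReal.toReal_mul, ENNReal.toReal_ofReal (Real.exp_pos _).le, Real.sqrt_mul (Real.exp_pos _).le]
  congr 1
  rw [show (2 + 2 * b) * (-s) = -((1 + b) * s) + -((1 + b) * s) by ring, Real.exp_add,
    Real.sqrt_mul_self (Real.exp_pos _).le]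

/-- duality -/
lemma dual_norm {v : ℂ × ℂ → ℂ} (hv : MemLp v 2 μT) {B : ℝ} (hB : 0 ≤ B)
    (h : ∀ χ, IsTest Hartogs χ → ‖pr v χ‖ ≤ B * nn χ) :
    ∫⁻ z in Hartogs, ‖v z‖ₑ ^ 2 ≤ 2 * ENNReal.ofReal B ^ 2 := by
  have key : ∀ (L : ℂ →L[ℝ] ℝ), ‖L‖ ≤ 1 →
      ∫⁻ z in Hartogs, ‖L (v z)‖ₑ ^ 2 ≤ ENNReal.ofReal B ^ 2 := by
    intro L hL
    have hLv : MemLp (fun z => L (v z)) 2 μT := L.comp_memLp' hv
    have hLL : LL (fun (_ : Idx 0) z => L (v z)) := fun _ => hLv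
    set w := mk _ hLL with hw
    have hnw : ‖w‖ₑ ^ 2 = ∫⁻ z in Hartogs, ‖L (v z)‖ₑ ^ 2 := by
      rw [hw, mk_enorm_sq]
      rw [Finset.sum_eq_single idx0]
      · intro J _ hJ; exact absurd (idx0_unique J) hJ
      · intro hJ; exact absurd (Finset.mem_univ _) hJ
    have hin : ∀ ψ : TM 0, |inner ℝ w (TL 0 ψ)| ≤ B * ‖TL 0 ψ‖ := by
      intro ψ
      have h1 : inner ℝ w (TL 0 ψ) = L (pr v (ψ.1 idx0)) := by
        rw [real_inner_comm, hw, inner_mk]
        rw [Finset.sum_eq_single idx0]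
        · unfold pr
          rw [← L.integral_comp_comm (integ hv (ψ.2 idx0).1.continuous)]
          refine integral_congr_ae ?_
          filter_upwards [TL_coe ψ] with z hz
          rw [hz, tup_apply]
          have : v z * ((ψ.1 idx0 z : ℝ) : ℂ) = (ψ.1 idx0 z) • v z := by
            rw [Complex.real_smul]; ring
          rw [this, map_smul, smul_eq_mul]
        · intro J _ hJ; exact absurd (idx0_unique J) hJ
        · intro hJ; exact absurd (Finset.mem_univ _) hJ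
      have h2 : ‖TL 0 ψ‖ = nn (ψ.1 idx0) := by
        have h3 : ‖TL 0 ψ‖ₑ ^ 2 = ∫⁻ z in Hartogs, ‖ψ.1 idx0 z‖ₑ ^ 2 := by
          rw [L2_enorm_sq, Finset.sum_eq_single idx0]
          · refine lintegral_congr_ae ?_
            filter_upwards [TL_coe ψ] with z hz
            rw [hz, tup_apply]
          · intro J _ hJ; exact absurd (idx0_unique J) hJ
          · intro hJ; exact absurd (Finset.mem_univ _) hJ
        unfold nn
        rw [← h3, ← ofReal_norm, ← ENNReal.ofReal_pow (norm_nonneg _),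
          ENNReal.toReal_ofReal (by positivity), Real.sqrt_sq (norm_nonneg _)]
      rw [h1, h2, ← Real.norm_eq_abs]
      refine (L.le_opNorm _).trans ?_
      calc ‖L‖ * ‖pr v (ψ.1 idx0)‖ ≤ 1 * (B * nn (ψ.1 idx0)) := by
            gcongr
            exact h _ (ψ.2 idx0)
        _ = _ := one_mul _
    have hwB : ‖w‖ ≤ B := by
      rcases eq_or_lt_of_le (norm_nonneg w) with h0 | h0
      · rw [← h0]; exact hB
      · by_contra hcon
        push Not at hcon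
        set η := ‖w‖ * (‖w‖ - B) / (2 * (B + ‖w‖)) with hη
        have hη0 : 0 < η := by
          have : 0 < ‖w‖ - B := by linarith
          positivity
        obtain ⟨ψ, hψ⟩ := exists_near_test w hη0
        have h1 : ‖w‖ ^ 2 = inner ℝ w (TL 0 ψ) + inner ℝ w (w - TL 0 ψ) := by
          rw [inner_sub_right, real_inner_self_eq_norm_sq]; ring
        have h2 : inner ℝ w (w - TL 0 ψ) ≤ ‖w‖ * η := (real_inner_le_norm _ _).trans (by gcongr)
        have h3 : ‖TL 0 ψ‖ ≤ ‖w‖ + η := by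
          have e : TL 0 ψ = w - (w - TL 0 ψ) := by abel
          rw [e]
          refine (norm_sub_le _ _).trans ?_
          linarith
        have h4 : inner ℝ w (TL 0 ψ) ≤ B * (‖w‖ + η) :=
          (le_abs_self _).trans ((hin ψ).trans (by gcongr))
        have h5 : η * (2 * (B + ‖w‖)) = ‖w‖ * (‖w‖ - B) := by
          rw [hη]; field_simp
        nlinarith
    rw [← hnw, ← ofReal_norm]
    gcongr
  have h1 := key Complex.reCLM (by rw [Complex.reCLM_norm])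
  have h2 := key Complex.imCLM (by rw [Complex.imCLM_norm])
  have h3 : ∀ z, ‖v z‖ₑ ^ 2 = ‖Complex.reCLM (v z)‖ₑ ^ 2 + ‖Complex.imCLM (v z)‖ₑ ^ 2 := by
    intro z
    rw [← ofReal_norm, ← ofReal_norm, ← ofReal_norm, ← ENNReal.ofReal_pow (norm_nonneg _),
      ← ENNReal.ofReal_pow (norm_nonneg _), ← ENNReal.ofReal_pow (norm_nonneg _),
      ← ENNReal.ofReal_add (by positivity) (by positivity)]
    congr 1
    rw [← Complex.normSq_eq_norm_sq, Complex.normSq_apply]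
    simp only [Complex.reCLM_apply, Complex.imCLM_apply, Real.norm_eq_abs, sq_abs]
    ring
  simp_rw [h3]
  rw [lintegral_add_left']
  · rw [two_mul]
    exact add_le_add h1 h2
  · exact (Complex.reCLM.comp_memLp' hv).1.aemeasurable.enorm.pow_const 2

end Pool.Agent.H631DN
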