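import Pool.Agent.H631DN.A2

/-! Tightness of functions in a torus mode with `∂̄` in `L²`: the estimate. -/

open scoped ContDiff Topology ENNReal NNReal ComplexConjugate
open MeasureTheory Set Filter

noncomputable section

namespace Pool.Agent.H631DN

open Pool.Agent.H631R3

lemma ode_bound {Ψ H : ℝ → ℂ} {d2 : ℝ} {γ : ℤ} {U K : ℝ} (hU : 0 ≤ U) (hK : 0 ≤ K)
    (hder : ∀ s, 0 ≤ s → HasDerivAt Ψ (-H s - ((d2 + γ : ℝ) : ℂ) * Ψ s) s)
    (hH : ∀ s, 0 ≤ s → ‖H s‖ ≤ K * Real.exp (-s) * Real.exp (-(d2 * s)))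
    (hΨ : ∀ s, 0 ≤ s → ‖Ψ s‖ ≤ U * Real.exp (-(d2 * s)))
    (hlim : ∀ ε : ℝ, 0 < ε → ∀ S0 : ℝ, ∃ S, S0 ≤ S ∧ ‖Ψ S‖ ≤ ε * Real.exp (-(d2 * S)))
    {s : ℝ} (hs : 0 ≤ s) :
    ‖Ψ s‖ ≤ Real.exp (-s) * (U + K * (1 + s)) * Real.exp (-(d2 * s)) := by
  set c : ℝ := d2 + γ with hc
  set E : ℝ → ℂ := fun t => ((Real.exp (c * t) : ℝ) : ℂ) * Ψ t with hE
  have hEn : ∀ t, ‖E t‖ = Real.exp (c * t) * ‖Ψ t‖ := fun t => by
    rw [hE]; simp only; rw [norm_mul, Complex.norm_real, Real.norm_of_nonneg (Real.exp_pos _).le]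
  have hEd : ∀ t, 0 ≤ t → HasDerivAt E (-(((Real.exp (c * t) : ℝ) : ℂ) * H t)) t := by
    intro t ht
    have h1 : HasDerivAt (fun t : ℝ => ((Real.exp (c * t) : ℝ) : ℂ)) ((Real.exp (c * t) * c : ℝ) : ℂ) t := by
      have h2 : HasDerivAt (fun t : ℝ => Real.exp (c * t)) (Real.exp (c * t) * c) t := by
        have := ((hasDerivAt_id t).const_mul c).exp
        simpa using this
      exact h2.ofReal_comp
    have h3 := h1.mul (hder t ht)
    refine h3.congr_deriv ?_
    push_cast
    ring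
  have hEb : ∀ t, 0 ≤ t → ‖-(((Real.exp (c * t) : ℝ) : ℂ) * H t)‖ ≤ K * Real.exp (((γ : ℝ) - 1) * t) := by
    intro t ht
    rw [norm_neg, norm_mul, Complex.norm_real, Real.norm_of_nonneg (Real.exp_pos _).le]
    calc Real.exp (c * t) * ‖H t‖ ≤ Real.exp (c * t) * (K * Real.exp (-t) * Real.exp (-(d2 * t))) := by
          gcongr
          exact hH t ht
      _ = K * (Real.exp (c * t) * Real.exp (-t) * Real.exp (-(d2 * t))) := by ring
      _ = K * Real.exp (((γ : ℝ) - 1) * t) := by
          rw [← Real.exp_add, ← Real.exp_add]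
          congr 2
          rw [hc]; ring
  have hback : ∀ X, ‖E s‖ ≤ X → ‖Ψ s‖ ≤ Real.exp (-((γ : ℝ) * s)) * X * Real.exp (-(d2 * s)) := by
    intro X hX
    rw [hEn] at hX
    have h1 : ‖Ψ s‖ = Real.exp (-(c * s)) * (Real.exp (c * s) * ‖Ψ s‖) := by
      rw [← mul_assoc, ← Real.exp_add, neg_add_cancel, Real.exp_zero, one_mul]
    rw [h1]
    calc Real.exp (-(c * s)) * (Real.exp (c * s) * ‖Ψ s‖) ≤ Real.exp (-(c * s)) * X := by gcongr
      _ = (Real.exp (-((γ : ℝ) * s)) * Real.exp (-(d2 * s))) * X := by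
          rw [← Real.exp_add]
          congr 2
          rw [hc]; ring
      _ = _ := by ring
  rcases le_or_gt 1 γ with hγ | hγ
  · have hγ' : (1 : ℝ) ≤ γ := by exact_mod_cast hγ
    have h1 := norm_image_sub_le_of_norm_deriv_le_segment' (f := E) (a := 0) (b := s)
      (C := K * Real.exp (((γ : ℝ) - 1) * s)) (fun x hx => (hEd x hx.1).hasDerivWithinAt)
      (fun x hx => (hEb x hx.1).trans (by
        have : ((γ : ℝ) - 1) * x ≤ ((γ : ℝ) - 1) * s :=
          mul_le_mul_of_nonneg_left hx.2.le (by linarith)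
        gcongr)) s ⟨hs, le_rfl⟩
    have h2 : ‖E 0‖ ≤ U := by
      rw [hEn]
      have := hΨ 0 le_rfl
      simpa using this
    have h3 : ‖E s‖ ≤ U + K * Real.exp (((γ : ℝ) - 1) * s) * s := by
      have e : E s = E 0 + (E s - E 0) := by ring
      rw [e]
      refine (norm_add_le _ _).trans ?_
      rw [sub_zero] at h1
      linarith
    refine (hback _ h3).trans (mul_le_mul_of_nonneg_right ?_ (Real.exp_pos _).le)
    have e1 : Real.exp (-((γ : ℝ) * s)) ≤ Real.exp (-s) := by
      apply Real.exp_le_exp.2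
      nlinarith
    have e2 : Real.exp (-((γ : ℝ) * s)) * Real.exp (((γ : ℝ) - 1) * s) = Real.exp (-s) := by
      rw [← Real.exp_add]; congr 1; ring
    calc Real.exp (-((γ : ℝ) * s)) * (U + K * Real.exp (((γ : ℝ) - 1) * s) * s)
        = Real.exp (-((γ : ℝ) * s)) * U
          + K * s * (Real.exp (-((γ : ℝ) * s)) * Real.exp (((γ : ℝ) - 1) * s)) := by ring
      _ ≤ Real.exp (-s) * U + K * s * Real.exp (-s) := by
          rw [e2]; gcongr
      _ ≤ Real.exp (-s) * U + K * s * Real.exp (-s) + K * Real.exp (-s) := by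
          have : 0 ≤ K * Real.exp (-s) := by positivity
          linarith
      _ = _ := by ring
  · have hγ' : (γ : ℝ) ≤ 0 := by
      have : γ ≤ 0 := by omega
      exact_mod_cast this
    have h1 : ∀ S, s ≤ S → ‖E S - E s‖ ≤ K * Real.exp ((γ : ℝ) * s) * Real.exp (-s) := by
      intro S hS
      have h2 := image_norm_le_of_norm_deriv_right_le_deriv_boundary (f := fun t => E t - E s)
        (a := s) (b := S) (f' := fun t => -(((Real.exp (c * t) : ℝ) : ℂ) * H t))
        (B := fun t => K * Real.exp ((γ : ℝ) * s) * (Real.exp (-s) - Real.exp (-t)))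
        (B' := fun t => K * Real.exp ((γ : ℝ) * s) * Real.exp (-t))
        (fun x hx => ((hEd x (hs.trans hx.1)).continuousAt.sub continuousAt_const).continuousWithinAt)
        (fun x hx => ((hEd x (hs.trans hx.1)).sub_const (E s)).hasDerivWithinAt)
        (by simp)
        (fun x => by
          have h3 : HasDerivAt (fun t : ℝ => Real.exp (-t)) (-Real.exp (-x)) x := by
            have := (hasDerivAt_neg x).exp
            simpa using this
          have h4 := (h3.const_sub (Real.exp (-s))).const_mul (K * Real.exp ((γ : ℝ) * s))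
          simpa using h4)
        (fun x hx => (hEb x (hs.trans hx.1)).trans (by
          have h5 : Real.exp (((γ : ℝ) - 1) * x) = Real.exp ((γ : ℝ) * x) * Real.exp (-x) := by
            rw [← Real.exp_add]; congr 1; ring
          rw [h5, ← mul_assoc]
          gcongr ?_ * _
          have : (γ : ℝ) * x ≤ (γ : ℝ) * s := mul_le_mul_of_nonpos_left hx.1 hγ'
          gcongr)) ⟨hS, le_rfl⟩
      refine h2.trans ?_
      gcongr
      linarith [Real.exp_pos (-S)]
    have h6 : ‖E s‖ ≤ K * Real.exp ((γ : ℝ) * s) * Real.exp (-s) := by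
      refine le_of_forall_pos_le_add fun ε hε => ?_
      obtain ⟨S, hS, hS'⟩ := hlim ε hε s
      have h7 : ‖E S‖ ≤ ε := by
        rw [hEn]
        calc Real.exp (c * S) * ‖Ψ S‖ ≤ Real.exp (c * S) * (ε * Real.exp (-(d2 * S))) := by gcongr
          _ = ε * Real.exp ((γ : ℝ) * S) := by
              rw [mul_left_comm, ← Real.exp_add]
              congr 2
              rw [hc]; ring
          _ ≤ ε * 1 := by
              gcongr
              apply Real.exp_le_one_iff.2
              have : 0 ≤ S := hs.trans hS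
              nlinarith
          _ = ε := mul_one _
      have e : E s = E S - (E S - E s) := by ring
      rw [e]
      refine (norm_sub_le _ _).trans ?_
      linarith [h1 S hS]
    refine (hback _ h6).trans (mul_le_mul_of_nonneg_right ?_ (Real.exp_pos _).le)
    have e2 : Real.exp (-((γ : ℝ) * s)) * (K * Real.exp ((γ : ℝ) * s) * Real.exp (-s))
        = K * Real.exp (-s) := by
      have : Real.exp (-((γ : ℝ) * s)) * Real.exp ((γ : ℝ) * s) = 1 := by
        rw [← Real.exp_add, neg_add_cancel, Real.exp_zero]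
      linear_combination (K * Real.exp (-s)) * this
    rw [e2]
    have i1 : 0 ≤ Real.exp (-s) * U := by positivity
    have i2 : 0 ≤ Real.exp (-s) * (K * s) := by positivity
    nlinarith

section der

variable {b : ℝ} {u : ℂ × ℂ → ℂ} (hu : MemLp u 2 μT) {χ : ℂ × ℂ → ℝ} (hχ : IsTest Hartogs χ)

lemma hasDerivAt_Dl (b s : ℝ) (z : ℂ × ℂ) : HasDerivAt (fun s : ℝ => Dl b (-s) z)
    ((Dl b (-s) z).1, b • (Dl b (-s) z).2) s := by
  have h1 : ∀ (r : ℝ) (w : ℂ), HasDerivAt (fun s : ℝ => ((Real.exp (r * s) : ℝ) : ℂ) * w)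
      (r • (((Real.exp (r * s) : ℝ) : ℂ) * w)) s := by
    intro r w
    have h2 : HasDerivAt (fun t : ℝ => Real.exp (r * t)) (Real.exp (r * s) * r) s := by
      have := ((hasDerivAt_id s).const_mul r).exp
      simpa using this
    refine (h2.ofReal_comp.mul_const w).congr_deriv ?_
    rw [Complex.real_smul]
    push_cast
    ring
  have h3 := (h1 1 z.1).prodMk (h1 b z.2)
  have e1 : (fun s : ℝ => Dl b (-s) z) = fun s =>
      (((Real.exp (1 * s) : ℝ) : ℂ) * z.1, ((Real.exp (b * s) : ℝ) : ℂ) * z.2) := by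
    funext s
    rw [Dl_apply]
    congr 4 <;> ring
  rw [e1]
  refine h3.congr_deriv ?_
  rw [Dl_apply, one_smul]
  congr 5 <;> ring_nf

include hχ in
lemma fderiv_psi (s : ℝ) (z : ℂ × ℂ) : fderiv ℝ (psi b χ s) z (z.1, b • z.2)
    = fderiv ℝ χ (Dl b (-s) z) ((Dl b (-s) z).1, b • (Dl b (-s) z).2) := by
  have h1 : HasFDerivAt (psi b χ s) ((fderiv ℝ χ (Dl b (-s) z)).comp (Dl b (-s))) z :=
    (hχ.1.differentiable (by simp) _).hasFDerivAt.comp z (Dl b (-s)).hasFDerivAt
  rw [h1.fderiv, ContinuousLinearMap.comp_apply]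
  congr 1
  rw [Dl_apply, Dl_apply]
  ext1
  · rfl
  · simp only [Complex.real_smul]
    ring

include hu hχ in
lemma hasDeriv_psi (s : ℝ) : HasDerivAt (fun s => pr u (psi b χ s))
    (pr u (fun z => fderiv ℝ (psi b χ s) z (z.1, b • z.2))) s := by
  set G : ℂ × ℂ → ℝ := fun y => fderiv ℝ χ y (y.1, b • y.2) with hG
  have hGc : Continuous G := (hχ.1.continuous_fderiv (by simp)).clm_apply (by fun_prop)
  have hGs : HasCompactSupport G := by
    refine hχ.2.1.mono' ?_
    intro y hy
    apply support_fderiv_subset ℝ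
    intro h
    apply hy
    simp only [hG]
    rw [h]; rfl
  obtain ⟨C, hC⟩ := hGc.bounded_above_of_compact_support hGs
  have h1 : ∀ (s : ℝ) (z : ℂ × ℂ), HasDerivAt (fun s => psi b χ s z) (G (Dl b (-s) z)) s := by
    intro s z
    exact (hχ.1.differentiable (by simp) _).hasFDerivAt.comp_hasDerivAt s (hasDerivAt_Dl b s z)
  have h2 := hasDerivAt_integral_of_dominated_loc_of_deriv_le (μ := μT) (x₀ := s) (s := univ)
    (F := fun s z => u z * ((psi b χ s z : ℝ) : ℂ)) (F' := fun s z => u z * ((G (Dl b (-s) z) : ℝ) : ℂ))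
    (bound := fun z => ‖u z‖ * C) univ_mem
    (Eventually.of_forall fun t => (integ hu (hχ.1.continuous.comp (Dl b (-t)).continuous)).1)
    (integ hu (hχ.1.continuous.comp (Dl b (-s)).continuous))
    (integ hu (hGc.comp (Dl b (-s)).continuous)).1
    (Eventually.of_forall fun z t _ => by
      rw [norm_mul, Complex.norm_real]
      gcongr
      exact hC _)
    ((hu.integrable (by norm_num)).norm.mul_const C)
    (Eventually.of_forall fun z t _ => ((h1 t z).ofReal_comp.const_mul (u z)))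
  refine h2.2.congr_deriv ?_
  unfold pr
  congr 1
  funext z
  beta_reduce
  rw [fderiv_psi hχ]

end der

end Pool.Agent.H631DN
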