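import Pool.Agent.H631DN.A3

/-! Tightness of functions in a torus mode with `∂̄` in `L²`: conclusion. -/

open scoped ContDiff Topology ENNReal NNReal ComplexConjugate
open MeasureTheory Set Filter

noncomputable section

namespace Pool.Agent.H631DN

open Pool.Agent.H631R3

lemma pr_bound' {g f : ℂ × ℂ → ℂ} {φ : ℂ × ℂ → ℝ} {c : ℝ} (hc : 0 ≤ c) (hf : MemLp f 2 μT)
    (hφ : MemLp φ 2 μT) (h : ∀ z ∈ Hartogs, φ z ≠ 0 → ‖g z‖ ≤ c * ‖f z‖) :
    ‖pr g φ‖ ≤ c * (nn f * nn φ) := by
  apply le_of_enorm_sq_le (mul_nonneg hc (mul_nonneg (nn_nonneg _) (nn_nonneg _)))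
  rw [ENNReal.ofReal_mul hc, ENNReal.ofReal_mul (nn_nonneg _), mul_pow, mul_pow, nn_sq hf, nn_sq hφ]
  calc ‖pr g φ‖ₑ ^ 2 ≤ (∫⁻ x in Hartogs, ENNReal.ofReal c * (‖f x‖ₑ * ‖φ x‖ₑ)) ^ 2 := by
        gcongr
        refine (enorm_integral_le_lintegral_enorm _).trans ?_
        refine setLIntegral_mono' measurableSet_Hartogs fun x hx => ?_
        rw [enorm_mul]
        rcases eq_or_ne (φ x) 0 with h0 | h0
        · rw [h0]; simp
        · have h1 := h x hx h0
          have h2 : ‖g x‖ₑ ≤ ENNReal.ofReal c * ‖f x‖ₑ := by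
            rw [← ofReal_norm, ← ofReal_norm, ← ENNReal.ofReal_mul hc]
            exact ENNReal.ofReal_le_ofReal h1
          have h3 : ‖((φ x : ℝ) : ℂ)‖ₑ = ‖φ x‖ₑ := by
            rw [← ofReal_norm, ← ofReal_norm, Complex.norm_real]
          rw [h3, ← mul_assoc]
          gcongr
    _ = (ENNReal.ofReal c * ∫⁻ x in Hartogs, ‖f x‖ₑ * ‖φ x‖ₑ) ^ 2 := by
        rw [lintegral_const_mul' _ _ ENNReal.ofReal_ne_top]
    _ ≤ _ := by
        rw [mul_pow]
        gcongr
        exact cs_lintegral _ hf.1.aemeasurable.enorm hφ.1.aemeasurable.enorm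

lemma vol_axis : (volume : Measure (ℂ × ℂ)) {z | z.1 = 0} = 0 := by
  have h1 : {z : ℂ × ℂ | z.1 = 0} = ({0} : Set ℂ) ×ˢ (univ : Set ℂ) := by
    ext z; simp
  rw [h1, Measure.volume_eq_prod, Measure.prod_prod, measure_singleton, zero_mul]

/-- part of a function near the first axis -/
def nearAx (S : ℝ) (u : ℂ × ℂ → ℂ) : ℂ × ℂ → ℂ := {z : ℂ × ℂ | ‖z.1‖ ≤ Real.exp (-S)}.indicator u

lemma meas_near (S : ℝ) : MeasurableSet {z : ℂ × ℂ | ‖z.1‖ ≤ Real.exp (-S)} :=
  (isClosed_le (by fun_prop) continuous_const).measurableSet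

lemma near_memLp {u : ℂ × ℂ → ℂ} (hu : MemLp u 2 μT) (S : ℝ) : MemLp (nearAx S u) 2 μT :=
  hu.indicator (meas_near S)

lemma near_lim {u : ℂ × ℂ → ℂ} (hu : MemLp u 2 μT) {ε : ℝ} (hε : 0 < ε) (S0 : ℝ) :
    ∃ S, S0 ≤ S ∧ nn (nearAx S u) ≤ ε := by
  have h1 : Tendsto (fun N : ℕ => ∫⁻ z, ‖nearAx N u z‖ₑ ^ 2 ∂μT) atTop (𝓝 (∫⁻ _z, 0 ∂μT)) := by
    refine tendsto_lintegral_of_dominated_convergence' (fun z => ‖u z‖ₑ ^ 2) ?_ ?_ ?_ ?_
    · intro N
      exact (near_memLp hu N).1.aemeasurable.enorm.pow_const 2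
    · intro N
      refine Eventually.of_forall fun z => ?_
      have : ‖nearAx N u z‖ₑ ≤ ‖u z‖ₑ := by
        unfold nearAx
        exact enorm_indicator_le_enorm_self _ _
      change ‖nearAx N u z‖ₑ ^ 2 ≤ ‖u z‖ₑ ^ 2
      gcongr
    · exact lint_ne_top hu
    · have h2 : ∀ᵐ z ∂μT, z.1 ≠ 0 := by
        apply ae_restrict_of_ae
        rw [ae_iff]
        simpa using vol_axis
      filter_upwards [h2] with z hz
      have hz' : 0 < ‖z.1‖ := norm_pos_iff.2 hz
      have h3 : Tendsto (fun N : ℕ => Real.exp (-(N : ℝ))) atTop (𝓝 0) :=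
        Real.tendsto_exp_neg_atTop_nhds_zero.comp tendsto_natCast_atTop_atTop
      refine tendsto_const_nhds.congr' ?_
      filter_upwards [h3.eventually (gt_mem_nhds hz')] with N hN
      unfold nearAx
      rw [indicator_of_notMem]
      · simp
      · intro h
        exact absurd h (not_le.2 hN)
  rw [lintegral_zero] at h1
  have hε2 : (0 : ℝ≥0∞) < ENNReal.ofReal ε ^ 2 := by positivity
  obtain ⟨N0, hN0⟩ := exists_nat_ge S0
  obtain ⟨N, hN, hN'⟩ := ((h1.eventually (gt_mem_nhds hε2)).and (eventually_ge_atTop N0)).exists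
  refine ⟨N, hN0.trans (by exact_mod_cast hN'), nn_le hε.le hN.le⟩

section tight

variable {b : ℝ} (hb : b = 0 ∨ b = 1) {γ : ℤ} {u f1 f2 : ℂ × ℂ → ℂ} (hu : MemLp u 2 μT)
  (hf1 : MemLp f1 2 μT) (hf2 : MemLp f2 2 μT)
  (hR : ∀ φ, IsTest Hartogs φ → pr u (fun z => fderiv ℝ φ z (z.1, b • z.2))
    = -(2 * pr (fun z => conj z.1 * f1 z) φ + 2 * b * pr (fun z => conj z.2 * f2 z) φ)
      - (((1 + b) + γ : ℝ) : ℂ) * pr u φ)

include hb hu hf1 hf2 hR

lemma tight_dual {χ : ℂ × ℂ → ℝ} (hχ : IsTest Hartogs χ) {s : ℝ} (hs : 0 ≤ s) :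
    ‖pr u (psi b χ s)‖ ≤ Real.exp (-s) * (nn u + 2 * (nn f1 + nn f2) * (1 + s)) * nn χ
      * Real.exp (-((1 + b) * s)) := by
  have hb0 : 0 ≤ b := by rcases hb with h | h <;> rw [h]; norm_num
  have hF : 0 ≤ nn f1 + nn f2 := add_nonneg (nn_nonneg _) (nn_nonneg _)
  have h := ode_bound (Ψ := fun s => pr u (psi b χ s))
    (H := fun s => 2 * pr (fun z => conj z.1 * f1 z) (psi b χ s)
      + 2 * b * pr (fun z => conj z.2 * f2 z) (psi b χ s)) (d2 := 1 + b) (γ := γ)
    (U := nn u * nn χ) (K := 2 * (nn f1 + nn f2) * nn χ)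
    (mul_nonneg (nn_nonneg _) (nn_nonneg _)) (mul_nonneg (by linarith) (nn_nonneg _))
    (fun s hs => by
      refine (hasDeriv_psi hu hχ s).congr_deriv ?_
      rw [hR _ (psi_test hb hs hχ)])
    (fun s hs => by
      have hψ := test_memLp (psi_test hb hs hχ)
      have h1 : ‖pr (fun z => conj z.1 * f1 z) (psi b χ s)‖ ≤ Real.exp (-s) * (nn f1 * nn (psi b χ s)) := by
        refine pr_bound' (Real.exp_pos _).le hf1 hψ fun z _ hz => ?_
        obtain ⟨y, hy, rfl⟩ := psi_ne hχ hz
        rw [norm_mul, RCLike.norm_conj, Dl_apply]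
        gcongr
        simp only [norm_mul, Complex.norm_real, Real.norm_of_nonneg (Real.exp_pos _).le]
        have h2 : ‖y.1‖ ≤ 1 := (hy.1.trans hy.2).le
        have := Real.exp_pos (-s)
        nlinarith
      have h2 : ‖(b : ℂ) * pr (fun z => conj z.2 * f2 z) (psi b χ s)‖
          ≤ Real.exp (-s) * (nn f2 * nn (psi b χ s)) := by
        rcases hb with hb' | hb'
        · rw [hb']
          simp only [Complex.ofReal_zero, zero_mul, norm_zero]
          exact mul_nonneg (Real.exp_pos _).le (mul_nonneg (nn_nonneg _) (nn_nonneg _))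
        · rw [hb']
          simp only [Complex.ofReal_one, one_mul]
          rw [hb'] at hψ
          refine pr_bound' (Real.exp_pos _).le hf2 hψ fun z _ hz => ?_
          obtain ⟨y, hy, rfl⟩ := psi_ne hχ hz
          rw [norm_mul, RCLike.norm_conj, Dl_apply]
          gcongr
          simp only [norm_mul, Complex.norm_real, Real.norm_of_nonneg (Real.exp_pos _).le, one_mul]
          have h2 : ‖y.2‖ ≤ 1 := hy.2.le
          have := Real.exp_pos (-s)
          nlinarith
      have h3 : 2 * pr (fun z => conj z.1 * f1 z) (psi b χ s)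
          + 2 * b * pr (fun z => conj z.2 * f2 z) (psi b χ s)
          = 2 * (pr (fun z => conj z.1 * f1 z) (psi b χ s)
            + b * pr (fun z => conj z.2 * f2 z) (psi b χ s)) := by ring
      beta_reduce
      rw [nn_psi hb hs hχ] at h1 h2
      rw [h3, norm_mul]
      have h4 : ‖(2 : ℂ)‖ = 2 := by norm_num
      rw [h4]
      refine (mul_le_mul_of_nonneg_left ((norm_add_le _ _).trans (add_le_add h1 h2))
        (by norm_num)).trans (le_of_eq ?_)
      ring)
    (fun s hs => by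
      refine (pr_bound hu (test_memLp (psi_test hb hs hχ))).trans (le_of_eq ?_)
      rw [nn_psi hb hs hχ]
      ring)
    (fun ε hε S0 => by
      obtain ⟨S, hS, hS'⟩ := near_lim hu (ε := ε / (nn χ + 1)) (by
        have := nn_nonneg χ
        positivity) (max S0 0)
      have hS0 : 0 ≤ S := (le_max_right _ _).trans hS
      refine ⟨S, (le_max_left _ _).trans hS, ?_⟩
      have h1 : ‖pr u (psi b χ S)‖ ≤ 1 * (nn (nearAx S u) * nn (psi b χ S)) := by
        refine pr_bound' zero_le_one (near_memLp hu S) (test_memLp (psi_test hb hS0 hχ))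
          fun z _ hz => ?_
        obtain ⟨y, hy, rfl⟩ := psi_ne hχ hz
        rw [one_mul]
        unfold nearAx
        rw [indicator_of_mem]
        change ‖(Dl b S y).1‖ ≤ _
        rw [Dl_apply]
        simp only [norm_mul, Complex.norm_real, Real.norm_of_nonneg (Real.exp_pos _).le]
        have h2 : ‖y.1‖ ≤ 1 := (hy.1.trans hy.2).le
        have := Real.exp_pos (-S)
        nlinarith
      refine h1.trans ?_
      rw [one_mul, nn_psi hb hS0 hχ]
      have h2 : nn (nearAx S u) * nn χ ≤ ε := by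
        have h3 := nn_nonneg χ
        rw [le_div_iff₀ (by positivity)] at hS'
        have h4 := nn_nonneg (nearAx S u)
        nlinarith
      calc nn (nearAx S u) * (Real.exp (-((1 + b) * S)) * nn χ)
          = (nn (nearAx S u) * nn χ) * Real.exp (-((1 + b) * S)) := by ring
        _ ≤ _ := by gcongr) hs
  refine h.trans (le_of_eq ?_)
  ring

lemma tight {s : ℝ} (hs : 0 ≤ s) :
    ∫⁻ z in Hartogs ∩ Dl b (-s) ⁻¹' Hartogs, ‖u z‖ₑ ^ 2
      ≤ 2 * ENNReal.ofReal (Real.exp (-s) * (nn u + 2 * (nn f1 + nn f2) * (1 + s))) ^ 2 := by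
  set β : ℝ := Real.exp (-s) * (nn u + 2 * (nn f1 + nn f2) * (1 + s)) with hβ
  have hβ0 : 0 ≤ β := by
    have h1 := nn_nonneg u
    have h2 := nn_nonneg f1
    have h3 := nn_nonneg f2
    positivity
  set w : ℂ × ℂ → ℂ := Hartogs.indicator u with hw
  have hwm : AEStronglyMeasurable w volume :=
    (aestronglyMeasurable_indicator_iff measurableSet_Hartogs).2 hu.1
  have hw2 : MemLp w 2 volume := (memLp_indicator_iff_restrict measurableSet_Hartogs).2 hu
  have hqmp : Measure.QuasiMeasurePreserving (Dl b s) volume volume := by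
    refine ⟨(Dl b s).continuous.measurable, ?_⟩
    rw [map_Dl]
    exact Measure.smul_absolutelyContinuous
  set v : ℂ × ℂ → ℂ := fun z => w (Dl b s z) with hv
  have hvm : AEStronglyMeasurable v volume := hwm.comp_quasiMeasurePreserving hqmp
  have hlint : ∀ G : ℂ × ℂ → ℝ≥0∞, AEMeasurable G volume →
      ∫⁻ z, G (Dl b s z) = ENNReal.ofReal (Real.exp ((2 + 2 * b) * s)) * ∫⁻ z, G z := by
    intro G hG
    have h1 : AEMeasurable G (Measure.map (Dl b s) volume) := by
      rw [map_Dl]; exact hG.smul_measure _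
    rw [← lintegral_map' h1 (Dl b s).continuous.measurable.aemeasurable, map_Dl,
      lintegral_smul_measure, smul_eq_mul]
  have hv2 : MemLp v 2 μT := by
    refine ⟨hvm.restrict, ?_⟩
    rw [eLpNorm_lt_top_iff_lintegral_rpow_enorm_lt_top (by norm_num) (by norm_num)]
    simp only [ENNReal.toReal_ofNat, ENNReal.rpow_ofNat]
    refine (setLIntegral_le_lintegral _ _).trans_lt ?_
    rw [hlint (fun z => ‖w z‖ₑ ^ 2) (hwm.aemeasurable.enorm.pow_const 2)]
    refine ENNReal.mul_lt_top ENNReal.ofReal_lt_top ?_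
    have := hw2.2
    rw [eLpNorm_lt_top_iff_lintegral_rpow_enorm_lt_top (by norm_num) (by norm_num)] at this
    simpa using this
  have hpr : ∀ χ, IsTest Hartogs χ →
      pr v χ = (Real.exp ((2 + 2 * b) * s) : ℂ) * pr u (psi b χ s) := by
    intro χ hχ
    have h1 : pr v χ = ∫ z, w (Dl b s z) * ((χ z : ℝ) : ℂ) := by
      unfold pr
      rw [setIntegral_eq_integral_of_forall_compl_eq_zero]
      intro x hx
      have : χ x = 0 := by
        by_contra h
        exact hx (hχ.2.2 (subset_tsupport _ h))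
      rw [this]; simp
    have h2 : pr u (psi b χ s) = ∫ z, w z * ((psi b χ s z : ℝ) : ℂ) := by
      unfold pr
      rw [← integral_indicator measurableSet_Hartogs]
      congr 1
      funext z
      by_cases hz : z ∈ Hartogs
      · rw [indicator_of_mem hz, hw, indicator_of_mem hz]
      · rw [indicator_of_notMem hz, hw, indicator_of_notMem hz, zero_mul]
    have h3 : ∀ z, w (Dl b s z) * ((χ z : ℝ) : ℂ)
        = (fun y => w y * ((psi b χ s y : ℝ) : ℂ)) (Dl b s z) := by
      intro z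
      simp only [psi]
      rw [Dl_Dl, neg_add_cancel, Dl_zero]
    rw [h1, h2]
    simp_rw [h3]
    exact integral_Dl b s (hwm.mul
      (Complex.continuous_ofReal.comp (hχ.1.continuous.comp (Dl b (-s)).continuous)).aestronglyMeasurable)
  have hdual := dual_norm hv2 (B := Real.exp ((1 + b) * s) * β) (by positivity) (fun χ hχ => by
    rw [hpr χ hχ, norm_mul, Complex.norm_real, Real.norm_of_nonneg (Real.exp_pos _).le]
    have h1 := tight_dual hb hu hf1 hf2 hR hχ hs
    calc Real.exp ((2 + 2 * b) * s) * ‖pr u (psi b χ s)‖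
        ≤ Real.exp ((2 + 2 * b) * s) * (β * nn χ * Real.exp (-((1 + b) * s))) := by gcongr
      _ = (Real.exp ((2 + 2 * b) * s) * Real.exp (-((1 + b) * s))) * (β * nn χ) := by ring
      _ = Real.exp ((1 + b) * s) * (β * nn χ) := by
          rw [← Real.exp_add]
          congr 2
          ring
      _ = _ := by ring)
  have hleft : ∫⁻ z in Hartogs, ‖v z‖ₑ ^ 2 = ENNReal.ofReal (Real.exp ((2 + 2 * b) * s)) *
      ∫⁻ z in Hartogs ∩ Dl b (-s) ⁻¹' Hartogs, ‖u z‖ₑ ^ 2 := by
    have hms : MeasurableSet (Hartogs ∩ Dl b (-s) ⁻¹' Hartogs) :=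
      measurableSet_Hartogs.inter ((Dl b (-s)).continuous.measurable measurableSet_Hartogs)
    rw [← lintegral_indicator measurableSet_Hartogs, ← lintegral_indicator hms, ← hlint]
    · congr 1
      funext z
      by_cases hz : z ∈ Hartogs
      · rw [indicator_of_mem hz]
        have h1 : Dl b s z ∈ Hartogs ∩ Dl b (-s) ⁻¹' Hartogs := by
          refine ⟨Dl_mem hb hs hz, ?_⟩
          change Dl b (-s) (Dl b s z) ∈ Hartogs
          rwa [Dl_Dl, neg_add_cancel, Dl_zero]
        rw [indicator_of_mem h1, hv, hw]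
        simp only
        rw [indicator_of_mem h1.1]
      · rw [indicator_of_notMem hz, indicator_of_notMem]
        intro h1
        apply hz
        have h2 : Dl b (-s) (Dl b s z) ∈ Hartogs := h1.2
        rwa [Dl_Dl, neg_add_cancel, Dl_zero] at h2
    · have h3 : (Hartogs ∩ Dl b (-s) ⁻¹' Hartogs).indicator (fun z => ‖u z‖ₑ ^ 2)
          = (Hartogs ∩ Dl b (-s) ⁻¹' Hartogs).indicator (fun z => ‖w z‖ₑ ^ 2) := by
        apply indicator_congr
        intro z hz
        beta_reduce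
        rw [hw, indicator_of_mem hz.1]
      rw [h3]
      exact (hwm.aemeasurable.enorm.pow_const 2).indicator hms
  rw [hleft] at hdual
  have e0 : ENNReal.ofReal (Real.exp ((2 + 2 * b) * s)) ≠ 0 := by
    simp [Real.exp_pos]
  have e1 : ENNReal.ofReal (Real.exp ((1 + b) * s) * β) ^ 2
      = ENNReal.ofReal (Real.exp ((2 + 2 * b) * s)) * ENNReal.ofReal β ^ 2 := by
    rw [ENNReal.ofReal_mul (Real.exp_pos _).le, mul_pow, ← ENNReal.ofReal_pow (Real.exp_pos _).le,
      ← Real.exp_nat_mul]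
    congr 3
    push_cast
    ring
  rw [e1] at hdual
  have e2 : 2 * (ENNReal.ofReal (Real.exp ((2 + 2 * b) * s)) * ENNReal.ofReal β ^ 2)
      = ENNReal.ofReal (Real.exp ((2 + 2 * b) * s)) * (2 * ENNReal.ofReal β ^ 2) := by ring
  rw [e2] at hdual
  exact (ENNReal.mul_le_mul_iff_right e0 ENNReal.ofReal_ne_top).1 hdual

end tight

end Pool.Agent.H631DN
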