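import Pool.Agent.H631DN.A4

/-! Rellich's lemma in weak form on the Hartogs triangle. -/

open scoped ContDiff Topology ENNReal NNReal ComplexConjugate
open MeasureTheory Set Filter

noncomputable section

namespace Pool.Agent.H631DN

open Pool.Agent.H631R3

/-- compact operators map bounded weakly null sequences to null sequences -/
lemma tendsto_of_compact {H H' : Type*} [NormedAddCommGroup H] [InnerProductSpace ℝ H]
    [CompleteSpace H] [NormedAddCommGroup H'] [InnerProductSpace ℝ H'] [CompleteSpace H']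
    {T : H' →L[ℝ] H} (hT : IsCompactOperator T) {x : ℕ → H'} {B : ℝ} (hB : ∀ k, ‖x k‖ ≤ B)
    (hx : ∀ p, Tendsto (fun k => inner ℝ p (x k)) atTop (𝓝 0)) :
    Tendsto (fun k => T (x k)) atTop (𝓝 0) := by
  refine tendsto_of_subseq_tendsto fun ns hns => ?_
  obtain ⟨K, hK, hK'⟩ := hT.image_closedBall_subset_compact B
  have hxK : ∀ k, T (x (ns k)) ∈ K := fun k => hK' ⟨x (ns k), by simpa using hB (ns k), rfl⟩
  obtain ⟨a, _, φ, hφ, hlim⟩ := hK.tendsto_subseq hxK
  have ha : a = 0 := by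
    have h1 : inner ℝ a a = 0 := by
      have h2 : Tendsto (fun k => inner ℝ a (T (x (ns (φ k))))) atTop (𝓝 (inner ℝ a a)) :=
        ((continuous_const.inner continuous_id).tendsto a).comp hlim
      have h3 : Tendsto (fun k => inner ℝ a (T (x (ns (φ k))))) atTop (𝓝 0) := by
        have h4 := ((hx (T.adjoint a)).comp hns).comp hφ.tendsto_atTop
        refine h4.congr fun k => ?_
        simp only [Function.comp]
        rw [ContinuousLinearMap.adjoint_inner_left]
      exact tendsto_nhds_unique h2 h3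
    exact inner_self_eq_zero.1 h1
  rw [ha] at hlim
  exact ⟨φ, hlim⟩

/-- weak form of Rellich's lemma -/
lemma rellich {f : ℕ → L2 0} {g : ℕ → L2 1} (h : ∀ k, WeakD (f k) (g k)) {B : ℝ}
    (hg : ∀ k, ‖g k‖ ≤ B) (hf : ∀ p, Tendsto (fun k => inner ℝ p (f k)) atTop (𝓝 0)) :
    Tendsto (fun k => ‖f k‖) atTop (𝓝 0) := by
  have hB0 : 0 ≤ B := (norm_nonneg _).trans (hg 0)
  obtain ⟨S, hS⟩ := exists_sol (isClosed_GW 0) (goodComplex_weak.range_closed 0)
  have hSc := compact_GW 0 hS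
  have hgw : ∀ p, Tendsto (fun k => inner ℝ p (g k)) atTop (𝓝 0) := by
    intro p
    rw [Metric.tendsto_atTop]
    intro ε hε
    obtain ⟨ψ, hψ⟩ := exists_near_test p (show 0 < ε / (2 * (B + 1)) by positivity)
    have h1 := hf (TL 0 (codM 0 ψ))
    rw [Metric.tendsto_atTop] at h1
    obtain ⟨N, hN⟩ := h1 (ε / 2) (by positivity)
    refine ⟨N, fun k hk => ?_⟩
    have h2 := hN k hk
    rw [Real.dist_eq, sub_zero] at h2 ⊢
    have h3 : inner ℝ (TL 1 ψ) (g k) = inner ℝ (TL 0 (codM 0 ψ)) (f k) := by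
      rw [real_inner_comm, real_inner_comm (f k)]
      exact (weakD_iff _ _).1 (h k) ψ
    have h4 : inner ℝ p (g k) = inner ℝ (p - TL 1 ψ) (g k) + inner ℝ (TL 0 (codM 0 ψ)) (f k) := by
      rw [← h3, inner_sub_left]; ring
    rw [h4]
    have h5 : |inner ℝ (p - TL 1 ψ) (g k)| ≤ ε / 2 := by
      refine (abs_real_inner_le_norm _ _).trans ?_
      calc ‖p - TL 1 ψ‖ * ‖g k‖ ≤ (ε / (2 * (B + 1))) * (B + 1) := by
            gcongr
            linarith [hg k]
        _ = ε / 2 := by field_simp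
    exact (abs_add_le _ _).trans_lt (by linarith)
  have hSg := tendsto_of_compact hSc hg hgw
  have hker : ∀ k, ∃ c : ℝ, f k - S (g k) = c • oneL := by
    intro k
    have h1 : (S (g k), g k) ∈ GW 0 := hS.mem (f k) (g k) (h k)
    have h2 : (f k - S (g k), (0 : L2 1)) ∈ GW 0 := by
      have := (GW 0).sub_mem (show (f k, g k) ∈ GW 0 from h k) h1
      rwa [Prod.mk_sub_mk, sub_self] at this
    obtain ⟨c, hc⟩ := ker_zero h2
    exact ⟨c, eq_smul_one hc⟩
  choose c hc using hker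
  have h6 : Tendsto (fun k => inner ℝ oneL (f k) - inner ℝ oneL (S (g k))) atTop (𝓝 0) := by
    have h7 : Tendsto (fun k => inner ℝ oneL (S (g k))) atTop (𝓝 (inner ℝ oneL (0 : L2 0))) :=
      ((continuous_const.inner continuous_id).tendsto (0 : L2 0)).comp hSg
    rw [inner_zero_right] at h7
    simpa using (hf oneL).sub h7
  have h8 : ∀ k, inner ℝ oneL (f k) - inner ℝ oneL (S (g k)) = c k * ‖oneL‖ ^ 2 := by
    intro k
    rw [← inner_sub_right, hc, real_inner_smul_right, real_inner_self_eq_norm_sq]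
  simp_rw [h8] at h6
  have h9 : Tendsto (fun k => ‖f k - S (g k)‖) atTop (𝓝 0) := by
    rcases eq_or_ne ‖oneL‖ 0 with h0 | h0
    · have : ∀ k, ‖f k - S (g k)‖ = 0 := fun k => by
        rw [hc, norm_smul, h0, mul_zero]
      simp_rw [this]
      exact tendsto_const_nhds
    · have h10 : Tendsto (fun k => |c k * ‖oneL‖ ^ 2| * ‖oneL‖⁻¹) atTop (𝓝 (|0| * ‖oneL‖⁻¹)) :=
        h6.abs.mul_const _
      rw [abs_zero, zero_mul] at h10
      refine h10.congr fun k => ?_
      rw [hc, norm_smul, abs_mul, Real.norm_eq_abs, abs_of_nonneg (by positivity : 0 ≤ ‖oneL‖ ^ 2)]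
      field_simp
  have h11 := h9.add hSg.norm
  rw [norm_zero, add_zero] at h11
  refine squeeze_zero (fun _ => norm_nonneg _) (fun k => ?_) h11
  calc ‖f k‖ = ‖(f k - S (g k)) + S (g k)‖ := by rw [sub_add_cancel]
    _ ≤ _ := norm_add_le _ _

/-- from complex weak gradients to real ones -/
lemma weakD_of {U : ℂ × ℂ → ℂ} {G : Fin 4 → ℂ × ℂ → ℂ} (hU : MemLp U 2 μT)
    (hG : ∀ k, MemLp (G k) 2 μT)
    (h : ∀ k φ, IsTest Hartogs φ → pr U (fun z => fderiv ℝ φ z (frame k)) = - pr (G k) φ)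
    (L : ℂ →L[ℝ] ℝ) :
    WeakD (mk (fun (_ : Idx 0) z => L (U z)) fun _ => L.comp_memLp' hU)
      (mk (fun (J : Idx 1) z => L (G (J 0) z)) fun J => L.comp_memLp' (hG (J 0))) := by
  intro J φ hφ
  have hpr : ∀ {V : ℂ × ℂ → ℂ} (hV : MemLp V 2 μT) {c : ℂ × ℂ → ℝ} (_ : Continuous c),
      ∫ z in Hartogs, L (V z) * c z = L (pr V c) := by
    intro V hV c hc
    unfold pr
    rw [← L.integral_comp_comm (integ hV hc)]
    congr 1
    funext z
    have : V z * ((c z : ℝ) : ℂ) = c z • V z := by rw [Complex.real_smul]; ring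
    rw [this, map_smul, smul_eq_mul, mul_comm]
  have h1 : ∫ z in Hartogs, (mk (fun (J : Idx 1) z => L (G (J 0) z))
      fun J => L.comp_memLp' (hG (J 0))) z J * φ z = L (pr (G (J 0)) φ) := by
    rw [← hpr (hG (J 0)) hφ.1.continuous]
    refine integral_congr_ae ?_
    filter_upwards [mk_coe (u := fun (J : Idx 1) z => L (G (J 0) z))
      (fun J => L.comp_memLp' (hG (J 0)))] with z hz
    rw [hz, tup_apply]
  have h2 : ∫ z in Hartogs, (mk (fun (_ : Idx 0) z => L (U z))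
      fun _ => L.comp_memLp' hU) z (face J 0) * fderiv ℝ φ z (frame (J 0))
      = L (pr U (fun z => fderiv ℝ φ z (frame (J 0)))) := by
    rw [← hpr hU (hφ.fderiv_apply _).1.continuous]
    refine integral_congr_ae ?_
    filter_upwards [mk_coe (u := fun (_ : Idx 0) z => L (U z))
      (fun _ => L.comp_memLp' hU)] with z hz
    rw [hz, tup_apply]
  rw [h1, Fin.sum_univ_one, Fin.val_zero, pow_zero, one_mul]
  erw [h2]
  rw [h _ φ hφ, map_neg, neg_neg]

lemma nn_mul_le {g f : ℂ × ℂ → ℂ} {c : ℝ} (hc : 0 ≤ c) (hf : MemLp f 2 μT)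
    (h : ∀ z ∈ Hartogs, ‖g z‖ ≤ c * ‖f z‖) : nn g ≤ c * nn f := by
  refine nn_le (mul_nonneg hc (nn_nonneg _)) ?_
  rw [ENNReal.ofReal_mul hc, mul_pow, nn_sq hf, ← lintegral_const_mul' _ _
    (ENNReal.pow_ne_top ENNReal.ofReal_ne_top)]
  refine setLIntegral_mono' measurableSet_Hartogs fun z hz => ?_
  rw [← mul_pow]
  gcongr
  rw [← ofReal_norm, ← ofReal_norm, ← ENNReal.ofReal_mul hc]
  exact ENNReal.ofReal_le_ofReal (h z hz)

lemma nn_eq {g : ℂ × ℂ → ℂ} : nn g = (eLpNorm g 2 μT).toReal := by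
  unfold nn
  rw [eLpNorm_eq_lintegral_rpow_enorm_toReal (by norm_num) (by norm_num)]
  simp only [ENNReal.toReal_ofNat, ENNReal.rpow_ofNat]
  rw [← ENNReal.toReal_rpow, Real.sqrt_eq_rpow]

lemma nn_add_le {g f : ℂ × ℂ → ℂ} (hg : MemLp g 2 μT) (hf : MemLp f 2 μT) :
    nn (fun z => g z + f z) ≤ nn g + nn f := by
  rw [nn_eq, nn_eq, nn_eq, ← ENNReal.toReal_add hg.2.ne hf.2.ne]
  refine ENNReal.toReal_mono (ENNReal.add_ne_top.2 ⟨hg.2.ne, hf.2.ne⟩) ?_
  exact eLpNorm_add_le hg.1 hf.1 (by norm_num)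

lemma memLp_mul_bdd {c g : ℂ × ℂ → ℂ} (hc : Continuous c) (hg : MemLp g 2 μT) :
    MemLp (fun z => c z * g z) 2 μT := by
  obtain ⟨C, _, hC⟩ := exists_bound_T (a := fun z => ‖c z‖) hc.norm
  refine MemLp.of_le_mul (c := C) hg ((hc.aestronglyMeasurable).mul hg.1) ?_
  filter_upwards [ae_restrict_mem measurableSet_Hartogs] with z hz
  rw [norm_mul]
  gcongr
  have := hC z hz
  rwa [abs_of_nonneg (norm_nonneg _)] at this

end Pool.Agent.H631DN
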