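import Pool.Agent.H631DN.A5

/-! Compactness in a torus mode. -/

open scoped ContDiff Topology ENNReal NNReal ComplexConjugate
open MeasureTheory Set Filter

noncomputable section

namespace Pool.Agent.H631DN

open Pool.Agent.H631R3

/-- embeddings of the coordinate axes -/
abbrev e1 : ℂ →L[ℝ] ℂ × ℂ := ContinuousLinearMap.inl ℝ ℂ ℂ
/-- embeddings of the coordinate axes -/
abbrev e2 : ℂ →L[ℝ] ℂ × ℂ := ContinuousLinearMap.inr ℝ ℂ ℂ
/-- coordinates -/
abbrev p1 : (ℂ × ℂ) →L[ℝ] ℂ := ContinuousLinearMap.fst ℝ ℂ ℂ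
/-- coordinates -/
abbrev p2 : (ℂ × ℂ) →L[ℝ] ℂ := ContinuousLinearMap.snd ℝ ℂ ℂ

/-- the weight -/
def lam (z : ℂ × ℂ) : ℝ := ‖z.1‖ ^ 2 * ‖z.2‖ ^ 2

lemma continuous_lam : Continuous lam := by unfold lam; fun_prop

/-- weighted function -/
def lu (u : ℂ × ℂ → ℂ) (z : ℂ × ℂ) : ℂ := ((lam z : ℝ) : ℂ) * u z

lemma lu_memLp {u : ℂ × ℂ → ℂ} (hu : MemLp u 2 μT) : MemLp (lu u) 2 μT :=
  memLp_mul_bdd (Complex.continuous_ofReal.comp continuous_lam) hu

/-- components of the gradient of the weighted function -/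
def Gp (p o : (ℂ × ℂ) →L[ℝ] ℂ) (a : ℂ) (m : ℤ) (u f : ℂ × ℂ → ℂ) (z : ℂ × ℂ) : ℂ :=
  ((‖o z‖ ^ 2 * (a * conj (p z)).re : ℝ) : ℂ) * (2 * (conj (p z) * f z))
          + ((2 + m) * ((‖o z‖ ^ 2 * (a * conj (p z)).re : ℝ) : ℂ)
          + Complex.I * m * ((‖o z‖ ^ 2 * (a * conj (p z)).im : ℝ) : ℂ)) * u z

lemma Gp_memLp (p o : (ℂ × ℂ) →L[ℝ] ℂ) (a : ℂ) (m : ℤ) {u f : ℂ × ℂ → ℂ} (hu : MemLp u 2 μT)
    (hf : MemLp f 2 μT) : MemLp (Gp p o a m u f) 2 μT := by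
  have hcp : Continuous fun z => conj (p z) := Complex.continuous_conj.comp p.continuous
  have hcP : Continuous fun z => ((‖o z‖ ^ 2 * (a * conj (p z)).re : ℝ) : ℂ) :=
    Complex.continuous_ofReal.comp ((o.continuous.norm.pow 2).mul
      (Complex.continuous_re.comp (continuous_const.mul hcp)))
  have hcQ : Continuous fun z => ((‖o z‖ ^ 2 * (a * conj (p z)).im : ℝ) : ℂ) :=
    Complex.continuous_ofReal.comp ((o.continuous.norm.pow 2).mul
      (Complex.continuous_im.comp (continuous_const.mul hcp)))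
  have h1 : MemLp (fun z => (((‖o z‖ ^ 2 * (a * conj (p z)).re : ℝ) : ℂ) * 2 * conj (p z)) * f z) 2 μT :=
    memLp_mul_bdd ((hcP.mul continuous_const).mul hcp) hf
  have h2 : MemLp (fun z => ((2 + m) * ((‖o z‖ ^ 2 * (a * conj (p z)).re : ℝ) : ℂ)
          + Complex.I * m * ((‖o z‖ ^ 2 * (a * conj (p z)).im : ℝ) : ℂ)) * u z) 2 μT :=
    memLp_mul_bdd ((continuous_const.mul hcP).add (continuous_const.mul hcQ)) hu
  refine (h1.add h2).congr_norm (h1.add h2).1 ?_ |>.ae_eq ?_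
  · exact Eventually.of_forall fun z => rfl
  · refine Eventually.of_forall fun z => ?_
    simp only [Pi.add_apply, Gp]
    ring

lemma Gp_nn {p o : (ℂ × ℂ) →L[ℝ] ℂ} (hp : ∀ z ∈ Hartogs, ‖p z‖ ≤ 1) (ho : ∀ z ∈ Hartogs, ‖o z‖ ≤ 1)
    {a : ℂ} (ha : ‖a‖ ≤ 1) (m : ℤ) {u f : ℂ × ℂ → ℂ} (hu : MemLp u 2 μT) (hf : MemLp f 2 μT) :
    nn (Gp p o a m u f) ≤ 2 * nn f + (2 + 2 * |(m : ℝ)|) * nn u := by
  have hP : ∀ z ∈ Hartogs, ‖((‖o z‖ ^ 2 * (a * conj (p z)).re : ℝ) : ℂ)‖ ≤ 1 := by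
    intro z hz
    rw [Complex.norm_real, norm_mul, norm_pow, norm_norm]
    have h1 : ‖(a * conj (p z)).re‖ ≤ 1 := by
      refine (Complex.abs_re_le_norm _).trans ?_
      rw [norm_mul, RCLike.norm_conj]
      exact mul_le_one₀ ha (norm_nonneg _) (hp z hz)
    have h2 : ‖o z‖ ^ 2 ≤ 1 := pow_le_one₀ (norm_nonneg _) (ho z hz)
    exact mul_le_one₀ h2 (norm_nonneg _) h1
  have hQ : ∀ z ∈ Hartogs, ‖((‖o z‖ ^ 2 * (a * conj (p z)).im : ℝ) : ℂ)‖ ≤ 1 := by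
    intro z hz
    rw [Complex.norm_real, norm_mul, norm_pow, norm_norm]
    have h1 : ‖(a * conj (p z)).im‖ ≤ 1 := by
      refine (Complex.abs_im_le_norm _).trans ?_
      rw [norm_mul, RCLike.norm_conj]
      exact mul_le_one₀ ha (norm_nonneg _) (hp z hz)
    have h2 : ‖o z‖ ^ 2 ≤ 1 := pow_le_one₀ (norm_nonneg _) (ho z hz)
    exact mul_le_one₀ h2 (norm_nonneg _) h1
  have hm1 : ‖(m : ℂ)‖ = |(m : ℝ)| := by rw [Complex.norm_intCast]
  have hk : ∀ z ∈ Hartogs, ‖Gp p o a m u f z‖ ≤ 2 * ‖f z‖ + (2 + 2 * |(m : ℝ)|) * ‖u z‖ := by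
    intro z hz
    unfold Gp
    refine (norm_add_le _ _).trans (add_le_add ?_ ?_)
    · rw [norm_mul, norm_mul, norm_mul, RCLike.norm_conj]
      have h2 : ‖(2 : ℂ)‖ = 2 := by norm_num
      rw [h2]
      have h3 := hP z hz
      have h4 := hp z hz
      calc _ ≤ 1 * (2 * (1 * ‖f z‖)) := by gcongr
        _ = _ := by ring
    · rw [norm_mul]
      gcongr
      refine (norm_add_le _ _).trans ?_
      have h3 : ‖(2 + (m : ℂ)) * ((‖o z‖ ^ 2 * (a * conj (p z)).re : ℝ) : ℂ)‖ ≤ (2 + |(m : ℝ)|) * 1 := by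
        rw [norm_mul]
        gcongr
        · refine (norm_add_le _ _).trans ?_
          rw [hm1]
          have h2 : ‖(2 : ℂ)‖ = 2 := by norm_num
          rw [h2]
        · exact hP z hz
      have h4 : ‖Complex.I * m * ((‖o z‖ ^ 2 * (a * conj (p z)).im : ℝ) : ℂ)‖ ≤ |(m : ℝ)| * 1 := by
        rw [norm_mul, norm_mul, Complex.norm_I, one_mul, hm1]
        gcongr
        exact hQ z hz
      linarith
  have hm0 : 0 ≤ |(m : ℝ)| := abs_nonneg _
  set A : ℂ × ℂ → ℂ := fun z => ((2 * ‖f z‖ : ℝ) : ℂ) with hA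
  set B : ℂ × ℂ → ℂ := fun z => (((2 + 2 * |(m : ℝ)|) * ‖u z‖ : ℝ) : ℂ) with hB
  have hAm : MemLp A 2 μT := by
    have : MemLp (fun z => 2 * ‖f z‖) 2 μT := hf.norm.const_mul 2
    exact this.ofReal
  have hBm : MemLp B 2 μT := by
    have : MemLp (fun z => (2 + 2 * |(m : ℝ)|) * ‖u z‖) 2 μT := hu.norm.const_mul _
    exact this.ofReal
  have h5 : nn (Gp p o a m u f) ≤ 1 * nn (fun z => A z + B z) := by
    refine nn_mul_le zero_le_one (hAm.add hBm) fun z hz => ?_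
    rw [one_mul]
    refine (hk z hz).trans (le_of_eq ?_)
    rw [hA, hB]
    simp only
    rw [← Complex.ofReal_add, Complex.norm_real, Real.norm_of_nonneg (by positivity)]
  have h6 : nn A ≤ 2 * nn f := nn_mul_le (by norm_num) hf fun z _ => by
    rw [hA]; simp only
    rw [Complex.norm_real, Real.norm_of_nonneg (by positivity)]
  have h7 : nn B ≤ (2 + 2 * |(m : ℝ)|) * nn u := nn_mul_le (by positivity) hu fun z _ => by
    rw [hB]; simp only
    rw [Complex.norm_real, Real.norm_of_nonneg (by positivity)]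
  have h8 := nn_add_le hAm hBm
  linarith

/-- membership data of one function in a mode -/
structure Md (m n : ℤ) (u f1 f2 : ℂ × ℂ → ℂ) : Prop where
  hu : MemLp u 2 μT
  hf1 : MemLp f1 2 μT
  hf2 : MemLp f2 2 μT
  d1 : WDb e1 u f1
  d2 : WDb e2 u f2
  m1 : WMode e1 p1 m u
  m2 : WMode e2 p2 n u

lemma Md.rad0 {m n : ℤ} {u f1 f2 : ℂ × ℂ → ℂ} (h : Md m n u f1 f2) (φ : ℂ × ℂ → ℝ)
    (hφ : IsTest Hartogs φ) : pr u (fun z => fderiv ℝ φ z (z.1, (0 : ℝ) • z.2))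
    = -(2 * pr (fun z => conj z.1 * f1 z) φ + 2 * (0 : ℝ) * pr (fun z => conj z.2 * f2 z) φ)
      - (((1 + 0) + ((1 + m : ℤ) : ℝ) : ℝ) : ℂ) * pr u φ := by
  have h1 := radial (e := e1) (p := p1) (fun a => rfl) h.hu h.hf1 h.d1 h.m1 hφ
  have e : (fun z : ℂ × ℂ => fderiv ℝ φ z (z.1, (0 : ℝ) • z.2)) = fun z => fderiv ℝ φ z (e1 (p1 z)) := by
    funext z
    rw [zero_smul]; rfl
  have e' : (fun z : ℂ × ℂ => conj (p1 z) * f1 z) = fun z => conj z.1 * f1 z := rfl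
  rw [e, h1, e']
  push_cast
  ring

lemma Md.rad1 {m n : ℤ} {u f1 f2 : ℂ × ℂ → ℂ} (h : Md m n u f1 f2) (φ : ℂ × ℂ → ℝ)
    (hφ : IsTest Hartogs φ) : pr u (fun z => fderiv ℝ φ z (z.1, (1 : ℝ) • z.2))
    = -(2 * pr (fun z => conj z.1 * f1 z) φ + 2 * (1 : ℝ) * pr (fun z => conj z.2 * f2 z) φ)
      - (((1 + 1) + ((2 + m + n : ℤ) : ℝ) : ℝ) : ℂ) * pr u φ := by
  have h1 := radial (e := e1) (p := p1) (fun a => rfl) h.hu h.hf1 h.d1 h.m1 hφ
  have h2 := radial (e := e2) (p := p2) (fun a => rfl) h.hu h.hf2 h.d2 h.m2 hφ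
  have e : (fun z : ℂ × ℂ => fderiv ℝ φ z (z.1, (1 : ℝ) • z.2))
      = fun z => fderiv ℝ φ z (e1 (p1 z)) + fderiv ℝ φ z (e2 (p2 z)) := by
    funext z
    rw [one_smul, ← map_add]
    congr 1
    simp
  have c1 : Continuous fun z : ℂ × ℂ => fderiv ℝ φ z (e1 (p1 z)) :=
    (hφ.1.continuous_fderiv (by simp)).clm_apply (by fun_prop)
  have c2 : Continuous fun z : ℂ × ℂ => fderiv ℝ φ z (e2 (p2 z)) :=
    (hφ.1.continuous_fderiv (by simp)).clm_apply (by fun_prop)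
  have e' : (fun z : ℂ × ℂ => conj (p1 z) * f1 z) = fun z => conj z.1 * f1 z := rfl
  have e'' : (fun z : ℂ × ℂ => conj (p2 z) * f2 z) = fun z => conj z.2 * f2 z := rfl
  rw [e, pr_add h.hu c1 c2, h1, h2, e', e'']
  push_cast
  ring

/-- splitting of the norm -/
lemma Md.split {m n : ℤ} {u f1 f2 : ℂ × ℂ → ℂ} (h : Md m n u f1 f2) {s : ℝ} (hs : 0 ≤ s) :
    ∫⁻ z in Hartogs, ‖u z‖ₑ ^ 2
      ≤ 4 * ENNReal.ofReal (Real.exp (-s) * (nn u + 2 * (nn f1 + nn f2) * (1 + s))) ^ 2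
        + ENNReal.ofReal (Real.exp (6 * s)) ^ 2 * ∫⁻ z in Hartogs, ‖lu u z‖ₑ ^ 2 := by
  have t0 := tight (Or.inl rfl) h.hu h.hf1 h.hf2 h.rad0 hs
  have t1 := tight (Or.inr rfl) h.hu h.hf1 h.hf2 h.rad1 hs
  have hum : AEMeasurable (fun z => ‖u z‖ₑ ^ 2) μT := h.hu.1.aemeasurable.enorm.pow_const 2
  set A0 := Hartogs ∩ Dl 0 (-s) ⁻¹' Hartogs with hA0
  set A1 := Hartogs ∩ Dl 1 (-s) ⁻¹' Hartogs with hA1
  have hm0 : MeasurableSet A0 :=
    measurableSet_Hartogs.inter ((Dl 0 (-s)).continuous.measurable measurableSet_Hartogs)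
  have hm1 : MeasurableSet A1 :=
    measurableSet_Hartogs.inter ((Dl 1 (-s)).continuous.measurable measurableSet_Hartogs)
  have hsub : Hartogs ⊆ A0 ∪ A1 ∪ (Hartogs ∩ {z | Real.exp (-(6 * s)) ≤ lam z}) := by
    intro z hz
    by_cases hz0 : z ∈ A0
    · exact Or.inl (Or.inl hz0)
    by_cases hz1 : z ∈ A1
    · exact Or.inl (Or.inr hz1)
    right
    refine ⟨hz, ?_⟩
    have h2 : Real.exp (-s) ≤ ‖z.2‖ := by
      by_contra hcon
      push Not at hcon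
      apply hz1
      refine ⟨hz, ?_⟩
      change Dl 1 (-s) z ∈ Hartogs
      rw [Dl_apply, neg_neg, one_mul, neg_neg]
      constructor
      · simp only [norm_mul, Complex.norm_real, Real.norm_of_nonneg (Real.exp_pos _).le]
        exact mul_lt_mul_of_pos_left hz.1 (Real.exp_pos _)
      · simp only [norm_mul, Complex.norm_real, Real.norm_of_nonneg (Real.exp_pos _).le]
        calc Real.exp s * ‖z.2‖ < Real.exp s * Real.exp (-s) :=
              mul_lt_mul_of_pos_left hcon (Real.exp_pos _)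
          _ = 1 := by rw [← Real.exp_add, add_neg_cancel, Real.exp_zero]
    have h1 : Real.exp (-s) * ‖z.2‖ ≤ ‖z.1‖ := by
      by_contra hcon
      push Not at hcon
      apply hz0
      refine ⟨hz, ?_⟩
      change Dl 0 (-s) z ∈ Hartogs
      rw [Dl_apply, neg_neg, zero_mul, neg_zero, Real.exp_zero]
      constructor
      · simp only [norm_mul, Complex.norm_real, Real.norm_of_nonneg (Real.exp_pos _).le, norm_one,
          one_mul, Real.norm_of_nonneg zero_le_one]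
        calc Real.exp s * ‖z.1‖ < Real.exp s * (Real.exp (-s) * ‖z.2‖) :=
              mul_lt_mul_of_pos_left hcon (Real.exp_pos _)
          _ = ‖z.2‖ := by rw [← mul_assoc, ← Real.exp_add, add_neg_cancel, Real.exp_zero, one_mul]
      · simp only [norm_mul, Complex.norm_real, Real.norm_of_nonneg zero_le_one, one_mul]
        exact hz.2
    have h3 : Real.exp (-(2 * s)) ≤ ‖z.1‖ := by
      refine le_trans ?_ h1
      rw [show -(2 * s) = -s + -s by ring, Real.exp_add]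
      gcongr
    change Real.exp (-(6 * s)) ≤ lam z
    unfold lam
    calc Real.exp (-(6 * s)) = Real.exp (-(2 * s)) ^ 2 * Real.exp (-s) ^ 2 := by
          rw [← Real.exp_nat_mul, ← Real.exp_nat_mul, ← Real.exp_add]
          congr 1
          push_cast
          ring
      _ ≤ _ := by gcongr
  have h3 : ∫⁻ z in Hartogs ∩ {z | Real.exp (-(6 * s)) ≤ lam z}, ‖u z‖ₑ ^ 2
      ≤ ENNReal.ofReal (Real.exp (6 * s)) ^ 2 * ∫⁻ z in Hartogs, ‖lu u z‖ₑ ^ 2 := by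
    rw [← lintegral_const_mul' _ _ (ENNReal.pow_ne_top ENNReal.ofReal_ne_top)]
    have hm2 : MeasurableSet (Hartogs ∩ {z | Real.exp (-(6 * s)) ≤ lam z}) :=
      measurableSet_Hartogs.inter (isClosed_le continuous_const continuous_lam).measurableSet
    refine le_trans ?_ (lintegral_mono_set
      (inter_subset_left : Hartogs ∩ {z | Real.exp (-(6 * s)) ≤ lam z} ⊆ Hartogs))
    refine setLIntegral_mono' hm2 fun z hz => ?_
    rw [← mul_pow]
    gcongr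
    rw [← ofReal_norm, ← ofReal_norm, ← ENNReal.ofReal_mul (Real.exp_pos _).le]
    apply ENNReal.ofReal_le_ofReal
    unfold lu
    have hl : 0 ≤ lam z := by unfold lam; positivity
    rw [norm_mul, Complex.norm_real, Real.norm_of_nonneg hl, ← mul_assoc]
    have h4 : 1 ≤ Real.exp (6 * s) * lam z := by
      have h5 : Real.exp (-(6 * s)) ≤ lam z := hz.2
      calc (1 : ℝ) = Real.exp (6 * s) * Real.exp (-(6 * s)) := by
            rw [← Real.exp_add, add_neg_cancel, Real.exp_zero]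
        _ ≤ _ := by gcongr
    nlinarith [norm_nonneg (u z)]
  calc ∫⁻ z in Hartogs, ‖u z‖ₑ ^ 2
      ≤ ∫⁻ z in A0 ∪ A1 ∪ (Hartogs ∩ {z | Real.exp (-(6 * s)) ≤ lam z}), ‖u z‖ₑ ^ 2 :=
        lintegral_mono_set hsub
    _ ≤ ((∫⁻ z in A0, ‖u z‖ₑ ^ 2) + ∫⁻ z in A1, ‖u z‖ₑ ^ 2)
        + ∫⁻ z in Hartogs ∩ {z | Real.exp (-(6 * s)) ≤ lam z}, ‖u z‖ₑ ^ 2 := by
        refine (lintegral_union_le _ _ _).trans ?_
        exact add_le_add (lintegral_union_le _ _ _) le_rfl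
    _ ≤ _ := by
        refine add_le_add ((add_le_add t0 t1).trans (le_of_eq ?_)) h3
        ring

end Pool.Agent.H631DN
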