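import Pool.Agent.H631DN.A6

/-! Compactness in a torus mode: conclusion. -/

open scoped ContDiff Topology ENNReal NNReal ComplexConjugate
open MeasureTheory Set Filter

noncomputable section

namespace Pool.Agent.H631DN

open Pool.Agent.H631R3

lemma LL0 (L : ℂ →L[ℝ] ℝ) {v : ℂ × ℂ → ℂ} (hv : MemLp v 2 μT) :
    LL (fun (_ : Idx 0) z => L (v z)) := fun _ => L.comp_memLp' hv

lemma LL1 (L : ℂ →L[ℝ] ℝ) {G : Fin 4 → ℂ × ℂ → ℂ} (hG : ∀ k, MemLp (G k) 2 μT) :
    LL (fun (J : Idx 1) z => L (G (J 0) z)) := fun J => L.comp_memLp' (hG (J 0))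

/-- the gradient of the weighted function -/
def Gr (m n : ℤ) (u f1 f2 : ℂ × ℂ → ℂ) : Fin 4 → ℂ × ℂ → ℂ :=
  ![Gp p1 p2 1 m u f1, Gp p1 p2 Complex.I m u f1, Gp p2 p1 1 n u f2, Gp p2 p1 Complex.I n u f2]

lemma Md.gr_memLp {m n : ℤ} {u f1 f2 : ℂ × ℂ → ℂ} (h : Md m n u f1 f2) (k : Fin 4) :
    MemLp (Gr m n u f1 f2 k) 2 μT := by
  fin_cases k
  · exact Gp_memLp _ _ _ _ h.hu h.hf1
  · exact Gp_memLp _ _ _ _ h.hu h.hf1
  · exact Gp_memLp _ _ _ _ h.hu h.hf2
  · exact Gp_memLp _ _ _ _ h.hu h.hf2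

lemma Md.gr_nn {m n : ℤ} {u f1 f2 : ℂ × ℂ → ℂ} (h : Md m n u f1 f2) {B : ℝ} (hu : nn u ≤ B)
    (hf1 : nn f1 ≤ B) (hf2 : nn f2 ≤ B) (k : Fin 4) :
    nn (Gr m n u f1 f2 k) ≤ 2 * B + (2 + 2 * |(m : ℝ)| + 2 * |(n : ℝ)|) * B := by
  have hp1 : ∀ z ∈ Hartogs, ‖p1 z‖ ≤ 1 := fun z hz => (hz.1.trans hz.2).le
  have hp2 : ∀ z ∈ Hartogs, ‖p2 z‖ ≤ 1 := fun z hz => hz.2.le
  have h1 : ‖(1 : ℂ)‖ ≤ 1 := by simp
  have hI : ‖Complex.I‖ ≤ 1 := by simp
  have hB : 0 ≤ B := (nn_nonneg u).trans hu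
  have hm : 0 ≤ |(m : ℝ)| := abs_nonneg _
  have hn : 0 ≤ |(n : ℝ)| := abs_nonneg _
  have hmB : 0 ≤ 2 * |(m : ℝ)| * B := by positivity
  have hnB : 0 ≤ 2 * |(n : ℝ)| * B := by positivity
  have k1 : 2 * nn f1 + (2 + 2 * |(m : ℝ)|) * nn u ≤ 2 * B + (2 + 2 * |(m : ℝ)|) * B := by gcongr
  have k2 : 2 * nn f2 + (2 + 2 * |(n : ℝ)|) * nn u ≤ 2 * B + (2 + 2 * |(n : ℝ)|) * B := by gcongr
  fin_cases k
  · refine (Gp_nn hp1 hp2 h1 m h.hu h.hf1).trans ?_
    linarith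
  · refine (Gp_nn hp1 hp2 hI m h.hu h.hf1).trans ?_
    linarith
  · refine (Gp_nn hp2 hp1 h1 n h.hu h.hf2).trans ?_
    linarith
  · refine (Gp_nn hp2 hp1 hI n h.hu h.hf2).trans ?_
    linarith

lemma Md.gr_weak {m n : ℤ} {u f1 f2 : ℂ × ℂ → ℂ} (h : Md m n u f1 f2) (k : Fin 4)
    (φ : ℂ × ℂ → ℝ) (hφ : IsTest Hartogs φ) :
    pr (lu u) (fun z => fderiv ℝ φ z (frame k)) = - pr (Gr m n u f1 f2 k) φ := by
  have c1 : ∀ a : ℂ, pr (lu u) (fun z => fderiv ℝ φ z (e1 a)) = - pr (Gp p1 p2 a m u f1) φ := by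
    intro a
    exact grad_lam (e := e1) (p := p1) (o := p2) (fun a => rfl) h.hu h.hf1 h.d1 h.m1
      (fun a => rfl) a hφ
  have c2 : ∀ a : ℂ, pr (lu u) (fun z => fderiv ℝ φ z (e2 a)) = - pr (Gp p2 p1 a n u f2) φ := by
    intro a
    have h1 := grad_lam (e := e2) (p := p2) (o := p1) (fun a => rfl) h.hu h.hf2 h.d2 h.m2
      (fun a => rfl) a hφ
    have h2 : lu u = fun z => ((‖p2 z‖ ^ 2 * ‖p1 z‖ ^ 2 : ℝ) : ℂ) * u z := by
      funext z
      unfold lu lam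
      rw [mul_comm (‖z.1‖ ^ 2)]
      rfl
    rw [h2]
    exact h1
  fin_cases k
  · exact c1 1
  · exact c1 Complex.I
  · exact c2 1
  · exact c2 Complex.I

lemma lu_tendsto {m n : ℤ} {u f1 f2 : ℕ → ℂ × ℂ → ℂ} (h : ∀ k, Md m n (u k) (f1 k) (f2 k)) {B : ℝ}
    (hu : ∀ k, nn (u k) ≤ B) (hf1 : ∀ k, nn (f1 k) ≤ B) (hf2 : ∀ k, nn (f2 k) ≤ B)
    (hw : ∀ v : ℂ × ℂ → ℂ, MemLp v 2 μT → Tendsto (fun k => ∫ z in Hartogs, v z * u k z) atTop (𝓝 0)) :
    Tendsto (fun k => nn (lu (u k))) atTop (𝓝 0) := by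
  have hB : 0 ≤ B := (nn_nonneg (u 0)).trans (hu 0)
  set K : ℝ := 2 * B + (2 + 2 * |(m : ℝ)| + 2 * |(n : ℝ)|) * B with hK
  have hK0 : 0 ≤ K := by positivity
  have key : ∀ L : ℂ →L[ℝ] ℝ, (∀ w, ‖L w‖ ≤ ‖w‖) → Tendsto (fun k => ‖mk (fun (_ : Idx 0) z => L (lu (u k) z))
      (LL0 L (lu_memLp (h k).hu))‖) atTop (𝓝 0) := by
    intro L hL
    refine rellich (g := fun k => mk (fun (J : Idx 1) z => L (Gr m n (u k) (f1 k) (f2 k) (J 0) z))
      (LL1 L (h k).gr_memLp))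
      (fun k => weakD_of (lu_memLp (h k).hu) (h k).gr_memLp (h k).gr_weak L)
      (B := Real.sqrt ((Fintype.card (Idx 1) : ℝ≥0) : ℝ) * ‖K‖) (fun k => ?_) (fun p => ?_)
    · apply norm_le_of_enorm_sq
      rw [mk_enorm_sq]
      calc ∑ J : Idx 1, ∫⁻ x in Hartogs, ‖L (Gr m n (u k) (f1 k) (f2 k) (J 0) x)‖ₑ ^ 2
          ≤ ∑ _J : Idx 1, ‖K‖ₑ ^ 2 := by
            refine Finset.sum_le_sum fun J _ => ?_
            have h1 : ∫⁻ x in Hartogs, ‖L (Gr m n (u k) (f1 k) (f2 k) (J 0) x)‖ₑ ^ 2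
                ≤ ∫⁻ x in Hartogs, ‖Gr m n (u k) (f1 k) (f2 k) (J 0) x‖ₑ ^ 2 := by
              refine lintegral_mono fun x => ?_
              gcongr
              rw [← ofReal_norm, ← ofReal_norm]
              exact ENNReal.ofReal_le_ofReal (hL _)
            refine h1.trans ?_
            rw [← nn_sq ((h k).gr_memLp _), ← ofReal_norm, Real.norm_of_nonneg hK0]
            gcongr
            exact (h k).gr_nn (hu k) (hf1 k) (hf2 k) _
        _ = _ := by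
            rw [Finset.sum_const, Finset.card_univ, nsmul_eq_mul]
            rfl
    · have hp : MemLp (fun z => ((p z idx0 * lam z : ℝ) : ℂ)) 2 μT := by
        have h1 : MemLp (fun z => ((p z idx0 : ℝ) : ℂ)) 2 μT := (L2_memLp_coord p idx0).ofReal
        have h2 := memLp_mul_bdd (Complex.continuous_ofReal.comp continuous_lam) h1
        refine h2.ae_eq (Eventually.of_forall fun z => ?_)
        simp only [Function.comp]
        push_cast
        ring
      have h3 := hw _ hp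
      have h4 : Tendsto (fun k => L (∫ z in Hartogs, ((p z idx0 * lam z : ℝ) : ℂ) * u k z)) atTop
          (𝓝 (L 0)) := (L.continuous.tendsto 0).comp h3
      rw [map_zero] at h4
      refine h4.congr fun k => ?_
      rw [inner_mk, Finset.sum_eq_single idx0]
      · rw [← L.integral_comp_comm]
        · congr 1
          funext z
          have : ((p z idx0 * lam z : ℝ) : ℂ) * u k z = (p z idx0) • (lu (u k) z) := by
            rw [Complex.real_smul]
            unfold lu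
            push_cast
            ring
          rw [this, map_smul, smul_eq_mul]
        · exact (hp.integrable_mul (h k).hu)
      · intro J _ hJ; exact absurd (idx0_unique J) hJ
      · intro hJ; exact absurd (Finset.mem_univ _) hJ
  have hre := key Complex.reCLM (fun w => by
    rw [Complex.reCLM_apply]; exact Complex.abs_re_le_norm w)
  have him := key Complex.imCLM (fun w => by
    rw [Complex.imCLM_apply]; exact Complex.abs_im_le_norm w)
  have hsum : ∀ k, nn (lu (u k)) ≤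
      ‖mk (fun (_ : Idx 0) z => Complex.reCLM (lu (u k) z))
        (LL0 Complex.reCLM (lu_memLp (h k).hu))‖
      + ‖mk (fun (_ : Idx 0) z => Complex.imCLM (lu (u k) z))
        (LL0 Complex.imCLM (lu_memLp (h k).hu))‖ := by
    intro k
    have hv := lu_memLp (h k).hu
    have hL : ∀ L : ℂ →L[ℝ] ℝ, ‖mk (fun (_ : Idx 0) z => L (lu (u k) z))
        (LL0 L (lu_memLp (h k).hu))‖ₑ ^ 2 = ∫⁻ z in Hartogs, ‖L (lu (u k) z)‖ₑ ^ 2 := by
      intro L
      rw [mk_enorm_sq, Finset.sum_eq_single idx0]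
      · intro J _ hJ; exact absurd (idx0_unique J) hJ
      · intro hJ; exact absurd (Finset.mem_univ _) hJ
    set a := mk (fun (_ : Idx 0) z => Complex.reCLM (lu (u k) z))
        (LL0 Complex.reCLM (lu_memLp (h k).hu)) with ha
    set b := mk (fun (_ : Idx 0) z => Complex.imCLM (lu (u k) z))
        (LL0 Complex.imCLM (lu_memLp (h k).hu)) with hb
    have hmre : AEMeasurable (fun z => ‖Complex.reCLM (lu (u k) z)‖ₑ ^ 2) μT :=
      (Complex.reCLM.comp_memLp' hv).1.aemeasurable.enorm.pow_const 2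
    refine nn_le (by positivity) ?_
    have h3 : ∀ z, ‖lu (u k) z‖ₑ ^ 2 = ‖Complex.reCLM (lu (u k) z)‖ₑ ^ 2
        + ‖Complex.imCLM (lu (u k) z)‖ₑ ^ 2 := by
      intro z
      rw [← ofReal_norm, ← ofReal_norm, ← ofReal_norm, ← ENNReal.ofReal_pow (norm_nonneg _),
        ← ENNReal.ofReal_pow (norm_nonneg _), ← ENNReal.ofReal_pow (norm_nonneg _),
        ← ENNReal.ofReal_add (by positivity) (by positivity)]
      congr 1
      rw [← Complex.normSq_eq_norm_sq, Complex.normSq_apply]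
      simp only [Complex.reCLM_apply, Complex.imCLM_apply, Real.norm_eq_abs, sq_abs]
      ring
    simp_rw [h3]
    rw [lintegral_add_left' hmre,
      ← hL, ← hL, ← ha, ← hb, ← ofReal_norm, ← ofReal_norm, ← ENNReal.ofReal_pow (norm_nonneg _),
      ← ENNReal.ofReal_pow (norm_nonneg _), ← ENNReal.ofReal_add (by positivity) (by positivity),
      ← ENNReal.ofReal_pow (by positivity)]
    apply ENNReal.ofReal_le_ofReal
    nlinarith [norm_nonneg a, norm_nonneg b]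
  have h5 := hre.add him
  rw [add_zero] at h5
  exact squeeze_zero (fun k => nn_nonneg _) hsum h5

/-- the inclusion of the domain of `∂̄` in a torus mode is compact (weak sequential form) -/
theorem mode_compact {m n : ℤ} {u f1 f2 : ℕ → ℂ × ℂ → ℂ} (h : ∀ k, Md m n (u k) (f1 k) (f2 k))
    {B : ℝ} (hu : ∀ k, nn (u k) ≤ B) (hf1 : ∀ k, nn (f1 k) ≤ B) (hf2 : ∀ k, nn (f2 k) ≤ B)
    (hw : ∀ v : ℂ × ℂ → ℂ, MemLp v 2 μT → Tendsto (fun k => ∫ z in Hartogs, v z * u k z) atTop (𝓝 0)) :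
    Tendsto (fun k => nn (u k)) atTop (𝓝 0) := by
  have hB : 0 ≤ B := (nn_nonneg (u 0)).trans (hu 0)
  have h1 := lu_tendsto h hu hf1 hf2 hw
  have hsplit : ∀ (k N : ℕ), nn (u k) ^ 2 ≤ 4 * (Real.exp (-(N : ℝ)) * (B + 4 * B * (1 + N))) ^ 2
      + (Real.exp (6 * N) * nn (lu (u k))) ^ 2 := by
    intro k N
    have hN : (0 : ℝ) ≤ N := Nat.cast_nonneg N
    have h2 := (h k).split hN
    rw [← nn_sq (h k).hu, ← nn_sq (lu_memLp (h k).hu), ← mul_pow,
      ← ENNReal.ofReal_mul (Real.exp_pos _).le] at h2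
    have h3 : Real.exp (-(N : ℝ)) * (nn (u k) + 2 * (nn (f1 k) + nn (f2 k)) * (1 + N))
        ≤ Real.exp (-(N : ℝ)) * (B + 4 * B * (1 + N)) := by
      have e1 := hu k
      have e2 := hf1 k
      have e3 := hf2 k
      have e4 : 2 * (nn (f1 k) + nn (f2 k)) ≤ 4 * B := by linarith
      gcongr
    have h4 : ENNReal.ofReal (nn (u k)) ^ 2
        ≤ 4 * ENNReal.ofReal (Real.exp (-(N : ℝ)) * (B + 4 * B * (1 + N))) ^ 2
          + ENNReal.ofReal (Real.exp (6 * N) * nn (lu (u k))) ^ 2 := by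
      refine h2.trans ?_
      gcongr
    have h5 := nn_nonneg (lu (u k))
    rw [← ENNReal.ofReal_pow (nn_nonneg _), ← ENNReal.ofReal_pow (by positivity),
      ← ENNReal.ofReal_pow (by positivity), show (4 : ℝ≥0∞) = ENNReal.ofReal 4 by norm_num,
      ← ENNReal.ofReal_mul (by norm_num), ← ENNReal.ofReal_add (by positivity) (by positivity),
      ENNReal.ofReal_le_ofReal_iff (by positivity)] at h4
    exact h4
  have hω : Tendsto (fun N : ℕ => 4 * (Real.exp (-(N : ℝ)) * (B + 4 * B * (1 + N))) ^ 2) atTop (𝓝 0) := by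
    have e0 : Tendsto (fun x : ℝ => Real.exp (-x)) atTop (𝓝 0) := Real.tendsto_exp_neg_atTop_nhds_zero
    have e1 : Tendsto (fun x : ℝ => x ^ 1 * Real.exp (-x)) atTop (𝓝 0) :=
      Real.tendsto_pow_mul_exp_neg_atTop_nhds_zero 1
    have e2 : Tendsto (fun x : ℝ => (5 * B) * Real.exp (-x) + (4 * B) * (x ^ 1 * Real.exp (-x))) atTop
        (𝓝 ((5 * B) * 0 + (4 * B) * 0)) := (e0.const_mul _).add (e1.const_mul _)
    rw [mul_zero, mul_zero, add_zero] at e2
    have e3 := ((e2.comp (tendsto_natCast_atTop_atTop (R := ℝ))).pow 2).const_mul 4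
    rw [zero_pow two_ne_zero, mul_zero] at e3
    refine e3.congr fun N => ?_
    simp only [Function.comp]
    ring
  rw [Metric.tendsto_atTop]
  intro ε hε
  obtain ⟨N, hN⟩ := (hω.eventually (gt_mem_nhds (show (0 : ℝ) < ε ^ 2 / 2 by positivity))).exists
  have h6 : Tendsto (fun k => (Real.exp (6 * N) * nn (lu (u k))) ^ 2) atTop (𝓝 0) := by
    have := (h1.const_mul (Real.exp (6 * N))).pow 2
    rw [mul_zero, zero_pow two_ne_zero] at this
    exact this
  obtain ⟨k0, hk0⟩ := eventually_atTop.1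
    (h6.eventually (gt_mem_nhds (show (0 : ℝ) < ε ^ 2 / 2 by positivity)))
  refine ⟨k0, fun k hk => ?_⟩
  rw [Real.dist_eq, sub_zero, abs_of_nonneg (nn_nonneg _)]
  have h7 := hsplit k N
  have h8 := hk0 k hk
  exact lt_of_pow_lt_pow_left₀ 2 hε.le (by linarith)

end Pool.Agent.H631DN
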