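import Mathlib

/-! Abstract part: eigenvectors of the Laplacian of an invariant complex are total. -/

open scoped Topology ComplexConjugate
open Set Filter

noncomputable section

namespace Pool.Agent.H631DN

section compact

variable {H H' : Type*} [NormedAddCommGroup H] [InnerProductSpace ℂ H] [CompleteSpace H]
  [NormedAddCommGroup H'] [InnerProductSpace ℂ H'] [CompleteSpace H']

omit [CompleteSpace H] in
/-- bounded operators mapping bounded weakly null sequences to null sequences are compact -/
lemma compact_of_weakC [TopologicalSpace.SeparableSpace H'] (S : H' →L[ℂ] H)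
    (h : ∀ v : ℕ → H', (∃ B, ∀ k, ‖v k‖ ≤ B) →
      (∀ p, Tendsto (fun k => inner ℂ p (v k)) atTop (𝓝 0)) →
      Tendsto (fun k => S (v k)) atTop (𝓝 0)) : IsCompactOperator S := by
  refine (isCompactOperator_iff_isCompact_closure_image_closedBall (S : H' →ₗ[ℂ] H) one_pos).2 ?_
  have hseq : IsSeqCompact ((S : H' →ₗ[ℂ] H) '' Metric.closedBall 0 1) := by
    intro x hx
    choose v hv hvx using hx
    have hv1 : ∀ k, ‖v k‖ ≤ 1 := fun k => by simpa using hv k
    have hW := WeakDual.isSeqCompact_closedBall ℂ H' (0 : StrongDual ℂ H') 1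
    have hm : ∀ k, (StrongDual.toWeakDual (InnerProductSpace.toDual ℂ H' (v k))) ∈
        WeakDual.toStrongDual ⁻¹' Metric.closedBall (0 : StrongDual ℂ H') 1 := by
      intro k
      simpa using hv1 k
    obtain ⟨a, ha, φ, hφ, hlim⟩ := hW hm
    set va : H' := (InnerProductSpace.toDual ℂ H').symm (WeakDual.toStrongDual a) with hva
    have hva1 : ‖va‖ ≤ 1 := by
      rw [hva, LinearIsometryEquiv.norm_map]
      simpa using ha
    have hp : ∀ p, Tendsto (fun k => inner ℂ (v (φ k)) p) atTop (𝓝 (inner ℂ va p)) := by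
      intro p
      have h1 := (tendsto_iff_forall_eval_tendsto_topDualPairing.1 hlim) p
      have h2 : inner ℂ va p = a p := by
        rw [hva, InnerProductSpace.toDual_symm_apply]; rfl
      rw [h2]
      exact h1
    have h3 := h (fun k => v (φ k) - va) ⟨2, fun k => by
      refine (norm_sub_le _ _).trans ?_
      linarith [hv1 (φ k)]⟩ (fun p => by
        have h4 := (hp p).sub_const (inner ℂ va p)
        rw [sub_self] at h4
        have h5 : Tendsto (fun k => conj (inner ℂ (v (φ k)) p - inner ℂ va p)) atTop (𝓝 (conj 0)) :=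
          (Complex.continuous_conj.tendsto 0).comp h4
        rw [map_zero] at h5
        refine h5.congr fun k => ?_
        rw [map_sub, inner_conj_symm, inner_conj_symm, inner_sub_right])
    refine ⟨S va, ⟨va, by simpa using hva1, rfl⟩, φ, hφ, ?_⟩
    have h5 : Tendsto (fun k => S (v (φ k) - va) + S va) atTop (𝓝 (0 + S va)) := h3.add_const _
    rw [zero_add] at h5
    refine h5.congr fun k => ?_
    rw [map_sub, sub_add_cancel]
    exact hvx (φ k)
  have hc : IsCompact ((S : H' →ₗ[ℂ] H) '' Metric.closedBall 0 1) := hseq.isCompact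
  rw [hc.isClosed.closure_eq]
  exact hc

lemma eig_total {M : Submodule ℂ (WithLp 2 (H × H'))} (hM : IsClosed (M : Set (WithLp 2 (H × H'))))
    (sv : ∀ y ∈ M, y.fst = 0 → y.snd = 0)
    (hc : IsCompactOperator ((WithLp.fstL 2 ℂ H H').comp M.subtypeL)) (x : H')
    (hx : ∀ y ∈ M, ∀ μ : ℝ, (∀ z ∈ M, inner ℂ y.snd z.snd = (μ : ℂ) * inner ℂ y.fst z.fst) →
      inner ℂ x y.snd = 0) : ∀ y ∈ M, inner ℂ x y.snd = 0 := by
  have : CompleteSpace M := hM.completeSpace_coe
  set ι : M →L[ℂ] H := (WithLp.fstL 2 ℂ H H').comp M.subtypeL with hι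
  set κ : M →L[ℂ] H' := (WithLp.sndL 2 ℂ H H').comp M.subtypeL with hκ
  have hιa : ∀ y : M, ι y = y.1.fst := fun y => rfl
  have hκa : ∀ y : M, κ y = y.1.snd := fun y => rfl
  set C : M →L[ℂ] M := ι.adjoint ∘L ι with hC
  have hCc : IsCompactOperator C := hc.clm_comp ι.adjoint
  have hCi : ∀ y z : M, inner ℂ (C y) z = inner ℂ y.1.fst z.1.fst := fun y z => by
    change inner ℂ (ι.adjoint (ι y)) z = _
    rw [ContinuousLinearMap.adjoint_inner_left]
    rfl
  have hCs : (C : M →ₗ[ℂ] M).IsSymmetric := by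
    intro y z
    change inner ℂ (C y) z = inner ℂ y (C z)
    rw [hCi, ← inner_conj_symm y (C z), hCi, inner_conj_symm]
  have hin : ∀ y z : M, inner ℂ y z = inner ℂ y.1.fst z.1.fst + inner ℂ y.1.snd z.1.snd := fun y z =>
    WithLp.prod_inner_apply y.1 z.1
  set xM : M := κ.adjoint x with hxM
  have hxMi : ∀ y : M, inner ℂ xM y = inner ℂ x y.1.snd := fun y => by
    rw [hxM, ContinuousLinearMap.adjoint_inner_left]
    rfl
  have key : xM ∈ (⨆ ν, Module.End.eigenspace (C : M →ₗ[ℂ] M) ν)ᗮ := by
    rw [Submodule.mem_orthogonal']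
    intro y hy
    refine Submodule.iSup_induction _ (motive := fun y => inner ℂ xM y = 0) hy ?_ ?_ ?_
    · intro ν y hy
      rcases eq_or_ne y 0 with h0 | h0
      · rw [h0, inner_zero_right]
      have hCy : C y = ν • y := Module.End.mem_eigenspace_iff.1 hy
      have hν : conj ν = ν := by
        refine hCs.conj_eigenvalue_eq_self ?_
        exact Module.End.hasEigenvalue_of_hasEigenvector ⟨hy, h0⟩
      have h1 : ∀ z : M, inner ℂ y.1.fst z.1.fst
          = ν * (inner ℂ y.1.fst z.1.fst + inner ℂ y.1.snd z.1.snd) := by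
        intro z
        calc inner ℂ y.1.fst z.1.fst = inner ℂ (C y) z := (hCi y z).symm
          _ = inner ℂ (ν • y) z := by rw [hCy]
          _ = conj ν * inner ℂ y z := inner_smul_left (𝕜 := ℂ) y z ν
          _ = _ := by rw [hν, hin]
      have hν0 : ν ≠ 0 := by
        rintro rfl
        have h2 := h1 y
        rw [zero_mul] at h2
        have h3 : y.1.fst = 0 := inner_self_eq_zero.1 h2
        have h4 := sv y.1 y.2 h3
        apply h0
        apply inner_self_eq_zero (𝕜 := ℂ).1
        rw [hin, h3, h4, inner_zero_left, inner_zero_left, add_zero]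
      obtain ⟨r, rfl⟩ := Complex.conj_eq_iff_real.1 hν
      have hr : (r : ℂ) ≠ 0 := hν0
      rw [hxMi]
      refine hx y.1 y.2 (r⁻¹ - 1) fun z hz => ?_
      have h5 := h1 ⟨z, hz⟩
      have h6 : inner ℂ y.1.snd z.snd = (r : ℂ)⁻¹ * inner ℂ y.1.fst z.fst - inner ℂ y.1.fst z.fst := by
        have h7 : (r : ℂ)⁻¹ * inner ℂ y.1.fst z.fst
            = inner ℂ y.1.fst z.fst + inner ℂ y.1.snd z.snd := by
          nth_rw 1 [h5]
          rw [← mul_assoc, inv_mul_cancel₀ hr, one_mul]
        rw [h7]; ring
      rw [h6]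
      push_cast
      ring
    · exact inner_zero_right _
    · intro y z h1 h2
      rw [inner_add_right, h1, h2, add_zero]
  rw [ContinuousLinearMap.orthogonalComplement_iSup_eigenspaces_eq_bot hCc hCs] at key
  have hx0 : xM = 0 := by simpa using key
  intro y hy
  have := hxMi ⟨y, hy⟩
  rw [hx0, inner_zero_left] at this
  exact this.symm

end compact

section rep

variable {H : Type*} [NormedAddCommGroup H] [InnerProductSpace ℂ H] [CompleteSpace H] {Θ : Type*}

/-- modes of a family of unitary operators -/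
def modes (U : Θ → H ≃ₗᵢ[ℂ] H) (χ : Θ → ℂ) : Submodule ℂ H where
  carrier := {x | ∀ θ, U θ x = χ θ • x}
  add_mem' := fun h1 h2 θ => by rw [map_add, h1 θ, h2 θ, smul_add]
  zero_mem' := fun θ => by rw [map_zero, smul_zero]
  smul_mem' := fun c x h θ => by rw [map_smul, h θ, smul_comm]

omit [CompleteSpace H] in
lemma isClosed_modes (U : Θ → H ≃ₗᵢ[ℂ] H) (χ : Θ → ℂ) : IsClosed (modes U χ : Set H) := by
  have : (modes U χ : Set H) = ⋂ θ, {x | U θ x = χ θ • x} := by
    ext x; rw [mem_iInter]; rfl
  rw [this]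
  exact isClosed_iInter fun θ => isClosed_eq (U θ).continuous (continuous_const_smul _)

instance completeModes (U : Θ → H ≃ₗᵢ[ℂ] H) (χ : Θ → ℂ) : CompleteSpace (modes U χ) :=
  (isClosed_modes U χ).completeSpace_coe

lemma proj_mem {U : Θ → H ≃ₗᵢ[ℂ] H} (hinv : ∀ θ, ∃ θ', ∀ x, U θ (U θ' x) = x) (χ : Θ → ℂ)
    {W : Submodule ℂ H} [CompleteSpace W] (hW : ∀ θ, ∀ x ∈ W, U θ x ∈ W) {p : H} (hp : p ∈ W) :
    (modes U χ).starProjection p ∈ W := by
  have hcomm : ∀ θ x, W.starProjection (U θ x) = U θ (W.starProjection x) := by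
    intro θ x
    refine Submodule.eq_starProjection_of_mem_orthogonal
      (hW θ _ (Submodule.starProjection_apply_mem _ _)) ?_
    rw [← map_sub, Submodule.mem_orthogonal]
    intro w hw
    obtain ⟨θ', hθ'⟩ := hinv θ
    have h1 : inner ℂ w (U θ (x - W.starProjection x)) = inner ℂ (U θ' w) (x - W.starProjection x) := by
      rw [← (U θ).inner_map_map (U θ' w), hθ']
    rw [h1]
    exact (Submodule.mem_orthogonal _ _).1 (Submodule.sub_starProjection_mem_orthogonal x) _ (hW θ' w hw)
  have hQm : ∀ y ∈ modes U χ, W.starProjection y ∈ modes U χ := by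
    intro y hy θ
    rw [← hcomm, hy θ, map_smul]
  set m := (modes U χ).starProjection p with hm
  have hmm : m ∈ modes U χ := Submodule.starProjection_apply_mem _ _
  have h2 : m = W.starProjection m := by
    nth_rw 1 [hm]
    refine Submodule.eq_starProjection_of_mem_orthogonal (hQm m hmm) ?_
    rw [Submodule.mem_orthogonal]
    intro y hy
    have h3 : p - W.starProjection m = W.starProjection (p - m) := by
      rw [map_sub, Submodule.starProjection_eq_self_iff.2 hp]
    rw [h3, ← Submodule.inner_starProjection_left_eq_right]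
    exact (Submodule.mem_orthogonal _ _).1 (Submodule.sub_starProjection_mem_orthogonal p) _ (hQm y hy)
  rw [h2]
  exact Submodule.starProjection_apply_mem _ _

end rep

end Pool.Agent.H631DN
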