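import Pool.Agent.H631DN.B1

/-! Abstract part: eigenvectors of the Laplacian of an invariant complex are total. -/

open scoped Topology ComplexConjugate
open Set Filter

noncomputable section

namespace Pool.Agent.H631DN

variable {H0 H1 : Type*} [NormedAddCommGroup H0] [InnerProductSpace ℂ H0] [CompleteSpace H0]
  [NormedAddCommGroup H1] [InnerProductSpace ℂ H1] [CompleteSpace H1]

/-- component-wise action -/
def UU {Θ : Type*} (U0 : Θ → H0 ≃ₗᵢ[ℂ] H0) (U1 : Θ → H1 ≃ₗᵢ[ℂ] H1) :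
    Θ → WithLp 2 (H0 × H1) ≃ₗᵢ[ℂ] WithLp 2 (H0 × H1) :=
  fun θ => LinearIsometryEquiv.withLpProdCongr 2 (U0 θ) (U1 θ)

omit [CompleteSpace H0] [CompleteSpace H1] in
lemma mem_modes_UU {Θ : Type*} {U0 : Θ → H0 ≃ₗᵢ[ℂ] H0} {U1 : Θ → H1 ≃ₗᵢ[ℂ] H1} {χ : Θ → ℂ}
    {x : WithLp 2 (H0 × H1)} : x ∈ modes (UU U0 U1) χ ↔
      (x.fst ∈ modes U0 χ ∧ x.snd ∈ modes U1 χ) := by
  constructor
  · intro h
    exact ⟨fun θ => congrArg WithLp.fst (h θ), fun θ => congrArg WithLp.snd (h θ)⟩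
  · intro h θ
    exact WithLp.ofLp_injective 2 (Prod.ext (h.1 θ) (h.2 θ))

theorem propF {Θ X : Type*} {U0 : Θ → H0 ≃ₗᵢ[ℂ] H0} {U1 : Θ → H1 ≃ₗᵢ[ℂ] H1}
    (hinv : ∀ θ, ∃ θ', (∀ x, U0 θ (U0 θ' x) = x) ∧ (∀ x, U1 θ (U1 θ' x) = x))
    (χ : X → Θ → ℂ)
    (tot0 : ∀ x : H0, (∀ k, ∀ y ∈ modes U0 (χ k), inner ℂ y x = 0) → x = 0)
    (tot1 : ∀ x : H1, (∀ k, ∀ y ∈ modes U1 (χ k), inner ℂ y x = 0) → x = 0)
    {W : Submodule ℂ (WithLp 2 (H0 × H1))} (hWc : IsClosed (W : Set (WithLp 2 (H0 × H1))))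
    (hW : ∀ θ, ∀ x ∈ W, UU U0 U1 θ x ∈ W) (sv : ∀ y ∈ W, y.fst = 0 → y.snd = 0)
    (hcpt : ∀ k, IsCompactOperator ((WithLp.fstL 2 ℂ H0 H1).comp
      (W ⊓ modes (UU U0 U1) (χ k)).subtypeL))
    (x : H1) (hx : ∀ y ∈ W, ∀ μ : ℝ, (∀ z ∈ W, inner ℂ y.snd z.snd = (μ : ℂ) * inner ℂ y.fst z.fst) →
      inner ℂ x y.snd = 0) : ∀ y ∈ W, inner ℂ x y.snd = 0 := by
  have : CompleteSpace W := hWc.completeSpace_coe
  have hinv' : ∀ θ, ∃ θ', ∀ x, UU U0 U1 θ (UU U0 U1 θ' x) = x := fun θ => by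
    obtain ⟨θ', h1, h2⟩ := hinv θ
    exact ⟨θ', fun x => WithLp.ofLp_injective 2 (Prod.ext (h1 x.fst) (h2 x.snd))⟩
  have hP : ∀ k, ∀ p ∈ W, (modes (UU U0 U1) (χ k)).starProjection p ∈ W ⊓ modes (UU U0 U1) (χ k) :=
    fun k p hp => ⟨proj_mem hinv' (χ k) hW hp, Submodule.starProjection_apply_mem _ _⟩
  have horth : ∀ k p, ∀ y ∈ modes (UU U0 U1) (χ k),
      inner ℂ y (p - (modes (UU U0 U1) (χ k)).starProjection p) = 0 := fun k p y hy =>
    (Submodule.mem_orthogonal _ _).1 (Submodule.sub_starProjection_mem_orthogonal p) y hy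
  have hm1 : ∀ k (u : H0), u ∈ modes U0 (χ k) →
      (WithLp.toLp 2 (u, (0 : H1)) : WithLp 2 (H0 × H1)) ∈ modes (UU U0 U1) (χ k) := fun k u hu =>
    mem_modes_UU.2 ⟨hu, Submodule.zero_mem (modes U1 (χ k))⟩
  have hm2 : ∀ k (v : H1), v ∈ modes U1 (χ k) →
      (WithLp.toLp 2 ((0 : H0), v) : WithLp 2 (H0 × H1)) ∈ modes (UU U0 U1) (χ k) := fun k u hu =>
    mem_modes_UU.2 ⟨Submodule.zero_mem (modes U0 (χ k)), hu⟩
  have step1 : ∀ k, ∀ y ∈ W ⊓ modes (UU U0 U1) (χ k), inner ℂ x y.snd = 0 := by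
    intro k
    refine eig_total (M := W ⊓ modes (UU U0 U1) (χ k)) (hWc.inter (isClosed_modes _ _))
      (fun y hy => sv y hy.1) (hcpt k) x ?_
    intro y hy μ h
    refine hx y hy.1 μ fun z hz => ?_
    have hy' := mem_modes_UU.1 hy.2
    have h1 := horth k z _ (hm1 k _ hy'.1)
    have h2 := horth k z _ (hm2 k _ hy'.2)
    have h3 := h _ (hP k z hz)
    set P := (modes (UU U0 U1) (χ k)).starProjection z
    rw [WithLp.prod_inner_apply] at h1 h2
    have h1' : inner ℂ y.fst z.fst - inner ℂ y.fst P.fst = 0 := by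
      rw [← inner_sub_right]
      have : inner ℂ (0 : H1) (z - P).snd = 0 := inner_zero_left _
      have h4 : inner ℂ y.fst (z - P).fst + inner ℂ (0 : H1) (z - P).snd = 0 := h1
      rw [this, add_zero] at h4
      exact h4
    have h2' : inner ℂ y.snd z.snd - inner ℂ y.snd P.snd = 0 := by
      rw [← inner_sub_right]
      have : inner ℂ (0 : H0) (z - P).fst = 0 := inner_zero_left _
      have h4 : inner ℂ (0 : H0) (z - P).fst + inner ℂ y.snd (z - P).snd = 0 := h2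
      rw [this, zero_add] at h4
      exact h4
    rw [sub_eq_zero.1 h1', sub_eq_zero.1 h2']
    exact h3
  set q : WithLp 2 (H0 × H1) := WithLp.toLp 2 ((0 : H0), x) with hq
  set y := W.starProjection q with hy
  have hyW : y ∈ W := Submodule.starProjection_apply_mem _ _
  have hyi : ∀ z ∈ W, inner ℂ z y = inner ℂ z.snd x := by
    intro z hz
    have h1 : inner ℂ z (q - y) = 0 :=
      (Submodule.mem_orthogonal _ _).1 (Submodule.sub_starProjection_mem_orthogonal q) z hz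
    rw [inner_sub_right, sub_eq_zero] at h1
    rw [← h1, WithLp.prod_inner_apply]
    have : inner ℂ z.fst (0 : H0) + inner ℂ z.snd x = inner ℂ z.snd x := by
      rw [inner_zero_right, zero_add]
    exact this
  have hPy : ∀ k, (modes (UU U0 U1) (χ k)).starProjection y = 0 := by
    intro k
    have hk := hP k y hyW
    have h1 := hyi _ hk.1
    have h2 : inner ℂ ((modes (UU U0 U1) (χ k)).starProjection y).snd x = 0 := by
      rw [← inner_conj_symm, step1 k _ hk, map_zero]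
    have h3 := horth k y _ hk.2
    rw [inner_sub_right, h1, h2, zero_sub, neg_eq_zero] at h3
    exact inner_self_eq_zero.1 h3
  have hyo : ∀ k, ∀ z ∈ modes (UU U0 U1) (χ k), inner ℂ z y = 0 := by
    intro k z hz
    have h1 := horth k y z hz
    rw [hPy, sub_zero] at h1
    exact h1
  have hy0 : y = 0 := by
    refine WithLp.ofLp_injective 2 (Prod.ext ?_ ?_)
    · refine tot0 _ fun k z hz => ?_
      have h1 := hyo k _ (hm1 k z hz)
      rw [WithLp.prod_inner_apply] at h1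
      have h2 : inner ℂ (0 : H1) y.snd = 0 := inner_zero_left _
      have h3 : inner ℂ z y.fst + inner ℂ (0 : H1) y.snd = 0 := h1
      rw [h2, add_zero] at h3
      exact h3
    · refine tot1 _ fun k z hz => ?_
      have h1 := hyo k _ (hm2 k z hz)
      rw [WithLp.prod_inner_apply] at h1
      have h2 : inner ℂ (0 : H0) y.fst = 0 := inner_zero_left _
      have h3 : inner ℂ (0 : H0) y.fst + inner ℂ z y.snd = 0 := h1
      rw [h2, zero_add] at h3
      exact h3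
  intro z hz
  have h1 := hyi z hz
  rw [hy0, inner_zero_right] at h1
  rw [← inner_conj_symm, ← h1, map_zero]

end Pool.Agent.H631DN
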