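import Mathlib

/-! Orthonormal bases adapted to an orthogonal family of closed subspaces. -/

open scoped Topology ComplexConjugate
open Set Filter

noncomputable section

namespace Pool.Agent.H631DN

lemma basis_of {H : Type} [NormedAddCommGroup H] [InnerProductSpace ℂ H] [CompleteSpace H]
    (E : ℝ → Submodule ℂ H) (hc : ∀ μ, IsClosed (E μ : Set H))
    (ho : ∀ μ ν, μ ≠ ν → ∀ x ∈ E μ, ∀ y ∈ E ν, inner ℂ x y = 0)
    (ht : ∀ x, (∀ μ, ∀ y ∈ E μ, inner ℂ x y = 0) → x = 0) :
    ∃ (ι : Type) (b : HilbertBasis ι ℂ H) (lam : ι → ℝ), ∀ i, b i ∈ E (lam i) := by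
  have hcs : ∀ μ, CompleteSpace (E μ) := fun μ => (hc μ).completeSpace_coe
  choose w B hB using fun μ => exists_hilbertBasis ℂ (E μ)
  have hof : OrthogonalFamily ℂ (fun μ => E μ) (fun μ => (E μ).subtypeₗᵢ) := by
    intro μ ν hμν x y
    exact ho μ ν hμν x.1 x.2 y.1 y.2
  set v : (Σ μ : ℝ, w μ) → H := fun a => ((B a.1 a.2 : E a.1) : H) with hv
  have hvo : Orthonormal ℂ v := by
    have := hof.orthonormal_sigma_orthonormal (v_family := fun μ => (B μ : _ → _))
      (fun μ => (B μ).orthonormal)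
    exact this
  have hspan : (Submodule.span ℂ (Set.range v))ᗮ = ⊥ := by
    rw [Submodule.eq_bot_iff]
    intro x hx
    have hxv : ∀ a, inner ℂ (v a) x = 0 := fun a =>
      (Submodule.mem_orthogonal _ _).1 hx _ (Submodule.subset_span ⟨a, rfl⟩)
    refine ht x fun μ y hy => ?_
    have h1 : ∀ i, inner ℂ (B μ i) ((E μ).orthogonalProjectionOnto x) = 0 := by
      intro i
      have h2 := hxv ⟨μ, i⟩
      rw [← h2]
      have h3 : inner ℂ ((B μ i : E μ) : H) (x - ((E μ).orthogonalProjectionOnto x : H)) = 0 :=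
        (Submodule.mem_orthogonal _ _).1 (Submodule.sub_starProjection_mem_orthogonal x) _ (B μ i).2
      rw [inner_sub_right, sub_eq_zero] at h3
      exact h3.symm
    have h4 : (E μ).orthogonalProjectionOnto x = 0 := by
      have h5 : (B μ).repr ((E μ).orthogonalProjectionOnto x) = 0 := by
        ext i
        rw [HilbertBasis.repr_apply_apply, h1 i]; rfl
      exact ((B μ).repr.map_eq_zero_iff).1 h5
    have h6 : inner ℂ y (x - ((E μ).orthogonalProjectionOnto x : H)) = 0 :=
      (Submodule.mem_orthogonal _ _).1 (Submodule.sub_starProjection_mem_orthogonal x) _ hy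
    rw [h4] at h6
    have h7 : inner ℂ y x = 0 := by simpa using h6
    rw [← inner_conj_symm, h7, map_zero]
  refine ⟨_, HilbertBasis.mkOfOrthogonalEqBot hvo hspan, fun a => a.1, fun a => ?_⟩
  rw [HilbertBasis.coe_mkOfOrthogonalEqBot]
  exact (B a.1 a.2).2

end Pool.Agent.H631DN
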