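import Mathlib

/-! Spectrum of an operator with an orthonormal basis of eigenvectors. -/

open scoped Topology ComplexConjugate
open Set Filter

noncomputable section

namespace Pool.Agent.H631DN

section spec

variable {H : Type} [NormedAddCommGroup H] [InnerProductSpace ℂ H] [CompleteSpace H] {ι : Type}

omit [CompleteSpace H] in
lemma hb_ne (b : HilbertBasis ι ℂ H) (i : ι) : b i ≠ 0 := by
  intro h0
  have := b.orthonormal.1 i
  rw [h0, norm_zero] at this
  exact zero_ne_one this

omit [CompleteSpace H] in
lemma parseval (b : HilbertBasis ι ℂ H) (x : H) : HasSum (fun i => ‖inner ℂ (b i) x‖ ^ 2) (‖x‖ ^ 2) := by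
  have h := (b.hasSum_inner_mul_inner x x).mapL Complex.reCLM
  have h1 : Complex.reCLM (inner ℂ x x) = ‖x‖ ^ 2 := by
    rw [inner_self_eq_norm_sq_to_K]
    change (((‖x‖ : ℝ) : ℂ) ^ 2).re = _
    rw [← Complex.ofReal_pow, Complex.ofReal_re]
  rw [h1] at h
  have h2 : (fun i => ‖inner ℂ (b i) x‖ ^ 2) =
      fun i => Complex.reCLM (inner ℂ x (b i) * inner ℂ (b i) x) := by
    funext i
    rw [← inner_conj_symm x (b i), Complex.conj_mul']
    change _ = (((‖inner ℂ (b i) x‖ : ℝ) : ℂ) ^ 2).re
    rw [← Complex.ofReal_pow, Complex.ofReal_re]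
  rw [h2]
  exact h

omit [CompleteSpace H] in
lemma coef_N (b : HilbertBasis ι ℂ H) {N : H →L[ℂ] H} {c : ι → ℂ} (hN : ∀ i, N (b i) = c i • b i)
    (i : ι) (x : H) : inner ℂ (b i) (N x) = c i * inner ℂ (b i) x := by
  classical
  have h : (innerSL ℂ (b i)).comp N = c i • innerSL ℂ (b i) := by
    refine ContinuousLinearMap.ext_on (s := range b) ?_ ?_
    · have := b.dense_span
      rw [Submodule.dense_iff_topologicalClosure_eq_top]
      exact this
    · rintro _ ⟨j, rfl⟩
      change inner ℂ (b i) (N (b j)) = c i * inner ℂ (b i) (b j)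
      rw [hN, inner_smul_right, orthonormal_iff_ite.1 b.orthonormal i j]
      split_ifs with hij
      · rw [hij]
      · rw [mul_zero, mul_zero]
  have := congrArg (fun F => F x) h
  exact this

lemma spec_closure (b : HilbertBasis ι ℂ H) {N : H →L[ℂ] H} {c : ι → ℂ}
    (hN : ∀ i, N (b i) = c i • b i) : spectrum ℂ N = closure (range c) := by
  apply Subset.antisymm
  · intro z hz
    by_contra hcl
    apply hz
    change IsUnit (algebraMap ℂ (H →L[ℂ] H) z - N)
    obtain ⟨δ, hδ, hball⟩ := Metric.isOpen_iff.1 isClosed_closure.isOpen_compl z hcl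
    have hd : ∀ i, δ ≤ ‖z - c i‖ := by
      intro i
      by_contra hlt
      push Not at hlt
      have : c i ∈ (closure (range c))ᶜ := hball (by rw [Metric.mem_ball, dist_comm, dist_eq_norm]; exact hlt)
      exact this (subset_closure ⟨i, rfl⟩)
    set T := algebraMap ℂ (H →L[ℂ] H) z - N with hT
    have hTa : ∀ x, T x = z • x - N x := fun x => by
      rw [hT, sub_apply, Algebra.algebraMap_eq_smul_one]
      rfl
    have hTb : ∀ i, T (b i) = (z - c i) • b i := fun i => by
      rw [hTa, hN, sub_smul]
    have hTi : ∀ i x, inner ℂ (b i) (T x) = (z - c i) * inner ℂ (b i) x := fun i x =>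
      coef_N b hTb i x
    have hbd : ∀ x, δ * ‖x‖ ≤ ‖T x‖ := by
      intro x
      have h1 := (parseval b x).mul_left (δ ^ 2)
      have h2 := parseval b (T x)
      have h3 := hasSum_le (fun i => ?_) h1 h2
      · exact le_of_sq_le_sq (by rw [mul_pow]; exact h3) (norm_nonneg _)
      · rw [hTi, norm_mul, mul_pow]
        gcongr
        exact hd i
    have hal : AntilipschitzWith (Real.toNNReal δ⁻¹) T := by
      refine ContinuousLinearMap.antilipschitz_of_bound T fun x => ?_
      rw [Real.coe_toNNReal _ (by positivity), inv_mul_eq_div, le_div_iff₀ hδ, mul_comm]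
      exact hbd x
    rw [ContinuousLinearMap.isUnit_iff_bijective]
    refine ⟨hal.injective, ?_⟩
    have hcl := hal.isClosed_range T.uniformContinuous
    have h4 : (Submodule.span ℂ (range b) : Set H) ⊆ range T := by
      have h5 : Submodule.span ℂ (range b) ≤ LinearMap.range (T : H →ₗ[ℂ] H) := by
        rw [Submodule.span_le]
        rintro _ ⟨i, rfl⟩
        have hne : z - c i ≠ 0 := norm_pos_iff.1 (hδ.trans_le (hd i))
        refine ⟨(z - c i)⁻¹ • b i, ?_⟩
        change T ((z - c i)⁻¹ • b i) = b i
        rw [map_smul, hTb, smul_smul, inv_mul_cancel₀ hne, one_smul]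
      exact fun x hx => h5 hx
    have h6 : closure (Submodule.span ℂ (range b) : Set H) = univ := by
      have := b.dense_span
      rw [← Submodule.dense_iff_topologicalClosure_eq_top] at this
      exact this.closure_eq
    intro y
    have h7 : y ∈ closure (Submodule.span ℂ (range b) : Set H) := by rw [h6]; trivial
    exact closure_minimal h4 hcl h7
  · refine closure_minimal ?_ (spectrum.isClosed N)
    rintro _ ⟨i, rfl⟩
    intro hu
    change IsUnit (algebraMap ℂ (H →L[ℂ] H) (c i) - N) at hu
    rw [ContinuousLinearMap.isUnit_iff_bijective] at hu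
    have h1 : (algebraMap ℂ (H →L[ℂ] H) (c i) - N) (b i) = 0 := by
      rw [sub_apply, Algebra.algebraMap_eq_smul_one, hN]
      exact sub_self _
    exact hb_ne b i (hu.1 (h1.trans (map_zero _).symm))

omit [CompleteSpace H] in
lemma countable_basis [TopologicalSpace.SeparableSpace H] (b : HilbertBasis ι ℂ H) : Countable ι := by
  have h1 : ∀ i j, i ≠ j → Real.sqrt 2 ≤ dist (b i) (b j) := by
    intro i j hij
    rw [dist_eq_norm]
    apply Real.sqrt_le_iff.2
    refine ⟨norm_nonneg _, ?_⟩
    have h2 := norm_sub_sq (𝕜 := ℂ) (b i) (b j)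
    rw [h2, b.orthonormal.1 i, b.orthonormal.1 j, b.orthonormal.2 hij]
    norm_num
  have h2 : (univ : Set ι).Countable := by
    refine Set.PairwiseDisjoint.countable_of_isOpen (s := fun i => Metric.ball (b i) (1 / 2)) ?_
      (fun i _ => Metric.isOpen_ball) (fun i _ => ⟨b i, Metric.mem_ball_self (by norm_num)⟩)
    intro i _ j _ hij
    refine Metric.ball_disjoint_ball ?_
    refine le_trans ?_ (h1 i j hij)
    rw [Real.le_sqrt' (by norm_num)]
    norm_num
  exact Set.countable_univ_iff.1 h2

end spec

end Pool.Agent.H631DN
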