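import Pool.Agent.H631DN.StmtN
import Pool.Agent.H631DN.B2

/-! The torus action. -/

open scoped ContDiff Topology ENNReal NNReal ComplexConjugate
open MeasureTheory Set Filter

noncomputable section

namespace Pool.Agent.H631DN

open Pool.Agent.H631R3

instance sepC0 : TopologicalSpace.SeparableSpace C0 := by
  have : SecondCountableTopology C0 := by
    infer_instance
  infer_instance

lemma memC {c : ℂ × ℂ → ℝ} (hc : Continuous c) : MemLp (fun z => (c z : ℂ)) 2 μT := by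
  have h1 : MemLp (fun _ : ℂ × ℂ => (1 : ℂ)) 2 μT := memLp_const 1
  have h2 := memLp_mul_bdd (Complex.continuous_ofReal.comp hc) h1
  simpa using h2

/-- continuous real functions as elements of `L²` -/
def tC (c : ℂ × ℂ → ℝ) (hc : Continuous c) : C0 := (memC hc).toLp _

lemma inner_tC {c : ℂ × ℂ → ℝ} (hc : Continuous c) (u : C0) : inner ℂ (tC c hc) u = pr u c := by
  rw [L2.inner_def]
  unfold pr
  refine integral_congr_ae ?_
  filter_upwards [(memC hc).coeFn_toLp] with z hz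
  have : (tC c hc) z = (c z : ℂ) := hz
  rw [this, RCLike.inner_apply, Complex.conj_ofReal]

lemma pr_addL (u v : C0) {c : ℂ × ℂ → ℝ} (hc : Continuous c) :
    pr (u + v : C0) c = pr u c + pr v c := by
  rw [← inner_tC hc, inner_add_right, inner_tC, inner_tC]

lemma pr_smulL (a : ℂ) (u : C0) {c : ℂ × ℂ → ℝ} (hc : Continuous c) :
    pr (a • u : C0) c = a * pr u c := by
  rw [← inner_tC hc, inner_smul_right, inner_tC]

lemma continuous_pr {c : ℂ × ℂ → ℝ} (hc : Continuous c) : Continuous fun u : C0 => pr u c := by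
  have : (fun u : C0 => pr u c) = fun u => inner ℂ (tC c hc) u := by
    funext u; rw [inner_tC]
  rw [this]
  exact continuous_const.inner continuous_id

lemma cD {φ : ℂ × ℂ → ℝ} (hφ : IsTest Hartogs φ) (v : ℂ × ℂ) :
    Continuous fun z => fderiv ℝ φ z v := (hφ.fderiv_apply v).1.continuous

lemma dist_addL (e : ℂ →L[ℝ] ℂ × ℂ) (u v : C0) {φ : ℂ × ℂ → ℝ} (hφ : IsTest Hartogs φ) :
    dist e (u + v : C0) φ = dist e u φ + dist e v φ := by
  unfold dist
  rw [pr_addL u v (cD hφ _), pr_addL u v (cD hφ _)]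
  ring

lemma dist_smulL (e : ℂ →L[ℝ] ℂ × ℂ) (a : ℂ) (u : C0) {φ : ℂ × ℂ → ℝ} (hφ : IsTest Hartogs φ) :
    dist e (a • u : C0) φ = a * dist e u φ := by
  unfold dist
  rw [pr_smulL a u (cD hφ _), pr_smulL a u (cD hφ _)]
  ring

lemma continuous_dist (e : ℂ →L[ℝ] ℂ × ℂ) {φ : ℂ × ℂ → ℝ} (hφ : IsTest Hartogs φ) :
    Continuous fun u : C0 => dist e u φ := by
  unfold dist
  have h1 := continuous_pr (cD hφ (e 1))
  have h2 := continuous_pr (cD hφ (e Complex.I))
  fun_prop

/-- rotations -/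
def RL (θ : Circle × Circle) : (ℂ × ℂ) →L[ℝ] ℂ × ℂ :=
  (((θ.1 : ℂ) • ContinuousLinearMap.id ℝ ℂ)).prodMap ((θ.2 : ℂ) • ContinuousLinearMap.id ℝ ℂ)

lemma RL_apply (θ : Circle × Circle) (z : ℂ × ℂ) : RL θ z = ((θ.1 : ℂ) * z.1, (θ.2 : ℂ) * z.2) := rfl

lemma RL_mul (θ η : Circle × Circle) (z : ℂ × ℂ) : RL θ (RL η z) = RL (θ * η) z := by
  simp only [RL_apply, Prod.fst_mul, Prod.snd_mul, Circle.coe_mul, mul_assoc]

lemma RL_one (z : ℂ × ℂ) : RL 1 z = z := by
  simp [RL_apply]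

/-- rotations as homeomorphisms -/
def RH (θ : Circle × Circle) : (ℂ × ℂ) ≃ₜ (ℂ × ℂ) where
  toFun := RL θ
  invFun := RL θ⁻¹
  left_inv := fun z => by rw [RL_mul, inv_mul_cancel, RL_one]
  right_inv := fun z => by rw [RL_mul, mul_inv_cancel, RL_one]
  continuous_toFun := (RL θ).continuous
  continuous_invFun := (RL θ⁻¹).continuous

lemma RL_mem {θ : Circle × Circle} {z : ℂ × ℂ} : RL θ z ∈ Hartogs ↔ z ∈ Hartogs := by
  simp only [Hartogs, mem_setOf_eq, RL_apply, norm_mul, Circle.norm_coe, one_mul]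

lemma hRL (θ : Circle × Circle) : MeasurePreserving (RL θ) μT μT := by
  have h := ((rotation θ.1).measurePreserving).prod ((rotation θ.2).measurePreserving)
  have h2 : MeasurePreserving (RL θ) (volume : Measure (ℂ × ℂ)) volume := h
  have h3 := h2.restrict_preimage measurableSet_Hartogs
  have h4 : (RL θ) ⁻¹' Hartogs = Hartogs := by
    ext z; exact RL_mem
  rw [h4] at h3
  exact h3

/-- composition with rotations -/
def cR (θ : Circle × Circle) : C0 →ₗᵢ[ℂ] C0 := Lp.compMeasurePreservingₗᵢ ℂ (RL θ) (hRL θ)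

lemma cR_coe (θ : Circle × Circle) (f : C0) : cR θ f =ᵐ[μT] f ∘ RL θ :=
  Lp.coeFn_compMeasurePreserving f (hRL θ)

lemma cR_mul (θ η : Circle × Circle) (f : C0) : cR θ (cR η f) = cR (θ * η) f := by
  apply Lp.ext
  have h1 := cR_coe θ (cR η f)
  have h2 := (hRL θ).quasiMeasurePreserving.ae_eq_comp (cR_coe η f)
  have h3 := cR_coe (θ * η) f
  filter_upwards [h1, h2, h3] with z hz1 hz2 hz3
  rw [hz1, hz3, hz2]
  simp only [Function.comp_apply]
  rw [RL_mul, mul_comm]

lemma cR_one (f : C0) : cR 1 f = f := by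
  apply Lp.ext
  filter_upwards [cR_coe 1 f] with z hz
  rw [hz, Function.comp_apply, RL_one]

lemma pr_cR (θ : Circle × Circle) (u : C0) (c : ℂ × ℂ → ℝ) :
    pr (cR θ u) c = pr u (fun z => c (RL θ⁻¹ z)) := by
  unfold pr
  have h := (hRL θ).integral_comp (RH θ).measurableEmbedding
    (fun y => u y * ((c (RL θ⁻¹ y) : ℝ) : ℂ))
  rw [← h]
  refine integral_congr_ae ?_
  filter_upwards [cR_coe θ u] with z hz
  rw [hz, RL_mul, inv_mul_cancel, RL_one]
  rfl

lemma test_RL (θ : Circle × Circle) {φ : ℂ × ℂ → ℝ} (hφ : IsTest Hartogs φ) :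
    IsTest Hartogs (fun z => φ (RL θ z)) := by
  refine ⟨hφ.1.comp (RL θ).contDiff, hφ.2.1.comp_homeomorph (RH θ), ?_⟩
  intro z hz
  have h1 : RL θ z ∈ tsupport φ := by
    have h2 := tsupport_comp_subset_preimage φ (f := RL θ) (RL θ).continuous hz
    exact h2
  exact RL_mem.1 (hφ.2.2 h1)

/-- characters -/
def chi (k l : ℤ) (θ : Circle × Circle) : ℂ := (θ.1 : ℂ) ^ k * (θ.2 : ℂ) ^ l

lemma chi_ne (k l : ℤ) (θ : Circle × Circle) : chi k l θ ≠ 0 := by
  unfold chi
  exact mul_ne_zero (zpow_ne_zero _ θ.1.coe_ne_zero) (zpow_ne_zero _ θ.2.coe_ne_zero)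

lemma norm_chi (k l : ℤ) (θ : Circle × Circle) : ‖chi k l θ‖ = 1 := by
  unfold chi
  rw [norm_mul, norm_zpow, norm_zpow, Circle.norm_coe, Circle.norm_coe, one_zpow, one_zpow, one_mul]

lemma chi_add (k l m n : ℤ) (θ : Circle × Circle) :
    chi (m + k) (n + l) θ = chi m n θ * chi k l θ := by
  unfold chi
  rw [zpow_add₀ θ.1.coe_ne_zero, zpow_add₀ θ.2.coe_ne_zero]
  ring

lemma chi_mul (k l : ℤ) (θ η : Circle × Circle) : chi k l (θ * η) = chi k l θ * chi k l η := by
  unfold chi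
  rw [Prod.fst_mul, Prod.snd_mul, Circle.coe_mul, Circle.coe_mul, mul_zpow, mul_zpow]
  ring

/-- twisted action -/
def T0 (k l : ℤ) (θ : Circle × Circle) : C0 →ₗᵢ[ℂ] C0 where
  toFun := fun f => (chi k l θ)⁻¹ • cR θ f
  map_add' := fun f g => by rw [map_add, smul_add]
  map_smul' := fun c f => by rw [map_smul, smul_comm, RingHom.id_apply]
  norm_map' := fun f => by
    change ‖(chi k l θ)⁻¹ • cR θ f‖ = ‖f‖
    rw [norm_smul, norm_inv, norm_chi, inv_one, one_mul, LinearIsometry.norm_map]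

lemma T0_mul (k l : ℤ) (θ η : Circle × Circle) (f : C0) : T0 k l θ (T0 k l η f) = T0 k l (θ * η) f := by
  change (chi k l θ)⁻¹ • cR θ ((chi k l η)⁻¹ • cR η f) = (chi k l (θ * η))⁻¹ • cR (θ * η) f
  rw [map_smul, cR_mul, smul_smul, chi_mul, mul_inv]

lemma T0_one (k l : ℤ) (f : C0) : T0 k l 1 f = f := by
  change (chi k l 1)⁻¹ • cR 1 f = f
  rw [cR_one]
  simp [chi]

/-- twisted action -/
def TT (k l : ℤ) (θ : Circle × Circle) : C0 ≃ₗᵢ[ℂ] C0 :=
  LinearIsometryEquiv.ofSurjective (T0 k l θ) fun g =>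
    ⟨T0 k l θ⁻¹ g, by rw [T0_mul, mul_inv_cancel, T0_one]⟩

lemma TT_apply (k l : ℤ) (θ : Circle × Circle) (f : C0) : TT k l θ f = (chi k l θ)⁻¹ • cR θ f := rfl

lemma TT_inv (k l : ℤ) (θ : Circle × Circle) (f : C0) : TT k l θ (TT k l θ⁻¹ f) = f := by
  change T0 k l θ (T0 k l θ⁻¹ f) = f
  rw [T0_mul, mul_inv_cancel, T0_one]

lemma mem_modes_TT {k l m n : ℤ} {f : C0} : f ∈ modes (TT k l) (chi m n) ↔
    ∀ θ, cR θ f = chi (m + k) (n + l) θ • f := by
  constructor
  · intro h θ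
    have h1 : (chi k l θ)⁻¹ • cR θ f = chi m n θ • f := h θ
    rw [chi_add, mul_comm, mul_smul, ← h1, smul_smul, mul_inv_cancel₀ (chi_ne k l θ), one_smul]
  · intro h θ
    change (chi k l θ)⁻¹ • cR θ f = chi m n θ • f
    rw [h θ, chi_add, smul_smul, mul_comm (chi m n θ), ← mul_assoc, inv_mul_cancel₀ (chi_ne k l θ),
      one_mul]

lemma wmode_of {e : ℂ →L[ℝ] ℂ × ℂ} {p : (ℂ × ℂ) →L[ℝ] ℂ} {m : ℤ} {u : ℂ × ℂ → ℂ}
    (hu : MemLp u 2 μT) (S : ℝ → (ℂ × ℂ) →L[ℝ] ℂ × ℂ)
    (hS : ∀ s z, HasDerivAt (fun s => S s z) (-(e (Complex.I * p (S s z)))) s)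
    (hS0 : ∀ z, S 0 z = z)
    (h : ∀ s φ, IsTest Hartogs φ → pr u (fun z => φ (S s z)) = Complex.exp (Complex.I * m * s) * pr u φ) :
    WMode e p m u := by
  intro φ hφ
  set G : ℂ × ℂ → ℝ := fun y => fderiv ℝ φ y (-(e (Complex.I * p y))) with hG
  have hGc : Continuous G := (hφ.1.continuous_fderiv (by simp)).clm_apply (by fun_prop)
  have hGs : HasCompactSupport G := by
    refine hφ.2.1.mono' ?_
    intro y hy
    apply support_fderiv_subset ℝ
    intro h
    apply hy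
    simp only [hG]
    rw [h]; rfl
  obtain ⟨C, hC⟩ := hGc.bounded_above_of_compact_support hGs
  have h1 : ∀ (s : ℝ) (z : ℂ × ℂ), HasDerivAt (fun s => φ (S s z)) (G (S s z)) s := by
    intro s z
    exact (hφ.1.differentiable (by simp) _).hasFDerivAt.comp_hasDerivAt s (hS s z)
  have h2 := hasDerivAt_integral_of_dominated_loc_of_deriv_le (μ := μT) (x₀ := (0 : ℝ)) (s := univ)
    (F := fun s z => u z * ((φ (S s z) : ℝ) : ℂ)) (F' := fun s z => u z * ((G (S s z) : ℝ) : ℂ))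
    (bound := fun z => ‖u z‖ * C) univ_mem
    (Eventually.of_forall fun t => (integ hu (hφ.1.continuous.comp (S t).continuous)).1)
    (integ hu (hφ.1.continuous.comp (S 0).continuous))
    (integ hu (hGc.comp (S 0).continuous)).1
    (Eventually.of_forall fun z t _ => by
      rw [norm_mul, Complex.norm_real]
      gcongr
      exact hC _)
    ((hu.integrable (by norm_num)).norm.mul_const C)
    (Eventually.of_forall fun z t _ => ((h1 t z).ofReal_comp.const_mul (u z)))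
  have h3 : HasDerivAt (fun s : ℝ => pr u (fun z => φ (S s z))) (pr u G) 0 := by
    refine h2.2.congr_deriv ?_
    unfold pr
    congr 1
    funext z
    beta_reduce
    rw [hS0]
  have h4 : HasDerivAt (fun s : ℝ => Complex.exp (Complex.I * m * s) * pr u φ)
      (Complex.I * m * pr u φ) 0 := by
    have h5 : HasDerivAt (fun s : ℝ => Complex.I * m * (s : ℂ)) (Complex.I * m) 0 := by
      have := (Complex.ofRealCLM.hasDerivAt (x := (0:ℝ))).const_mul (Complex.I * m)
      simpa using this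
    have h6 := h5.cexp.mul_const (pr u φ)
    simpa using h6
  have h7 : (fun s : ℝ => pr u (fun z => φ (S s z))) =
      fun s : ℝ => Complex.exp (Complex.I * m * s) * pr u φ := by
    funext s
    exact h s φ hφ
  rw [h7] at h3
  have h8 := h3.unique h4
  have h9 : G = fun z => - fderiv ℝ φ z (e (Complex.I * p z)) := by
    funext z
    simp only [hG, map_neg]
  rw [h9, pr_neg] at h8
  linear_combination -h8

end Pool.Agent.H631DN
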