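import Pool.Agent.H631DN.C1

/-! The torus action: mode identities, invariance of `∂̄`. -/

open scoped ContDiff Topology ENNReal NNReal ComplexConjugate
open MeasureTheory Set Filter

noncomputable section

namespace Pool.Agent.H631DN

open Pool.Agent.H631R3

lemma hasDeriv_exp (s : ℝ) (w : ℂ) : HasDerivAt (fun s : ℝ => Complex.exp (-(Complex.I * s)) * w)
    (-(Complex.I * (Complex.exp (-(Complex.I * s)) * w))) s := by
  have h1 : HasDerivAt (fun s : ℝ => -(Complex.I * (s : ℂ))) (-Complex.I) s := by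
    have := ((Complex.ofRealCLM.hasDerivAt (x := s)).const_mul Complex.I).neg
    exact HasDerivAt.congr_deriv this (by simp)
  have h2 := h1.cexp.mul_const w
  refine h2.congr_deriv ?_
  ring

lemma coe_exp_inv (s : ℝ) : (((Circle.exp s)⁻¹ : Circle) : ℂ) = Complex.exp (-(Complex.I * s)) := by
  rw [← Circle.exp_neg, Circle.coe_exp]
  congr 1
  push_cast
  ring

lemma wmode1 {m n : ℤ} {f : C0} (h : ∀ θ, cR θ f = chi m n θ • f) : WMode e1 p1 m f := by
  refine wmode_of (Lp.memLp f) (fun s => RL (Circle.exp s, 1)⁻¹) ?_ ?_ ?_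
  · intro s z
    have h1 : ∀ s : ℝ, RL (Circle.exp s, 1)⁻¹ z = (Complex.exp (-(Complex.I * s)) * z.1, z.2) := by
      intro s
      rw [RL_apply]
      change ((((Circle.exp s)⁻¹ : Circle) : ℂ) * z.1, ((1⁻¹ : Circle) : ℂ) * z.2) = _
      rw [coe_exp_inv, inv_one, Circle.coe_one, one_mul]
    have h2 : (fun s : ℝ => RL (Circle.exp s, 1)⁻¹ z) =
        fun s : ℝ => (Complex.exp (-(Complex.I * s)) * z.1, z.2) := funext h1
    rw [h2, h1]
    refine ((hasDeriv_exp s z.1).prodMk (hasDerivAt_const s z.2)).congr_deriv ?_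
    simp
  · intro z
    simp [RL_apply]
  · intro s φ hφ
    have h1 := pr_cR (Circle.exp s, 1) f φ
    rw [← h1, h, pr_smulL _ _ hφ.1.continuous]
    congr 1
    simp only [chi, Circle.coe_exp, Circle.coe_one, one_zpow, mul_one]
    rw [← Complex.exp_int_mul]
    congr 1
    ring

lemma wmode2 {m n : ℤ} {f : C0} (h : ∀ θ, cR θ f = chi m n θ • f) : WMode e2 p2 n f := by
  refine wmode_of (Lp.memLp f) (fun s => RL (1, Circle.exp s)⁻¹) ?_ ?_ ?_
  · intro s z
    have h1 : ∀ s : ℝ, RL (1, Circle.exp s)⁻¹ z = (z.1, Complex.exp (-(Complex.I * s)) * z.2) := by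
      intro s
      rw [RL_apply]
      change (((1⁻¹ : Circle) : ℂ) * z.1, (((Circle.exp s)⁻¹ : Circle) : ℂ) * z.2) = _
      rw [coe_exp_inv, inv_one, Circle.coe_one, one_mul]
    have h2 : (fun s : ℝ => RL (1, Circle.exp s)⁻¹ z) =
        fun s : ℝ => (z.1, Complex.exp (-(Complex.I * s)) * z.2) := funext h1
    rw [h2, h1]
    refine ((hasDerivAt_const s z.1).prodMk (hasDeriv_exp s z.2)).congr_deriv ?_
    simp
  · intro z
    simp [RL_apply]
  · intro s φ hφ
    have h1 := pr_cR (1, Circle.exp s) f φ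
    rw [← h1, h, pr_smulL _ _ hφ.1.continuous]
    congr 1
    simp only [chi, Circle.coe_exp, Circle.coe_one, one_zpow, one_mul]
    rw [← Complex.exp_int_mul]
    congr 1
    ring

/-- rotation of the distributional derivative -/
lemma dist_rot (e : ℂ →L[ℝ] ℂ × ℂ) (θ : Circle × Circle) (c : Circle)
    (hc : ∀ w, RL θ⁻¹ (e w) = e (conj (c : ℂ) * w)) (u : C0) {φ : ℂ × ℂ → ℝ}
    (hφ : IsTest Hartogs φ) :
    dist e u (fun z => φ (RL θ⁻¹ z)) = c * dist e (cR θ u) φ := by
  have h1 : ∀ w, (fun z => fderiv ℝ (fun z => φ (RL θ⁻¹ z)) z (e w)) =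
      fun z => (conj (c : ℂ) * w).re * fderiv ℝ φ (RL θ⁻¹ z) (e 1)
        + (conj (c : ℂ) * w).im * fderiv ℝ φ (RL θ⁻¹ z) (e Complex.I) := by
    intro w
    funext z
    have h2 : fderiv ℝ (fun z => φ (RL θ⁻¹ z)) z = (fderiv ℝ φ (RL θ⁻¹ z)).comp (RL θ⁻¹) := by
      have := (hφ.1.differentiable (by simp) (RL θ⁻¹ z)).hasFDerivAt.comp z (RL θ⁻¹).hasFDerivAt
      exact this.fderiv
    rw [h2, ContinuousLinearMap.comp_apply, hc, fderiv_split]
  have h3 : ∀ w, pr u (fun z => fderiv ℝ (fun z => φ (RL θ⁻¹ z)) z (e w)) =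
      (conj (c : ℂ) * w).re * pr (cR θ u) (fun z => fderiv ℝ φ z (e 1)) +
      (conj (c : ℂ) * w).im * pr (cR θ u) (fun z => fderiv ℝ φ z (e Complex.I)) := by
    intro w
    rw [h1 w, pr_add (Lp.memLp u)]
    · rw [pr_smul, pr_smul, pr_cR, pr_cR]
    · exact continuous_const.mul ((cD hφ (e 1)).comp (RL θ⁻¹).continuous)
    · exact continuous_const.mul ((cD hφ (e Complex.I)).comp (RL θ⁻¹).continuous)
  unfold dist
  rw [h3, h3]
  have h4 : (c : ℂ) = (c : ℂ).re + (c : ℂ).im * Complex.I := (Complex.re_add_im _).symm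
  have e1 : (conj (c : ℂ) * 1).re = (c : ℂ).re := by simp
  have e2 : (conj (c : ℂ) * 1).im = -(c : ℂ).im := by simp
  have e3 : (conj (c : ℂ) * Complex.I).re = (c : ℂ).im := by simp
  have e4 : (conj (c : ℂ) * Complex.I).im = (c : ℂ).re := by simp
  rw [e1, e2, e3, e4]
  push_cast
  generalize pr (cR θ u) (fun z => fderiv ℝ φ z (e 1)) = A
  generalize pr (cR θ u) (fun z => fderiv ℝ φ z (e Complex.I)) = B
  linear_combination (A + Complex.I * B) / 2 * h4 + (((c : ℂ).im : ℂ) * B / 2) * Complex.I_sq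

end Pool.Agent.H631DN
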