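import Pool.Agent.H631DN.C2

/-! The graphs of `∂̄` and its adjoint. -/

open scoped ContDiff Topology ENNReal NNReal ComplexConjugate
open MeasureTheory Set Filter

noncomputable section

namespace Pool.Agent.H631DN

open Pool.Agent.H631R3

lemma zeroC {u : ℂ × ℂ → ℂ} (hu : MemLp u 2 μT) (h : ∀ φ, IsTest Hartogs φ → pr u φ = 0) :
    u =ᵐ[μT] 0 := by
  have hz := isOpen_Hartogs.ae_eq_zero_of_integral_contDiff_smul_eq_zero (μ := μT) (f := u)
    ((hu.integrable (by norm_num)).locallyIntegrable.locallyIntegrableOn _) (fun g h1 h2 h3 => by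
      have := h g ⟨h1, h2, h3⟩
      unfold pr at this
      rw [← this]
      congr 1
      funext z
      rw [Complex.real_smul, mul_comm])
  filter_upwards [hz, ae_restrict_mem measurableSet_Hartogs] with z h1 h2
  exact h1 h2

lemma zeroC' {u : C0} (h : ∀ φ, IsTest Hartogs φ → pr u φ = 0) : u = 0 := by
  apply Lp.ext
  exact (zeroC (Lp.memLp u) h).trans (Lp.coeFn_zero _ _ _).symm

/-- formal derivative of a test function -/
def tD (e : ℂ →L[ℝ] ℂ × ℂ) (φ : ℂ × ℂ → ℝ) (hφ : IsTest Hartogs φ) : C0 :=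
  (1 / 2 : ℂ) • (tC (fun z => fderiv ℝ φ z (e 1)) (cD hφ _)
    + Complex.I • tC (fun z => fderiv ℝ φ z (e Complex.I)) (cD hφ _))

lemma pr_tC {a c : ℂ × ℂ → ℝ} (ha : Continuous a) :
    pr (tC a ha) c = ((∫ z in Hartogs, a z * c z : ℝ) : ℂ) := by
  unfold pr
  rw [← integral_complex_ofReal]
  refine integral_congr_ae ?_
  filter_upwards [(memC ha).coeFn_toLp] with z hz
  have : (tC a ha) z = (a z : ℂ) := hz
  rw [this]
  push_cast
  ring

lemma ibp_test {φ ψ : ℂ × ℂ → ℝ} (hφ : IsTest Hartogs φ) (hψ : IsTest Hartogs ψ) (v : ℂ × ℂ) :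
    ∫ z in Hartogs, φ z * fderiv ℝ ψ z v = - ∫ z in Hartogs, fderiv ℝ φ z v * ψ z := by
  have h0 : ∀ {a b : ℂ × ℂ → ℝ}, IsTest Hartogs b →
      ∫ z in Hartogs, a z * b z = ∫ z, a z * b z := by
    intro a b hb
    rw [setIntegral_eq_integral_of_forall_compl_eq_zero]
    intro x hx
    have : b x = 0 := by
      by_contra h
      exact hx (hb.2.2 (subset_tsupport _ h))
    rw [this, mul_zero]
  rw [h0 (hψ.fderiv_apply v), h0 hψ]
  refine integral_mul_fderiv_eq_neg_fderiv_mul_of_integrable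
    (integrable_mul_test (hφ.fderiv_apply v).1.continuous.continuousOn hψ)
    (integrable_mul_test hφ.1.continuous.continuousOn (hψ.fderiv_apply v))
    (integrable_mul_test hφ.1.continuous.continuousOn hψ)
    (fun x _ => hφ.1.differentiable (by simp) x) (fun x _ => hψ.1.differentiable (by simp) x)

lemma dist_tC (e : ℂ →L[ℝ] ℂ × ℂ) {φ ψ : ℂ × ℂ → ℝ} (hφ : IsTest Hartogs φ)
    (hψ : IsTest Hartogs ψ) : dist e (tC φ hφ.1.continuous) ψ = pr (tD e φ hφ) ψ := by
  unfold dist tD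
  rw [pr_smulL _ _ hψ.1.continuous, pr_addL _ _ hψ.1.continuous, pr_smulL _ _ hψ.1.continuous,
    pr_tC, pr_tC, pr_tC, pr_tC, ibp_test hφ hψ, ibp_test hφ hψ]
  push_cast
  ring

lemma dist_zero (e : ℂ →L[ℝ] ℂ × ℂ) {φ : ℂ × ℂ → ℝ} (hφ : IsTest Hartogs φ) :
    dist e (0 : C0) φ = 0 := by
  have := dist_smulL e 0 (0 : C0) hφ
  rwa [zero_smul, zero_mul] at this

lemma pr_zero {c : ℂ × ℂ → ℝ} (hc : Continuous c) : pr (0 : C0) c = 0 := by
  have := pr_smulL 0 (0 : C0) hc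
  rwa [zero_smul, zero_mul] at this

lemma Dbar1_test1 {φ : ℂ × ℂ → ℝ} (hφ : IsTest Hartogs φ) :
    Dbar1 (WithLp.toLp 2 (0, tC φ hφ.1.continuous)) (tD e1 φ hφ) := by
  intro ψ hψ
  change pr (tD e1 φ hφ) ψ = dist e1 (tC φ hφ.1.continuous) ψ - dist e2 (0 : C0) ψ
  rw [dist_tC e1 hφ hψ, dist_zero e2 hψ, sub_zero]

lemma Dbar1_test2 {φ : ℂ × ℂ → ℝ} (hφ : IsTest Hartogs φ) :
    Dbar1 (WithLp.toLp 2 (tC φ hφ.1.continuous, 0)) (-tD e2 φ hφ) := by
  intro ψ hψ
  change pr (-tD e2 φ hφ : C0) ψ = dist e1 (0 : C0) ψ - dist e2 (tC φ hφ.1.continuous) ψ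
  rw [dist_tC e2 hφ hψ, dist_zero e1 hψ, zero_sub, ← neg_one_smul ℂ, pr_smulL _ _ hψ.1.continuous]
  ring

/-- graph of `∂̄` on functions -/
def W0 : Submodule ℂ (WithLp 2 (C0 × C1)) where
  carrier := {x | Dbar0 x.fst x.snd}
  add_mem' := fun {x y} hx hy φ hφ => by
    obtain ⟨h1, h2⟩ := hx φ hφ
    obtain ⟨h3, h4⟩ := hy φ hφ
    change pr (x.snd.fst + y.snd.fst : C0) φ = dist e1 (x.fst + y.fst : C0) φ ∧
      pr (x.snd.snd + y.snd.snd : C0) φ = dist e2 (x.fst + y.fst : C0) φ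
    rw [pr_addL _ _ hφ.1.continuous, pr_addL _ _ hφ.1.continuous, dist_addL _ _ _ hφ,
      dist_addL _ _ _ hφ, h1, h2, h3, h4]
    exact ⟨rfl, rfl⟩
  zero_mem' := fun φ hφ => by
    change pr (0 : C0) φ = dist e1 (0 : C0) φ ∧ pr (0 : C0) φ = dist e2 (0 : C0) φ
    rw [pr_zero hφ.1.continuous, dist_zero _ hφ, dist_zero _ hφ]
    exact ⟨rfl, rfl⟩
  smul_mem' := fun c x hx φ hφ => by
    obtain ⟨h1, h2⟩ := hx φ hφ
    change pr (c • x.snd.fst : C0) φ = dist e1 (c • x.fst : C0) φ ∧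
      pr (c • x.snd.snd : C0) φ = dist e2 (c • x.fst : C0) φ
    rw [pr_smulL _ _ hφ.1.continuous, pr_smulL _ _ hφ.1.continuous, dist_smulL _ _ _ hφ,
      dist_smulL _ _ _ hφ, h1, h2]
    exact ⟨rfl, rfl⟩

lemma mem_W0 {x : WithLp 2 (C0 × C1)} : x ∈ W0 ↔ Dbar0 x.fst x.snd := Iff.rfl

/-- graph of `∂̄` on `(0,1)`-forms -/
def G1 : Submodule ℂ (WithLp 2 (C1 × C0)) where
  carrier := {x | Dbar1 x.fst x.snd}
  add_mem' := fun {x y} hx hy φ hφ => by
    have h1 := hx φ hφ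
    have h2 := hy φ hφ
    change pr (x.snd + y.snd : C0) φ = dist e1 (x.fst.snd + y.fst.snd : C0) φ
      - dist e2 (x.fst.fst + y.fst.fst : C0) φ
    rw [pr_addL _ _ hφ.1.continuous, dist_addL _ _ _ hφ,
      dist_addL _ _ _ hφ, h1, h2]
    ring
  zero_mem' := fun φ hφ => by
    change pr (0 : C0) φ = dist e1 (0 : C0) φ - dist e2 (0 : C0) φ
    rw [pr_zero hφ.1.continuous, dist_zero _ hφ, dist_zero _ hφ, sub_zero]
  smul_mem' := fun c x hx φ hφ => by
    have h1 := hx φ hφ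
    change pr (c • x.snd : C0) φ = dist e1 (c • x.fst.snd : C0) φ - dist e2 (c • x.fst.fst : C0) φ
    rw [pr_smulL _ _ hφ.1.continuous, dist_smulL _ _ _ hφ, dist_smulL _ _ _ hφ, h1]
    ring

lemma mem_G1 {x : WithLp 2 (C1 × C0)} : x ∈ G1 ↔ Dbar1 x.fst x.snd := Iff.rfl

/-- graph of the adjoint of `∂̄` on `(0,1)`-forms -/
def W1 : Submodule ℂ (WithLp 2 (C0 × C1)) where
  carrier := {x | AdjC Dbar1 x.fst x.snd}
  add_mem' := fun {x y} hx hy u v h => by
    change inner ℂ v (x.fst + y.fst) = inner ℂ u (x.snd + y.snd)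
    rw [inner_add_right, inner_add_right, hx u v h, hy u v h]
  zero_mem' := fun u v h => by
    change inner ℂ v (0 : C0) = inner ℂ u (0 : C1)
    rw [inner_zero_right, inner_zero_right]
  smul_mem' := fun c x hx u v h => by
    change inner ℂ v (c • x.fst) = inner ℂ u (c • x.snd)
    rw [inner_smul_right, inner_smul_right, hx u v h]

lemma mem_W1 {x : WithLp 2 (C0 × C1)} : x ∈ W1 ↔ AdjC Dbar1 x.fst x.snd := Iff.rfl

lemma continuous_fst' {A B : Type*} [NormedAddCommGroup A] [InnerProductSpace ℂ A]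
    [NormedAddCommGroup B] [InnerProductSpace ℂ B] :
    Continuous fun x : WithLp 2 (A × B) => x.fst := (WithLp.fstL 2 ℂ A B).continuous

lemma continuous_snd' {A B : Type*} [NormedAddCommGroup A] [InnerProductSpace ℂ A]
    [NormedAddCommGroup B] [InnerProductSpace ℂ B] :
    Continuous fun x : WithLp 2 (A × B) => x.snd := (WithLp.sndL 2 ℂ A B).continuous

lemma isClosed_W0 : IsClosed (W0 : Set (WithLp 2 (C0 × C1))) := by
  have : (W0 : Set (WithLp 2 (C0 × C1))) = ⋂ φ, ⋂ _ : IsTest Hartogs φ,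
      ({x | pr x.snd.fst φ = dist e1 x.fst φ} ∩ {x | pr x.snd.snd φ = dist e2 x.fst φ}) := by
    ext x
    simp only [mem_iInter]
    rfl
  rw [this]
  refine isClosed_iInter fun φ => isClosed_iInter fun hφ => IsClosed.inter ?_ ?_
  · exact isClosed_eq ((continuous_pr hφ.1.continuous).comp (continuous_fst'.comp continuous_snd'))
      ((continuous_dist e1 hφ).comp continuous_fst')
  · exact isClosed_eq ((continuous_pr hφ.1.continuous).comp (continuous_snd'.comp continuous_snd'))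
      ((continuous_dist e2 hφ).comp continuous_fst')

lemma isClosed_G1 : IsClosed (G1 : Set (WithLp 2 (C1 × C0))) := by
  have : (G1 : Set (WithLp 2 (C1 × C0))) = ⋂ φ, ⋂ _ : IsTest Hartogs φ,
      {x | pr x.snd φ = dist e1 x.fst.snd φ - dist e2 x.fst.fst φ} := by
    ext x
    simp only [mem_iInter]
    rfl
  rw [this]
  refine isClosed_iInter fun φ => isClosed_iInter fun hφ => ?_
  exact isClosed_eq ((continuous_pr hφ.1.continuous).comp continuous_snd')
      (((continuous_dist e1 hφ).comp (continuous_snd'.comp continuous_fst')).sub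
        ((continuous_dist e2 hφ).comp (continuous_fst'.comp continuous_fst')))

lemma isClosed_W1 : IsClosed (W1 : Set (WithLp 2 (C0 × C1))) := by
  have : (W1 : Set (WithLp 2 (C0 × C1))) = ⋂ u, ⋂ v, ⋂ _ : Dbar1 u v,
      {x | inner ℂ v x.fst = inner ℂ u x.snd} := by
    ext x
    simp only [mem_iInter]
    rfl
  rw [this]
  refine isClosed_iInter fun u => isClosed_iInter fun v => isClosed_iInter fun h => ?_
  exact isClosed_eq (continuous_const.inner continuous_fst') (continuous_const.inner continuous_snd')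

lemma sv_W0 : ∀ y ∈ W0, y.fst = 0 → y.snd = 0 := by
  intro y hy h0
  have hy' := mem_W0.1 hy
  rw [h0] at hy'
  refine WithLp.ofLp_injective 2 (Prod.ext ?_ ?_)
  · refine zeroC' fun φ hφ => ?_
    have := (hy' φ hφ).1
    rw [dist_zero _ hφ] at this
    exact this
  · refine zeroC' fun φ hφ => ?_
    have := (hy' φ hφ).2
    rw [dist_zero _ hφ] at this
    exact this

lemma sv_W1 : ∀ y ∈ W1, y.fst = 0 → y.snd = 0 := by
  intro y hy h0
  have hy' := mem_W1.1 hy
  rw [h0] at hy'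
  refine WithLp.ofLp_injective 2 (Prod.ext ?_ ?_)
  · refine zeroC' fun φ hφ => ?_
    have h1 := hy' _ _ (Dbar1_test2 hφ)
    rw [inner_zero_right, WithLp.prod_inner_apply] at h1
    have h2 : (0 : ℂ) = inner ℂ (tC φ hφ.1.continuous) y.snd.fst + inner ℂ (0 : C0) y.snd.snd := h1
    rw [inner_zero_left, add_zero, inner_tC] at h2
    exact h2.symm
  · refine zeroC' fun φ hφ => ?_
    have h1 := hy' _ _ (Dbar1_test1 hφ)
    rw [inner_zero_right, WithLp.prod_inner_apply] at h1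
    have h2 : (0 : ℂ) = inner ℂ (0 : C0) y.snd.fst + inner ℂ (tC φ hφ.1.continuous) y.snd.snd := h1
    rw [inner_zero_left, zero_add, inner_tC] at h2
    exact h2.symm

end Pool.Agent.H631DN
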