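import Pool.Agent.H631DN.C3

/-! Invariance of `∂̄` and totality of the modes. -/

open scoped ContDiff Topology ENNReal NNReal ComplexConjugate Pointwise
open MeasureTheory Set Filter

noncomputable section

namespace Pool.Agent.H631DN

open Pool.Agent.H631R3

lemma rot_e1 (θ : Circle × Circle) (w : ℂ) : RL θ⁻¹ (e1 w) = e1 (conj (θ.1 : ℂ) * w) := by
  refine Prod.ext ?_ ?_
  · change ((θ.1⁻¹ : Circle) : ℂ) * w = _
    rw [Circle.coe_inv_eq_conj]
    rfl
  · change ((θ.2⁻¹ : Circle) : ℂ) * 0 = 0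
    rw [mul_zero]

lemma rot_e2 (θ : Circle × Circle) (w : ℂ) : RL θ⁻¹ (e2 w) = e2 (conj (θ.2 : ℂ) * w) := by
  refine Prod.ext ?_ ?_
  · change ((θ.1⁻¹ : Circle) : ℂ) * 0 = 0
    rw [mul_zero]
  · change ((θ.2⁻¹ : Circle) : ℂ) * w = _
    rw [Circle.coe_inv_eq_conj]
    rfl

lemma chi10 (θ : Circle × Circle) : chi 1 0 θ = θ.1 := by simp [chi]
lemma chi01 (θ : Circle × Circle) : chi 0 1 θ = θ.2 := by simp [chi]
lemma chi11 (θ : Circle × Circle) : chi 1 1 θ = θ.1 * θ.2 := by simp [chi]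
lemma chi00 (θ : Circle × Circle) : chi 0 0 θ = 1 := by simp [chi]

/-- action on `(0,1)`-forms -/
def UF : Circle × Circle → C1 ≃ₗᵢ[ℂ] C1 := UU (TT 1 0) (TT 0 1)

lemma inv_W0 : ∀ θ, ∀ x ∈ W0, UU (TT 0 0) UF θ x ∈ W0 := by
  intro θ x hx φ hφ
  change pr ((chi 1 0 θ)⁻¹ • cR θ x.snd.fst : C0) φ = dist e1 ((chi 0 0 θ)⁻¹ • cR θ x.fst : C0) φ ∧
    pr ((chi 0 1 θ)⁻¹ • cR θ x.snd.snd : C0) φ = dist e2 ((chi 0 0 θ)⁻¹ • cR θ x.fst : C0) φ
  have hφ' := test_RL θ⁻¹ hφ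
  obtain ⟨h1, h2⟩ := mem_W0.1 hx _ hφ'
  rw [dist_rot e1 θ θ.1 (rot_e1 θ) x.fst hφ] at h1
  rw [dist_rot e2 θ θ.2 (rot_e2 θ) x.fst hφ] at h2
  rw [pr_smulL _ _ hφ.1.continuous, pr_smulL _ _ hφ.1.continuous, chi00, inv_one, one_smul,
    pr_cR, pr_cR, h1, h2, chi10, chi01, ← mul_assoc, ← mul_assoc, inv_mul_cancel₀ θ.1.coe_ne_zero,
    inv_mul_cancel₀ θ.2.coe_ne_zero, one_mul, one_mul]
  exact ⟨rfl, rfl⟩

lemma inv_G1 (θ : Circle × Circle) {f : C1} {g : C0} (h : Dbar1 f g) :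
    Dbar1 (UF θ f) (TT 1 1 θ g) := by
  intro φ hφ
  change pr ((chi 1 1 θ)⁻¹ • cR θ g : C0) φ = dist e1 ((chi 0 1 θ)⁻¹ • cR θ f.snd : C0) φ
    - dist e2 ((chi 1 0 θ)⁻¹ • cR θ f.fst : C0) φ
  have h1 := h _ (test_RL θ⁻¹ hφ)
  rw [dist_rot e1 θ θ.1 (rot_e1 θ) f.snd hφ, dist_rot e2 θ θ.2 (rot_e2 θ) f.fst hφ] at h1
  rw [pr_smulL _ _ hφ.1.continuous, dist_smulL _ _ _ hφ, dist_smulL _ _ _ hφ, pr_cR, h1,
    chi10, chi01, chi11]
  have h2 := θ.1.coe_ne_zero
  have h3 := θ.2.coe_ne_zero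
  field_simp

lemma UF_inv (θ : Circle × Circle) (f : C1) : UF θ (UF θ⁻¹ f) = f :=
  WithLp.ofLp_injective 2 (Prod.ext (TT_inv 1 0 θ f.fst) (TT_inv 0 1 θ f.snd))

lemma inv_W1 : ∀ θ, ∀ x ∈ W1, UU (TT 1 1) UF θ x ∈ W1 := by
  intro θ x hx u v h
  change inner ℂ v (TT 1 1 θ x.fst) = inner ℂ u (UF θ x.snd)
  have h1 := mem_W1.1 hx _ _ (inv_G1 θ⁻¹ h)
  rw [← (TT 1 1 θ).inner_map_map, TT_inv, ← (UF θ).inner_map_map, UF_inv] at h1
  exact h1

/-- mode functions -/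
def Sm : Set C(ℂ × ℂ, ℂ) :=
  {G | ∃ m n : ℤ, ∀ (θ : Circle × Circle) (z : ℂ × ℂ), G (RL θ z) = chi m n θ * G z}

lemma Sm_mul : Sm * Sm ⊆ Sm := by
  rintro _ ⟨a, ⟨m, n, ha⟩, b, ⟨m', n', hb⟩, rfl⟩
  refine ⟨m + m', n + n', fun θ z => ?_⟩
  change a (RL θ z) * b (RL θ z) = chi (m + m') (n + n') θ * (a z * b z)
  rw [ha, hb, chi_add]
  ring

/-- inclusion of real functions -/
def toC (g : C(ℂ × ℂ, ℝ)) : C(ℂ × ℂ, ℂ) := ⟨fun z => (g z : ℂ), Complex.continuous_ofReal.comp g.continuous⟩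

/-- the algebra of real trigonometric polynomials -/
def AR : Subalgebra ℝ C(ℂ × ℂ, ℝ) where
  carrier := {g | toC g ∈ Submodule.span ℂ Sm}
  mul_mem' := fun {a b} ha hb => by
    have h1 : toC (a * b) = toC a * toC b := by
      ext z
      change ((a z * b z : ℝ) : ℂ) = (a z : ℂ) * (b z : ℂ)
      push_cast; rfl
    change toC (a * b) ∈ Submodule.span ℂ Sm
    rw [h1]
    have h2 : toC a * toC b ∈ Submodule.span ℂ Sm * Submodule.span ℂ Sm :=
      Submodule.mul_mem_mul ha hb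
    rw [Submodule.span_mul_span] at h2
    exact Submodule.span_mono Sm_mul h2
  add_mem' := fun {a b} ha hb => by
    have h1 : toC (a + b) = toC a + toC b := by
      ext z
      change ((a z + b z : ℝ) : ℂ) = (a z : ℂ) + (b z : ℂ)
      push_cast; rfl
    change toC (a + b) ∈ Submodule.span ℂ Sm
    rw [h1]
    exact Submodule.add_mem _ ha hb
  algebraMap_mem' := fun r => by
    have h1 : toC (algebraMap ℝ C(ℂ × ℂ, ℝ) r) = (r : ℂ) • (1 : C(ℂ × ℂ, ℂ)) := by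
      ext z
      change ((r : ℝ) : ℂ) = (r : ℂ) * 1
      rw [mul_one]
    change toC (algebraMap ℝ C(ℂ × ℂ, ℝ) r) ∈ Submodule.span ℂ Sm
    rw [h1]
    refine Submodule.smul_mem _ _ (Submodule.subset_span ⟨0, 0, fun θ z => ?_⟩)
    change (1 : ℂ) = chi 0 0 θ * 1
    rw [chi00, one_mul]

lemma cmem {p : ℂ × ℂ → ℂ} (hp : Continuous p) {m n : ℤ}
    (h : ∀ (θ : Circle × Circle) z, p (RL θ z) = chi m n θ * p z) (a : ℂ) :
    (⟨fun z => (a * p z).re, Complex.continuous_re.comp (continuous_const.mul hp)⟩ : C(ℂ × ℂ, ℝ)) ∈ AR := by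
  change toC _ ∈ Submodule.span ℂ Sm
  have h1 : toC ⟨fun z => (a * p z).re, Complex.continuous_re.comp (continuous_const.mul hp)⟩
      = (a / 2) • (⟨p, hp⟩ : C(ℂ × ℂ, ℂ)) + (conj a / 2) • (⟨fun z => conj (p z),
        Complex.continuous_conj.comp hp⟩ : C(ℂ × ℂ, ℂ)) := by
    ext z
    change (((a * p z).re : ℝ) : ℂ) = a / 2 * p z + conj a / 2 * conj (p z)
    rw [Complex.re_eq_add_conj, map_mul]
    ring
  rw [h1]
  refine Submodule.add_mem _ (Submodule.smul_mem _ _ (Submodule.subset_span ⟨m, n, h⟩))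
    (Submodule.smul_mem _ _ (Submodule.subset_span ⟨-m, -n, fun θ z => ?_⟩))
  change conj (p (RL θ z)) = chi (-m) (-n) θ * conj (p z)
  rw [h, map_mul]
  congr 1
  unfold chi
  rw [map_mul, map_zpow₀, map_zpow₀, zpow_neg, zpow_neg, ← inv_zpow, ← inv_zpow,
    ← Circle.coe_inv_eq_conj, ← Circle.coe_inv_eq_conj, Circle.coe_inv, Circle.coe_inv]

lemma AR_sep : AR.SeparatesPoints := by
  have key : ∀ {p : ℂ × ℂ → ℂ} (hp : Continuous p) {m n : ℤ}
    (h : ∀ (θ : Circle × Circle) z, p (RL θ z) = chi m n θ * p z) {z w : ℂ × ℂ}, p z ≠ p w →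
      ∃ f, f ∈ (fun f : C(ℂ × ℂ, ℝ) => (f : ℂ × ℂ → ℝ)) '' (AR : Set C(ℂ × ℂ, ℝ)) ∧ f z ≠ f w := by
    intro p hp m n h z w hzw
    by_cases hre : (p z).re = (p w).re
    · have him : (p z).im ≠ (p w).im := fun h => hzw (Complex.ext hre h)
      refine ⟨_, ⟨_, cmem hp h Complex.I, rfl⟩, ?_⟩
      change (Complex.I * p z).re ≠ (Complex.I * p w).re
      simpa using him
    · refine ⟨_, ⟨_, cmem hp h 1, rfl⟩, ?_⟩
      change (1 * p z).re ≠ (1 * p w).re
      simpa using hre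
  intro z w hzw
  by_cases h1 : z.1 = w.1
  · have h2 : z.2 ≠ w.2 := fun h => hzw (Prod.ext h1 h)
    exact key (p := fun z => z.2) continuous_snd (m := 0) (n := 1) (fun θ z => by
      rw [chi01]; rfl) h2
  · exact key (p := fun z => z.1) continuous_fst (m := 1) (n := 0) (fun θ z => by
      rw [chi10]; rfl) h1

lemma memG (G : C(ℂ × ℂ, ℂ)) : MemLp (fun z => G z) 2 μT := by
  have h1 : MemLp (fun _ : ℂ × ℂ => (1 : ℂ)) 2 μT := memLp_const 1
  have h2 := memLp_mul_bdd G.continuous h1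
  simpa using h2

lemma integG (x : C0) (G : C(ℂ × ℂ, ℂ)) : Integrable (fun z => conj (G z) * x z) μT := by
  have h1 := memLp_mul_bdd (Complex.continuous_conj.comp G.continuous) (Lp.memLp x)
  exact h1.integrable (by norm_num)

lemma span_int {k l : ℤ} {x : C0} (hx : ∀ q : ℤ × ℤ, ∀ y ∈ modes (TT k l) (chi q.1 q.2), inner ℂ y x = 0)
    {G : C(ℂ × ℂ, ℂ)} (hG : G ∈ Submodule.span ℂ Sm) : ∫ z in Hartogs, conj (G z) * x z = 0 := by
  induction hG using Submodule.span_induction with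
  | mem G hG =>
    obtain ⟨m, n, hG⟩ := hG
    set y : C0 := (memG G).toLp _ with hy
    have hyG : y =ᵐ[μT] fun z => G z := (memG G).coeFn_toLp
    have hmode : y ∈ modes (TT k l) (chi (m - k) (n - l)) := by
      rw [mem_modes_TT]
      intro θ
      rw [sub_add_cancel, sub_add_cancel]
      apply Lp.ext
      filter_upwards [cR_coe θ y, (hRL θ).quasiMeasurePreserving.ae_eq_comp hyG, hyG,
        Lp.coeFn_smul (chi m n θ) y] with z h1 h2 h3 h4
      rw [h1, h2, h4, Pi.smul_apply, h3, smul_eq_mul]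
      exact hG θ z
    have h1 := hx (m - k, n - l) y hmode
    rw [L2.inner_def] at h1
    rw [← h1]
    refine integral_congr_ae ?_
    filter_upwards [hyG] with z hz
    rw [hz, RCLike.inner_apply, mul_comm]
  | zero => simp
  | add a b _ _ h1 h2 =>
    have : ∀ z, conj ((a + b) z) * x z = conj (a z) * x z + conj (b z) * x z := fun z => by
      rw [ContinuousMap.add_apply, map_add, add_mul]
    simp_rw [this]
    rw [integral_add (integG x a) (integG x b), h1, h2, add_zero]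
  | smul c a _ h1 =>
    have : ∀ z, conj ((c • a) z) * x z = conj c * (conj (a z) * x z) := fun z => by
      rw [ContinuousMap.smul_apply, smul_eq_mul, map_mul, mul_assoc]
    simp_rw [this]
    rw [integral_const_mul, h1, mul_zero]

lemma total_TT (k l : ℤ) (x : C0)
    (hx : ∀ q : ℤ × ℤ, ∀ y ∈ modes (TT k l) (chi q.1 q.2), inner ℂ y x = 0) : x = 0 := by
  refine zeroC' fun φ hφ => ?_
  have hxi : Integrable x μT := (Lp.memLp x).integrable (by norm_num)
  have hK : IsCompact (Metric.closedBall (0 : ℂ × ℂ) 1) := isCompact_closedBall _ _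
  have hTK : ∀ z ∈ Hartogs, z ∈ Metric.closedBall (0 : ℂ × ℂ) 1 := by
    intro z hz
    rw [mem_closedBall_zero_iff, Prod.norm_def]
    exact max_le (hz.1.trans hz.2).le hz.2.le
  have key : ∀ ε : ℝ, 0 < ε → ‖pr x φ‖ ≤ ε * ∫ z in Hartogs, ‖x z‖ := by
    intro ε hε
    obtain ⟨g, hg, hgφ⟩ := ContinuousMap.exists_mem_subalgebra_near_continuous_of_isCompact_of_separatesPoints
      AR_sep (⟨φ, hφ.1.continuous⟩ : C(ℂ × ℂ, ℝ)) hK hε
    have h1 : pr x g = 0 := by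
      have := span_int hx (G := toC g) hg
      rw [← this]
      unfold pr
      congr 1
      funext z
      change x z * (g z : ℂ) = conj ((g z : ℝ) : ℂ) * x z
      rw [Complex.conj_ofReal, mul_comm]
    have h2 : pr x φ = ∫ z in Hartogs, x z * ((φ z : ℂ) - g z) := by
      have h3 : pr x φ = pr x φ - pr x g := by rw [h1, sub_zero]
      rw [h3]
      unfold pr
      rw [← integral_sub (integ (Lp.memLp x) hφ.1.continuous) (integ (Lp.memLp x) g.continuous)]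
      congr 1
      funext z
      ring
    rw [h2, ← integral_const_mul]
    refine norm_integral_le_of_norm_le (hxi.norm.const_mul ε) ?_
    filter_upwards [ae_restrict_mem measurableSet_Hartogs] with z hz
    rw [norm_mul, mul_comm]
    gcongr
    have h4 := (hgφ z (hTK z hz)).le
    rw [← Complex.ofReal_sub, Complex.norm_real, norm_sub_rev]
    exact h4
  have h0 : ‖pr x φ‖ ≤ 0 := by
    refine le_of_forall_pos_le_add fun δ hδ => ?_
    rw [zero_add]
    have hI : 0 ≤ ∫ z in Hartogs, ‖x z‖ := integral_nonneg fun z => norm_nonneg _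
    have h5 := key (δ / ((∫ z in Hartogs, ‖x z‖) + 1)) (div_pos hδ (by linarith))
    refine h5.trans ?_
    rw [div_mul_eq_mul_div, div_le_iff₀ (by linarith)]
    nlinarith
  exact norm_le_zero_iff.1 h0

end Pool.Agent.H631DN
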