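import Pool.Agent.H631DN.C4

/-! Compactness on the modes. -/

open scoped ContDiff Topology ENNReal NNReal ComplexConjugate
open MeasureTheory Set Filter

noncomputable section

namespace Pool.Agent.H631DN

open Pool.Agent.H631R3

lemma norm_fst_le' {A B : Type*} [NormedAddCommGroup A] [InnerProductSpace ℂ A]
    [NormedAddCommGroup B] [InnerProductSpace ℂ B] (x : WithLp 2 (A × B)) : ‖x.fst‖ ≤ ‖x‖ := by
  have h := WithLp.prod_norm_sq_eq_of_L2 x
  exact le_of_sq_le_sq (by nlinarith [sq_nonneg ‖x.snd‖]) (norm_nonneg _)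

lemma norm_snd_le' {A B : Type*} [NormedAddCommGroup A] [InnerProductSpace ℂ A]
    [NormedAddCommGroup B] [InnerProductSpace ℂ B] (x : WithLp 2 (A × B)) : ‖x.snd‖ ≤ ‖x‖ := by
  have h := WithLp.prod_norm_sq_eq_of_L2 x
  exact le_of_sq_le_sq (by nlinarith [sq_nonneg ‖x.fst‖]) (norm_nonneg _)

lemma total_UF (x : C1) (hx : ∀ q : ℤ × ℤ, ∀ y ∈ modes UF (chi q.1 q.2), inner ℂ y x = 0) :
    x = 0 := by
  refine WithLp.ofLp_injective 2 (Prod.ext ?_ ?_)
  · refine total_TT 1 0 _ fun q y hy => ?_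
    have h := hx q (WithLp.toLp 2 (y, 0))
      (mem_modes_UU.2 ⟨hy, Submodule.zero_mem (modes (TT 0 1) (chi q.1 q.2))⟩)
    have h2 : inner ℂ y x.fst + inner ℂ (0 : C0) x.snd = 0 := h
    rw [inner_zero_left, add_zero] at h2
    exact h2
  · refine total_TT 0 1 _ fun q y hy => ?_
    have h := hx q (WithLp.toLp 2 (0, y))
      (mem_modes_UU.2 ⟨Submodule.zero_mem (modes (TT 1 0) (chi q.1 q.2)), hy⟩)
    have h2 : inner ℂ (0 : C0) x.fst + inner ℂ y x.snd = 0 := h
    rw [inner_zero_left, zero_add] at h2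
    exact h2

instance sccG {A B : Type*} [NormedAddCommGroup A] [InnerProductSpace ℂ A]
    [NormedAddCommGroup B] [InnerProductSpace ℂ B] [SecondCountableTopology A]
    [SecondCountableTopology B] : SecondCountableTopology (WithLp 2 (A × B)) :=
  (WithLp.prodContinuousLinearEquiv 2 ℂ A B).toHomeomorph.secondCountableTopology

lemma cpt_ofG {A B : Type*} [NormedAddCommGroup A] [InnerProductSpace ℂ A] [CompleteSpace A]
    [NormedAddCommGroup B] [InnerProductSpace ℂ B] [CompleteSpace B] [SecondCountableTopology A]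
    [SecondCountableTopology B]
    {M : Submodule ℂ (WithLp 2 (A × B))} (hM : IsClosed (M : Set (WithLp 2 (A × B))))
    (h : ∀ v : ℕ → M, ∀ C, (∀ k, ‖(v k).1‖ ≤ C) →
      (∀ w : A, Tendsto (fun k => inner ℂ w (v k).1.fst) atTop (𝓝 0)) →
      Tendsto (fun k => ‖(v k).1.fst‖) atTop (𝓝 0)) :
    IsCompactOperator ((WithLp.fstL 2 ℂ A B).comp M.subtypeL) := by
  have : CompleteSpace M := hM.completeSpace_coe
  have hsep : TopologicalSpace.SeparableSpace M := inferInstance
  refine compact_of_weakC _ ?_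
  rintro v ⟨C, hC⟩ hw
  rw [tendsto_zero_iff_norm_tendsto_zero]
  refine h v C hC fun w => ?_
  have h1 := hw (((WithLp.fstL 2 ℂ A B).comp M.subtypeL).adjoint w)
  refine h1.congr fun k => ?_
  rw [ContinuousLinearMap.adjoint_inner_left]
  rfl
lemma cpt_of {M : Submodule ℂ (WithLp 2 (C0 × C1))} (hM : IsClosed (M : Set (WithLp 2 (C0 × C1))))
    (h : ∀ v : ℕ → M, ∀ B, (∀ k, ‖(v k).1‖ ≤ B) →
      (∀ w : C0, Tendsto (fun k => inner ℂ w (v k).1.fst) atTop (𝓝 0)) →
      Tendsto (fun k => ‖(v k).1.fst‖) atTop (𝓝 0)) :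
    IsCompactOperator ((WithLp.fstL 2 ℂ C0 C1).comp M.subtypeL) := by
  have hh : SecondCountableTopology C1 := sccG (A := C0) (B := C0)
  exact cpt_ofG hM h

lemma nn_coe (u : C0) : nn u = ‖u‖ := by
  rw [nn_eq, Lp.norm_def]

lemma cpt0 (q : ℤ × ℤ) : IsCompactOperator ((WithLp.fstL 2 ℂ C0 C1).comp
    (W0 ⊓ modes (UU (TT 0 0) UF) (chi q.1 q.2)).subtypeL) := by
  refine cpt_of (isClosed_W0.inter (isClosed_modes _ _)) fun v B hB hw => ?_
  have hmd : ∀ k, Md q.1 q.2 (v k).1.fst (v k).1.snd.fst (v k).1.snd.snd := by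
    intro k
    have h1 := mem_W0.1 (v k).2.1
    have h2 := (mem_modes_UU.1 (v k).2.2).1
    rw [mem_modes_TT, add_zero, add_zero] at h2
    exact ⟨Lp.memLp _, Lp.memLp _, Lp.memLp _, fun φ hφ => (h1 φ hφ).1, fun φ hφ => (h1 φ hφ).2,
      wmode1 h2, wmode2 h2⟩
  have h1 := mode_compact hmd (B := B)
    (fun k => by rw [nn_coe]; exact (norm_fst_le' _).trans (hB k))
    (fun k => by
      rw [nn_coe]
      exact (norm_fst_le' (v k).1.snd).trans ((norm_snd_le' (v k).1).trans (hB k)))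
    (fun k => by
      rw [nn_coe]
      exact (norm_snd_le' (v k).1.snd).trans ((norm_snd_le' (v k).1).trans (hB k)))
    (fun w hwm => by
      have hc : MemLp (fun z => conj (w z)) 2 μT := hwm.star
      refine (hw (hc.toLp _)).congr fun k => ?_
      rw [L2.inner_def]
      refine integral_congr_ae ?_
      filter_upwards [hc.coeFn_toLp] with z hz
      rw [hz, RCLike.inner_apply, Complex.conj_conj, mul_comm])
  exact h1.congr fun k => nn_coe _

lemma pr_conj (u : ℂ × ℂ → ℂ) (c : ℂ × ℂ → ℝ) : pr (fun z => conj (u z)) c = conj (pr u c) := by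
  unfold pr
  rw [← integral_conj]
  congr 1
  funext z
  rw [map_mul, Complex.conj_ofReal]

lemma nn_conj (u : ℂ × ℂ → ℂ) : nn (fun z => conj (u z)) = nn u := by
  unfold nn
  simp only [← ofReal_norm, RCLike.norm_conj]

lemma WMode.conj {e : ℂ →L[ℝ] ℂ × ℂ} {p : (ℂ × ℂ) →L[ℝ] ℂ} {m : ℤ} {u : ℂ × ℂ → ℂ}
    (h : WMode e p m u) : WMode e p (-m) (fun z => conj (u z)) := by
  intro φ hφ
  rw [pr_conj, pr_conj, h φ hφ, map_mul, map_neg, map_mul, Complex.conj_I, map_intCast]
  push_cast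
  ring

lemma inner_tD (e : ℂ →L[ℝ] ℂ × ℂ) {φ : ℂ × ℂ → ℝ} (hφ : IsTest Hartogs φ) (g : C0) :
    inner ℂ (tD e φ hφ) g = (pr g (fun z => fderiv ℝ φ z (e 1))
      - Complex.I * pr g (fun z => fderiv ℝ φ z (e Complex.I))) / 2 := by
  unfold tD
  rw [inner_smul_left, inner_add_left, inner_smul_left, inner_tC, inner_tC, Complex.conj_I]
  simp only [map_div₀, map_one, map_ofNat]
  ring

lemma W1_conj {y : WithLp 2 (C0 × C1)} (hy : y ∈ W1) :
    WDb e1 (fun z => conj (y.fst z)) (fun z => -conj (y.snd.snd z)) ∧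
    WDb e2 (fun z => conj (y.fst z)) (fun z => conj (y.snd.fst z)) := by
  constructor
  · intro φ hφ
    have h1 := mem_W1.1 hy _ _ (Dbar1_test1 hφ)
    rw [WithLp.prod_inner_apply] at h1
    have h2 : inner ℂ (tD e1 φ hφ) y.fst = inner ℂ (0 : C0) y.snd.fst
      + inner ℂ (tC φ hφ.1.continuous) y.snd.snd := h1
    rw [inner_zero_left, zero_add, inner_tC, inner_tD] at h2
    have h3 : pr (fun z => -conj (y.snd.snd z)) φ = - conj (pr y.snd.snd φ) := by
      rw [← pr_conj]
      unfold pr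
      rw [← integral_neg]
      congr 1
      funext z
      ring
    rw [h3, ← h2, pr_conj, pr_conj, map_div₀, map_sub, map_mul, Complex.conj_I, map_ofNat]
    ring
  · intro φ hφ
    have h1 := mem_W1.1 hy _ _ (Dbar1_test2 hφ)
    rw [WithLp.prod_inner_apply] at h1
    have h2 : inner ℂ (-tD e2 φ hφ) y.fst = inner ℂ (tC φ hφ.1.continuous) y.snd.fst
      + inner ℂ (0 : C0) y.snd.snd := h1
    rw [inner_zero_left, add_zero, inner_tC, inner_neg_left, inner_tD] at h2
    rw [pr_conj, ← h2, pr_conj, pr_conj, map_neg, map_div₀, map_sub, map_mul, Complex.conj_I,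
      map_ofNat]
    ring

lemma cpt1 (q : ℤ × ℤ) : IsCompactOperator ((WithLp.fstL 2 ℂ C0 C1).comp
    (W1 ⊓ modes (UU (TT 1 1) UF) (chi q.1 q.2)).subtypeL) := by
  refine cpt_of (isClosed_W1.inter (isClosed_modes _ _)) fun v B hB hw => ?_
  have hmd : ∀ k, Md (-(q.1 + 1)) (-(q.2 + 1)) (fun z => conj ((v k).1.fst z))
      (fun z => -conj ((v k).1.snd.snd z)) (fun z => conj ((v k).1.snd.fst z)) := by
    intro k
    obtain ⟨h1, h1'⟩ := W1_conj (v k).2.1
    have h2 := (mem_modes_UU.1 (v k).2.2).1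
    rw [mem_modes_TT] at h2
    exact ⟨(Lp.memLp _).star, (Lp.memLp _).star.neg, (Lp.memLp _).star, h1, h1',
      (wmode1 h2).conj, (wmode2 h2).conj⟩
  have h1 := mode_compact hmd (B := B)
    (fun k => by rw [nn_conj, nn_coe]; exact (norm_fst_le' _).trans (hB k))
    (fun k => by
      have : nn (fun z => -conj ((v k).1.snd.snd z)) = nn (fun z => conj ((v k).1.snd.snd z)) := by
        unfold nn
        simp only [enorm_neg]
      rw [this, nn_conj, nn_coe]
      exact (norm_snd_le' (v k).1.snd).trans ((norm_snd_le' (v k).1).trans (hB k)))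
    (fun k => by
      rw [nn_conj, nn_coe]
      exact (norm_fst_le' (v k).1.snd).trans ((norm_snd_le' (v k).1).trans (hB k)))
    (fun w hwm => by
      have h2 := (Complex.continuous_conj.tendsto 0).comp (hw (hwm.toLp _))
      rw [map_zero] at h2
      refine h2.congr fun k => ?_
      change conj (inner ℂ (hwm.toLp _) (v k).1.fst) = _
      rw [L2.inner_def, ← integral_conj]
      refine integral_congr_ae ?_
      filter_upwards [hwm.coeFn_toLp] with z hz
      rw [hz, RCLike.inner_apply, map_mul, Complex.conj_conj, mul_comm])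
  exact h1.congr fun k => by rw [nn_conj, nn_coe]

end Pool.Agent.H631DN
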