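import Pool.Agent.H631DN.C5
import Pool.Agent.H631DN.B3

/-! The eigenforms of `□₁` are total. -/

open scoped ContDiff Topology ENNReal NNReal ComplexConjugate
open MeasureTheory Set Filter

noncomputable section

namespace Pool.Agent.H631DN

open Pool.Agent.H631R3

lemma fcomm {φ : ℂ × ℂ → ℝ} (hφ : ContDiff ℝ ∞ φ) (v w z : ℂ × ℂ) :
    fderiv ℝ (fun z => fderiv ℝ φ z v) z w = fderiv ℝ (fun z => fderiv ℝ φ z w) z v := by
  have hd : DifferentiableAt ℝ (fderiv ℝ φ) z :=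
    (hφ.fderiv_right (m := ∞) (by simp)).differentiable (by simp) z
  have h1 : ∀ v, fderiv ℝ (fun z => fderiv ℝ φ z v) z = (fderiv ℝ (fderiv ℝ φ) z).flip v := by
    intro v
    rw [fderiv_clm_apply hd (differentiableAt_const v)]
    simp
  rw [h1, h1]
  have h2 : ContDiffAt ℝ 2 φ z := hφ.contDiffAt.of_le
    (WithTop.coe_le_coe.2 (le_top : (2 : ℕ∞) ≤ ⊤))
  exact (h2.isSymmSndFDerivAt (by simp)) w v

lemma dbar_sq {u : C0} {f : C1} (h : Dbar0 u f) : Dbar1 f 0 := by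
  intro φ hφ
  rw [pr_zero hφ.1.continuous]
  have h1 := fun v => (h _ (hφ.fderiv_apply v)).1
  have h2 := fun v => (h _ (hφ.fderiv_apply v)).2
  unfold dist at h1 h2 ⊢
  rw [h2, h2, h1, h1]
  have hc : ∀ v w, (fun z => fderiv ℝ (fun z => fderiv ℝ φ z v) z w) =
      fun z => fderiv ℝ (fun z => fderiv ℝ φ z w) z v := fun v w => funext fun z => fcomm hφ.1 v w z
  rw [hc (e1 1) (e2 1), hc (e1 1) (e2 Complex.I), hc (e1 Complex.I) (e2 1),
    hc (e1 Complex.I) (e2 Complex.I)]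
  ring

lemma mem_G1_of {f : C1} {h : C0} (H : ∀ t s, AdjC Dbar1 t s → inner ℂ s f = inner ℂ t h) :
    Dbar1 f h := by
  have hcs : CompleteSpace G1 := isClosed_G1.completeSpace_coe
  have h1 : (WithLp.toLp 2 (f, h) : WithLp 2 (C1 × C0)) ∈ G1ᗮᗮ := by
    rw [Submodule.mem_orthogonal]
    intro y hy
    have h2 : AdjC Dbar1 y.snd (-y.fst) := by
      intro u v huv
      have h3 := (Submodule.mem_orthogonal _ _).1 hy (WithLp.toLp 2 (u, v)) (mem_G1.2 huv)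
      rw [WithLp.prod_inner_apply] at h3
      have h4 : inner ℂ u y.fst + inner ℂ v y.snd = 0 := h3
      rw [inner_neg_right]
      linear_combination h4
    have h5 := H _ _ h2
    rw [WithLp.prod_inner_apply]
    have h6 : inner ℂ y.fst f + inner ℂ y.snd h = 0 := by
      rw [← h5, inner_neg_left]
      ring
    exact h6
  rw [Submodule.orthogonal_orthogonal] at h1
  exact mem_G1.1 h1

lemma Dbar0_zero : Dbar0 0 0 := W0.zero_mem

lemma adj_zero {A B : Type*} [NormedAddCommGroup A] [InnerProductSpace ℂ A]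
    [NormedAddCommGroup B] [InnerProductSpace ℂ B] (D : A → B → Prop) : AdjC D 0 0 := by
  intro u v _
  rw [inner_zero_right, inner_zero_right]

lemma prop0 {x : C1} (hx : ∀ v, ∀ μ : ℝ, Box v ((μ : ℂ) • v) → inner ℂ x v = 0) :
    ∀ y ∈ W0, inner ℂ x y.snd = 0 := by
  refine propF (U0 := TT 0 0) (U1 := UF) (fun θ => ⟨θ⁻¹, TT_inv 0 0 θ, UF_inv θ⟩)
    (fun q : ℤ × ℤ => chi q.1 q.2) (total_TT 0 0) total_UF isClosed_W0 inv_W0 sv_W0 cpt0 x ?_
  intro y hy μ h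
  refine hx y.snd μ ⟨(μ : ℂ) • y.fst, (μ : ℂ) • y.snd, 0, 0, ?_, ?_, ?_, adj_zero _, ?_⟩
  · intro u v huv
    have h1 : inner ℂ y.snd v = μ * inner ℂ y.fst u := h (WithLp.toLp 2 (u, v)) (mem_W0.2 huv)
    rw [← inner_conj_symm, h1, map_mul, Complex.conj_ofReal, inner_conj_symm, inner_smul_right]
  · exact W0.smul_mem (μ : ℂ) hy
  · exact dbar_sq (mem_W0.1 hy)
  · rw [add_zero]

lemma prop1 {x : C1} (hx : ∀ v, ∀ μ : ℝ, Box v ((μ : ℂ) • v) → inner ℂ x v = 0) :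
    ∀ y ∈ W1, inner ℂ x y.snd = 0 := by
  refine propF (U0 := TT 1 1) (U1 := UF) (fun θ => ⟨θ⁻¹, TT_inv 1 1 θ, UF_inv θ⟩)
    (fun q : ℤ × ℤ => chi q.1 q.2) (total_TT 1 1) total_UF isClosed_W1 inv_W1 sv_W1 cpt1 x ?_
  intro y hy μ h
  refine hx y.snd μ ⟨0, 0, (μ : ℂ) • y.fst, (μ : ℂ) • y.snd, ?_, Dbar0_zero, ?_, ?_, ?_⟩
  · intro u v huv
    have h1 := mem_W1.1 hy v 0 (dbar_sq huv)
    rw [inner_zero_left] at h1
    rw [← h1, inner_zero_right]
  · refine mem_G1_of fun t s hts => ?_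
    have h1 : inner ℂ y.snd s = μ * inner ℂ y.fst t := h (WithLp.toLp 2 (t, s)) (mem_W1.2 hts)
    rw [← inner_conj_symm, h1, map_mul, Complex.conj_ofReal, inner_conj_symm, inner_smul_right]
  · exact W1.smul_mem (μ : ℂ) hy
  · rw [zero_add]

theorem total_Box {x : C1} (hx : ∀ v, ∀ μ : ℝ, Box v ((μ : ℂ) • v) → inner ℂ x v = 0) : x = 0 := by
  have h0 := prop0 hx
  have h1 := prop1 hx
  have h2 : Box x (((0 : ℝ) : ℂ) • x) := by
    refine ⟨0, 0, 0, 0, ?_, Dbar0_zero, ?_, adj_zero _, ?_⟩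
    · intro u v huv
      have h3 : inner ℂ x v = 0 := h0 (WithLp.toLp 2 (u, v)) (mem_W0.2 huv)
      rw [← inner_conj_symm, h3, map_zero, inner_zero_right]
    · refine mem_G1_of fun t s hts => ?_
      have h3 : inner ℂ x s = 0 := h1 (WithLp.toLp 2 (t, s)) (mem_W1.2 hts)
      rw [← inner_conj_symm, h3, map_zero, inner_zero_right]
    · rw [Complex.ofReal_zero, zero_smul, add_zero]
  exact inner_self_eq_zero.1 (hx x 0 h2)

end Pool.Agent.H631DN
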