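import Pool.Agent.H631DN.C6

/-! Eigenspaces of `□₁`. -/

open scoped ContDiff Topology ENNReal NNReal ComplexConjugate
open MeasureTheory Set Filter

noncomputable section

namespace Pool.Agent.H631DN

open Pool.Agent.H631R3

lemma Dbar0.add {u u' : C0} {f f' : C1} (h : Dbar0 u f) (h' : Dbar0 u' f') :
    Dbar0 (u + u') (f + f') :=
  mem_W0.1 (W0.add_mem (x := WithLp.toLp 2 (u, f)) (y := WithLp.toLp 2 (u', f')) h h')

lemma Dbar0.smul {u : C0} {f : C1} (c : ℂ) (h : Dbar0 u f) : Dbar0 (c • u) (c • f) :=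
  mem_W0.1 (W0.smul_mem c (x := WithLp.toLp 2 (u, f)) h)

lemma Dbar1.add {f f' : C1} {g g' : C0} (h : Dbar1 f g) (h' : Dbar1 f' g') :
    Dbar1 (f + f') (g + g') :=
  mem_G1.1 (G1.add_mem (x := WithLp.toLp 2 (f, g)) (y := WithLp.toLp 2 (f', g')) h h')

lemma Dbar1.smul {f : C1} {g : C0} (c : ℂ) (h : Dbar1 f g) : Dbar1 (c • f) (c • g) :=
  mem_G1.1 (G1.smul_mem c (x := WithLp.toLp 2 (f, g)) h)

lemma Dbar1_zero : Dbar1 0 0 := G1.zero_mem

section

variable {A B : Type*} [NormedAddCommGroup A] [InnerProductSpace ℂ A]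
    [NormedAddCommGroup B] [InnerProductSpace ℂ B] {D : A → B → Prop}

lemma AdjC.add {g g' : B} {f f' : A} (h : AdjC D g f) (h' : AdjC D g' f') :
    AdjC D (g + g') (f + f') := by
  intro u v huv
  rw [inner_add_right, inner_add_right, h u v huv, h' u v huv]

lemma AdjC.smul {g : B} {f : A} (c : ℂ) (h : AdjC D g f) : AdjC D (c • g) (c • f) := by
  intro u v huv
  rw [inner_smul_right, inner_smul_right, h u v huv]

lemma isClosed_AdjC {X : Type*} [TopologicalSpace X] {F : X → B} {G : X → A} (hF : Continuous F)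
    (hG : Continuous G) : IsClosed {x | AdjC D (F x) (G x)} := by
  have : {x | AdjC D (F x) (G x)} = ⋂ u, ⋂ v, ⋂ _ : D u v, {x | inner ℂ v (F x) = inner ℂ u (G x)} := by
    ext x
    simp only [mem_iInter]
    rfl
  rw [this]
  refine isClosed_iInter fun u => isClosed_iInter fun v => isClosed_iInter fun h => ?_
  exact isClosed_eq (continuous_const.inner hF) (continuous_const.inner hG)

end

lemma isClosed_Dbar0 {X : Type*} [TopologicalSpace X] {F : X → C0} {G : X → C1} (hF : Continuous F)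
    (hG : Continuous G) : IsClosed {x | Dbar0 (F x) (G x)} := by
  have : {x | Dbar0 (F x) (G x)} = ⋂ φ, ⋂ _ : IsTest Hartogs φ,
      ({x | pr (G x).fst φ = dist e1 (F x) φ} ∩ {x | pr (G x).snd φ = dist e2 (F x) φ}) := by
    ext x
    simp only [mem_iInter]
    rfl
  rw [this]
  refine isClosed_iInter fun φ => isClosed_iInter fun hφ => IsClosed.inter ?_ ?_
  · exact isClosed_eq ((continuous_pr hφ.1.continuous).comp (continuous_fst'.comp hG))
      ((continuous_dist e1 hφ).comp hF)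
  · exact isClosed_eq ((continuous_pr hφ.1.continuous).comp (continuous_snd'.comp hG))
      ((continuous_dist e2 hφ).comp hF)

lemma isClosed_Dbar1 {X : Type*} [TopologicalSpace X] {F : X → C1} {G : X → C0} (hF : Continuous F)
    (hG : Continuous G) : IsClosed {x | Dbar1 (F x) (G x)} := by
  have : {x | Dbar1 (F x) (G x)} = ⋂ φ, ⋂ _ : IsTest Hartogs φ,
      {x | pr (G x) φ = dist e1 (F x).snd φ - dist e2 (F x).fst φ} := by
    ext x
    simp only [mem_iInter]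
    rfl
  rw [this]
  refine isClosed_iInter fun φ => isClosed_iInter fun hφ => ?_
  exact isClosed_eq ((continuous_pr hφ.1.continuous).comp hG)
      (((continuous_dist e1 hφ).comp (continuous_snd'.comp hF)).sub
        ((continuous_dist e2 hφ).comp (continuous_fst'.comp hF)))

/-- the relations in the definition of the Laplacian -/
def Rel (f : C1) (a : C0) (b : C1) (u : C0) (v : C1) : Prop :=
  AdjC Dbar0 f a ∧ Dbar0 a b ∧ Dbar1 f u ∧ AdjC Dbar1 u v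

lemma Rel.energy {f f' : C1} {a a' : C0} {b b' : C1} {u u' : C0} {v v' : C1}
    (h : Rel f a b u v) (h' : Rel f' a' b' u' v') :
    inner ℂ (b + v) f' = inner ℂ a a' + inner ℂ u u' := by
  rw [inner_add_left, h'.1 a b h.2.1, ← inner_conj_symm v f', ← h.2.2.2 f' u' h'.2.2.1,
    inner_conj_symm]

lemma Rel.orth {f : C1} {a : C0} {b : C1} {u : C0} {v : C1} (h : Rel f a b u v) :
    inner ℂ b v = 0 := by
  have := h.2.2.2 b 0 (dbar_sq h.2.1)
  rw [inner_zero_left] at this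
  exact this.symm

/-- graph of the eigenvalue relation -/
def KB (μ : ℝ) : Submodule ℂ (C1 × (C0 × C1) × (C0 × C1)) where
  carrier := {x | Rel x.1 x.2.1.1 x.2.1.2 x.2.2.1 x.2.2.2 ∧ (μ : ℂ) • x.1 = x.2.1.2 + x.2.2.2}
  add_mem' := fun {x y} hx hy =>
    ⟨⟨hx.1.1.add hy.1.1, hx.1.2.1.add hy.1.2.1, hx.1.2.2.1.add hy.1.2.2.1,
      hx.1.2.2.2.add hy.1.2.2.2⟩, by
        change (μ : ℂ) • (x.1 + y.1) = (x.2.1.2 + y.2.1.2) + (x.2.2.2 + y.2.2.2)
        rw [smul_add, hx.2, hy.2]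
        abel⟩
  zero_mem' := ⟨⟨adj_zero _, Dbar0_zero, Dbar1_zero, adj_zero _⟩, by
    change (μ : ℂ) • (0 : C1) = 0 + 0
    rw [smul_zero, add_zero]⟩
  smul_mem' := fun c x hx =>
    ⟨⟨hx.1.1.smul c, hx.1.2.1.smul c, hx.1.2.2.1.smul c, hx.1.2.2.2.smul c⟩, by
        change (μ : ℂ) • (c • x.1) = c • x.2.1.2 + c • x.2.2.2
        rw [smul_comm, hx.2, smul_add]⟩

lemma isClosed_KB (μ : ℝ) : IsClosed (KB μ : Set (C1 × (C0 × C1) × (C0 × C1))) := by
  have h : (KB μ : Set (C1 × (C0 × C1) × (C0 × C1))) =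
      (({x | AdjC Dbar0 x.1 x.2.1.1} ∩ ({x | Dbar0 x.2.1.1 x.2.1.2} ∩ ({x | Dbar1 x.1 x.2.2.1} ∩
      {x | AdjC Dbar1 x.2.2.1 x.2.2.2}))) ∩ {x | (μ : ℂ) • x.1 = x.2.1.2 + x.2.2.2}) := rfl
  rw [h]
  refine IsClosed.inter (IsClosed.inter ?_ (IsClosed.inter ?_ (IsClosed.inter ?_ ?_))) ?_
  · exact isClosed_AdjC continuous_fst (continuous_fst.comp (continuous_fst.comp continuous_snd))
  · exact isClosed_Dbar0 (continuous_fst.comp (continuous_fst.comp continuous_snd))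
      (continuous_snd.comp (continuous_fst.comp continuous_snd))
  · exact isClosed_Dbar1 continuous_fst (continuous_fst.comp (continuous_snd.comp continuous_snd))
  · exact isClosed_AdjC (continuous_fst.comp (continuous_snd.comp continuous_snd))
      (continuous_snd.comp (continuous_snd.comp continuous_snd))
  · exact isClosed_eq ((continuous_const_smul (μ : ℂ)).comp continuous_fst)
      ((continuous_snd.comp (continuous_fst.comp continuous_snd)).add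
        (continuous_snd.comp (continuous_snd.comp continuous_snd)))

lemma re_inner_self {H : Type*} [NormedAddCommGroup H] [InnerProductSpace ℂ H] (x : H) :
    inner ℂ x x = ((‖x‖ ^ 2 : ℝ) : ℂ) := by
  rw [inner_self_eq_norm_sq_to_K]
  norm_cast

lemma KB_energy {μ : ℝ} {x : C1 × (C0 × C1) × (C0 × C1)} (hx : x ∈ KB μ) :
    μ * ‖x.1‖ ^ 2 = ‖x.2.1.1‖ ^ 2 + ‖x.2.2.1‖ ^ 2 := by
  have h1 := hx.1.energy hx.1
  rw [← hx.2, inner_smul_left, Complex.conj_ofReal, re_inner_self, re_inner_self, re_inner_self] at h1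
  exact_mod_cast h1

lemma KB_energy2 {μ : ℝ} {x : C1 × (C0 × C1) × (C0 × C1)} (hx : x ∈ KB μ) :
    μ ^ 2 * ‖x.1‖ ^ 2 = ‖x.2.1.2‖ ^ 2 + ‖x.2.2.2‖ ^ 2 := by
  have h1 : ‖x.2.1.2 + x.2.2.2‖ ^ 2 = ‖x.2.1.2‖ ^ 2 + ‖x.2.2.2‖ ^ 2 := by
    have h2 := norm_add_sq (𝕜 := ℂ) x.2.1.2 x.2.2.2
    rw [hx.1.orth, map_zero, mul_zero, add_zero] at h2
    exact h2
  rw [← h1, ← hx.2, norm_smul, Complex.norm_real, mul_pow, Real.norm_eq_abs, sq_abs]

lemma KB_bound {μ : ℝ} {x : C1 × (C0 × C1) × (C0 × C1)} (hx : x ∈ KB μ) :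
    ‖x‖ ≤ (1 + |μ|) * ‖x.1‖ := by
  have h1 := KB_energy hx
  have h2 := KB_energy2 hx
  have h0 : 0 ≤ |μ| := abs_nonneg μ
  have hN : 0 ≤ ‖x.1‖ := norm_nonneg _
  have hR : 0 ≤ (1 + |μ|) * ‖x.1‖ := by positivity
  have hμ : μ ≤ |μ| := le_abs_self μ
  have hμ2 : μ ^ 2 = |μ| ^ 2 := (sq_abs μ).symm
  have hb1 : μ * ‖x.1‖ ^ 2 ≤ ((1 + |μ|) * ‖x.1‖) ^ 2 := by
    have : μ * ‖x.1‖ ^ 2 ≤ |μ| * ‖x.1‖ ^ 2 := mul_le_mul_of_nonneg_right hμ (sq_nonneg _)
    nlinarith [sq_nonneg ‖x.1‖, mul_nonneg h0 (sq_nonneg ‖x.1‖), mul_nonneg (sq_nonneg |μ|) (sq_nonneg ‖x.1‖)]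
  have hb2 : μ ^ 2 * ‖x.1‖ ^ 2 ≤ ((1 + |μ|) * ‖x.1‖) ^ 2 := by
    rw [hμ2]
    nlinarith [sq_nonneg ‖x.1‖, mul_nonneg h0 (sq_nonneg ‖x.1‖), mul_nonneg (sq_nonneg |μ|) (sq_nonneg ‖x.1‖)]
  rw [Prod.norm_def, Prod.norm_def, Prod.norm_def, Prod.norm_def]
  refine max_le ?_ (max_le (max_le ?_ ?_) (max_le ?_ ?_))
  · nlinarith
  · exact le_of_sq_le_sq (by nlinarith [sq_nonneg ‖x.2.2.1‖]) hR
  · exact le_of_sq_le_sq (by nlinarith [sq_nonneg ‖x.2.2.2‖]) hR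
  · exact le_of_sq_le_sq (by nlinarith [sq_nonneg ‖x.2.1.1‖]) hR
  · exact le_of_sq_le_sq (by nlinarith [sq_nonneg ‖x.2.1.2‖]) hR

/-- eigenspaces of `□₁` -/
def EB (μ : ℝ) : Submodule ℂ C1 := (KB μ).map (LinearMap.fst ℂ C1 ((C0 × C1) × (C0 × C1)))

lemma mem_EB {μ : ℝ} {f : C1} : f ∈ EB μ ↔ Box f ((μ : ℂ) • f) := by
  constructor
  · rintro ⟨x, hx, rfl⟩
    exact ⟨x.2.1.1, x.2.1.2, x.2.2.1, x.2.2.2, hx.1.1, hx.1.2.1, hx.1.2.2.1, hx.1.2.2.2, hx.2⟩
  · rintro ⟨a, b, u, v, h1, h2, h3, h4, h5⟩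
    exact ⟨(f, (a, b), (u, v)), ⟨⟨h1, h2, h3, h4⟩, h5⟩, rfl⟩

lemma isClosed_EB (μ : ℝ) : IsClosed (EB μ : Set C1) := by
  have hcs : CompleteSpace (KB μ) := (isClosed_KB μ).completeSpace_coe
  set F : KB μ →L[ℂ] C1 := (ContinuousLinearMap.fst ℂ C1 ((C0 × C1) × (C0 × C1))).comp (KB μ).subtypeL
    with hF
  have hal : AntilipschitzWith (Real.toNNReal (1 + |μ|)) F := by
    refine ContinuousLinearMap.antilipschitz_of_bound F fun x => ?_
    rw [Real.coe_toNNReal _ (by positivity)]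
    exact KB_bound x.2
  have hr : (EB μ : Set C1) = range F := by
    ext f
    constructor
    · rintro ⟨x, hx, rfl⟩
      exact ⟨⟨x, hx⟩, rfl⟩
    · rintro ⟨x, rfl⟩
      exact ⟨x.1, x.2, rfl⟩
  rw [hr]
  exact hal.isClosed_range F.uniformContinuous

lemma Box_symm {f h f' h' : C1} (H : Box f h) (H' : Box f' h') : inner ℂ h f' = inner ℂ f h' := by
  obtain ⟨a, b, u, v, h1, h2, h3, h4, rfl⟩ := H
  obtain ⟨a', b', u', v', h1', h2', h3', h4', rfl⟩ := H'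
  have hR : Rel f a b u v := ⟨h1, h2, h3, h4⟩
  have hR' : Rel f' a' b' u' v' := ⟨h1', h2', h3', h4'⟩
  rw [hR.energy hR', ← inner_conj_symm f, hR'.energy hR, map_add, inner_conj_symm, inner_conj_symm]

theorem box_basis : ∃ (ι : Type) (b : HilbertBasis ι ℂ C1) (lam : ι → ℝ),
    ∀ i, 0 ≤ lam i ∧ Box (b i) ((lam i : ℂ) • b i) := by
  obtain ⟨ι, b, lam, hb⟩ := basis_of EB isClosed_EB (by
    intro μ ν hμν x hx y hy
    have h1 := Box_symm (mem_EB.1 hx) (mem_EB.1 hy)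
    rw [inner_smul_left, inner_smul_right, Complex.conj_ofReal] at h1
    have h2 : ((μ : ℂ) - ν) * inner ℂ x y = 0 := by linear_combination h1
    rcases mul_eq_zero.1 h2 with h3 | h3
    · exact absurd (by exact_mod_cast sub_eq_zero.1 h3) hμν
    · exact h3) (fun x hx => total_Box fun v μ hv => hx μ v (mem_EB.2 hv))
  refine ⟨ι, b, lam, fun i => ⟨?_, mem_EB.1 (hb i)⟩⟩
  obtain ⟨x, hx, hxb⟩ := hb i
  have h1 := KB_energy hx
  have h2 : ‖x.1‖ = 1 := by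
    have h3 : x.1 = b i := hxb
    rw [h3]
    exact b.orthonormal.1 i
  rw [h2] at h1
  nlinarith [sq_nonneg ‖x.2.1.1‖, sq_nonneg ‖x.2.2.1‖]

end Pool.Agent.H631DN
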