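import Pool.Agent.H631DN.C7
import Pool.Agent.H631DN.B4

/-! The statement: the `∂̄`-complex of the Hartogs triangle and the spectrum of the inverse of its
complex Laplacian on `(0,1)`-forms. -/

open scoped ContDiff Topology ENNReal NNReal ComplexConjugate
open MeasureTheory Set Filter

noncomputable section

namespace Pool.Agent.H631DN

open Pool.Agent.H631R3

/-- Lebesgue measure on the Hartogs triangle. -/
def mT : Measure (ℂ × ℂ) := (volume : Measure (ℂ × ℂ)).restrict Hartogs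

/-- `L²(T)`, which is both `L²_{0,0}(T)` and (coefficients of `dz̄₁∧dz̄₂`) `L²_{0,2}(T)`. -/
def L2T : Type := Lp ℂ 2 mT

set_option warn.classDefReducibility false

/-- the norm of `L²(T)` -/
def nT : NormedAddCommGroup (Lp ℂ 2 mT) := inferInstance
instance nacgT : NormedAddCommGroup L2T := nT
/-- the inner product of `L²(T)` -/
def iT : @InnerProductSpace ℂ (Lp ℂ 2 mT) _ nT.toSeminormedAddCommGroup := L2.innerProductSpace
instance ipsT : InnerProductSpace ℂ L2T := iT

/-- the underlying function -/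
def fn (u : L2T) : ℂ × ℂ → ℂ := (fun v : Lp ℂ 2 mT => (v : ℂ × ℂ → ℂ)) u

/-- `L²_{0,1}(T)`: pairs `(f₁, f₂)` of coefficients of `f₁ dz̄₁ + f₂ dz̄₂`, with
`⟨f, g⟩ = ⟨f₁, g₁⟩ + ⟨f₂, g₂⟩`. -/
def L2F : Type := WithLp 2 (L2T × L2T)

/-- the norm of `L²_{0,1}(T)` -/
def nF : NormedAddCommGroup (WithLp 2 (L2T × L2T)) := inferInstance
instance nacgF : NormedAddCommGroup L2F := nF
/-- the inner product of `L²_{0,1}(T)` -/
def iF : @InnerProductSpace ℂ (WithLp 2 (L2T × L2T)) _ nF.toSeminormedAddCommGroup :=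
  WithLp.instProdInnerProductSpace
instance ipsF : InnerProductSpace ℂ L2F := iF

/-- coefficient of `dz̄₁` -/
def cf1 (f : L2F) : L2T := WithLp.fst (p := 2) (α := L2T) (β := L2T) f

/-- coefficient of `dz̄₂` -/
def cf2 (f : L2F) : L2T := WithLp.snd (p := 2) (α := L2T) (β := L2T) f

/-- `f = ∂̄u` in the sense of distributions. -/
def D0 (u : L2T) (f : L2F) : Prop :=
  ∀ φ, IsTest Hartogs φ → pr (fn (cf1 f)) φ = dist e1 (fn u) φ ∧ pr (fn (cf2 f)) φ = dist e2 (fn u) φ

/-- `g dz̄₁∧dz̄₂ = ∂̄f` in the sense of distributions. -/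
def D1 (f : L2F) (g : L2T) : Prop :=
  ∀ φ, IsTest Hartogs φ → pr (fn g) φ = dist e1 (fn (cf2 f)) φ - dist e2 (fn (cf1 f)) φ

/-- `h = □₁ f`, `□₁ = ∂̄∂̄^* + ∂̄^*∂̄` with its natural domain. -/
def Box1 (f h : L2F) : Prop :=
  ∃ (a : L2T) (b : L2F) (u : L2T) (v : L2F),
    AdjC D0 f a ∧ D0 a b ∧ D1 f u ∧ AdjC D1 u v ∧ h = b + v

/-- There is a countable orthonormal basis of eigenvectors of `L` with eigenvalues `≥ 0`, and if `N`
is a bounded inverse of `L` then this is a basis of eigenvectors of `N`, the eigenvalues of `N` being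
the inverses of those of `L`, and the spectrum of `N` is the closure of the set of its eigenvalues. -/
def InversePurePoint {H : Type} [NormedAddCommGroup H] [InnerProductSpace ℂ H]
    (L : H → H → Prop) : Prop :=
  ∃ (ι : Type) (b : HilbertBasis ι ℂ H) (lam : ι → ℝ),
    Countable ι ∧ (∀ i, 0 ≤ lam i ∧ L (b i) ((lam i : ℂ) • b i)) ∧
      ∀ N : H →L[ℂ] H, (∀ f h, L f h ↔ f = N h) →
        (∀ i, lam i ≠ 0 ∧ N (b i) = ((lam i : ℂ))⁻¹ • b i) ∧
        spectrum ℂ N = closure (Set.range fun i => ((lam i : ℂ))⁻¹)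

theorem ipp_of {H : Type} [NormedAddCommGroup H] [InnerProductSpace ℂ H] [CompleteSpace H]
    [TopologicalSpace.SeparableSpace H] {L : H → H → Prop}
    (h : ∃ (ι : Type) (b : HilbertBasis ι ℂ H) (lam : ι → ℝ),
      ∀ i, 0 ≤ lam i ∧ L (b i) ((lam i : ℂ) • b i)) : InversePurePoint L := by
  obtain ⟨ι, b, lam, h⟩ := h
  refine ⟨ι, b, lam, countable_basis b, h, fun N hN => ?_⟩
  have key : ∀ i, lam i ≠ 0 ∧ N (b i) = ((lam i : ℂ))⁻¹ • b i := by
    intro i
    have h1 : b i = (lam i : ℂ) • N (b i) := by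
      rw [← map_smul]
      exact (hN _ _).1 (h i).2
    have h2 : lam i ≠ 0 := by
      intro h0
      rw [h0, Complex.ofReal_zero, zero_smul] at h1
      exact hb_ne b i h1
    refine ⟨h2, ?_⟩
    nth_rw 2 [h1]
    rw [smul_smul, inv_mul_cancel₀ (by exact_mod_cast h2), one_smul]
  exact ⟨key, spec_closure b fun i => (key i).2⟩

theorem box_pp : InversePurePoint Box := by
  have hsc : SecondCountableTopology C1 := sccG (A := C0) (B := C0)
  have hsep : TopologicalSpace.SeparableSpace C1 := inferInstance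
  exact ipp_of box_basis

theorem box1_pp : InversePurePoint Box1 := box_pp

end Pool.Agent.H631DN
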