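import Pool.Agent.H631DN.A7

/-! The `∂̄`-complex of the Hartogs triangle and its complex Laplacian on `(0,1)`-forms. -/

open scoped ContDiff Topology ENNReal NNReal ComplexConjugate
open MeasureTheory Set Filter

noncomputable section

namespace Pool.Agent.H631DN

open Pool.Agent.H631R3

/-- `L²(T)`, which is both `L²_{0,0}(T)` and (coefficients of `dz̄₁∧dz̄₂`) `L²_{0,2}(T)`. -/
abbrev C0 : Type := Lp ℂ 2 ((volume : Measure (ℂ × ℂ)).restrict Hartogs)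

/-- `L²_{0,1}(T)`: pairs `(f₁, f₂)` of coefficients of `f₁ dz̄₁ + f₂ dz̄₂`, with
`⟨f, g⟩ = ⟨f₁, g₁⟩ + ⟨f₂, g₂⟩`. -/
abbrev C1 : Type := WithLp 2 (C0 × C0)

/-- the distribution `∂u/∂z̄` (in the coordinate plane embedded by `e`) applied to a real test
function: `-(∫ u φ_x + i ∫ u φ_y)/2` -/
def dist (e : ℂ →L[ℝ] ℂ × ℂ) (u : ℂ × ℂ → ℂ) (φ : ℂ × ℂ → ℝ) : ℂ :=
  -(pr u (fun z => fderiv ℝ φ z (e 1)) + Complex.I * pr u (fun z => fderiv ℝ φ z (e Complex.I))) / 2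

/-- `f = ∂̄u` in the sense of distributions. -/
def Dbar0 (u : C0) (f : C1) : Prop :=
  ∀ φ, IsTest Hartogs φ → pr f.fst φ = dist e1 u φ ∧ pr f.snd φ = dist e2 u φ

/-- `g dz̄₁∧dz̄₂ = ∂̄f` in the sense of distributions. -/
def Dbar1 (f : C1) (g : C0) : Prop :=
  ∀ φ, IsTest Hartogs φ → pr g φ = dist e1 f.snd φ - dist e2 f.fst φ

/-- `f = D^* g` for the Hilbert space adjoint of the operator with graph `D`. -/
def AdjC {H H' : Type*} [NormedAddCommGroup H] [InnerProductSpace ℂ H]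
    [NormedAddCommGroup H'] [InnerProductSpace ℂ H'] (D : H → H' → Prop) (g : H') (f : H) : Prop :=
  ∀ u v, D u v → inner ℂ v g = inner ℂ u f

/-- `h = □₁ f`, `□₁ = ∂̄∂̄^* + ∂̄^*∂̄` with its natural domain. -/
def Box (f h : C1) : Prop :=
  ∃ (a : C0) (b : C1) (u : C0) (v : C1),
    AdjC Dbar0 f a ∧ Dbar0 a b ∧ Dbar1 f u ∧ AdjC Dbar1 u v ∧ h = b + v

end Pool.Agent.H631DN
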